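import Mathlib

set_option autoImplicit false

/-! # Averages over shifts of products over the primes dividing a number (helper80) -/

namespace Pool.Agent.H80.Pc

open Finset

open scoped Classical

theorem one_le_prodR {ι : Type*} (s : Finset ι) (f : ι → ℝ) (h : ∀ i ∈ s, 1 ≤ f i) :
    1 ≤ ∏ i ∈ s, f i := by
  calc (1 : ℝ) = ∏ _i ∈ s, (1 : ℝ) := by simp
    _ ≤ ∏ i ∈ s, f i := prod_le_prod (fun _ _ => zero_le_one) h

theorem count_dvd (M D : ℕ) (hD : 0 < D) (m : ℤ) :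
    ((((Icc 1 M).filter (fun s : ℕ => (D : ℤ) ∣ m - s)).card : ℕ) : ℝ) ≤ (M : ℝ) / D + 1 := by
  have h0 : ((Icc 1 M).filter (fun s : ℕ => (D : ℤ) ∣ m - s)).card ≤
      ((Ioc (0 : ℤ) M).filter (fun x => x ≡ m [ZMOD (D : ℤ)])).card := by
    apply card_le_card_of_injOn (fun s : ℕ => (s : ℤ))
    · intro s hs
      simp only [coe_filter, Set.mem_ofPred_eq, mem_Icc, mem_Ioc] at hs ⊢
      refine ⟨⟨by omega, by omega⟩, ?_⟩
      exact (Int.modEq_iff_dvd).2 hs.2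
    · intro a _ b _ h
      have h' : (a : ℤ) = (b : ℤ) := h
      exact_mod_cast h'
  have h1 := Int.Ioc_filter_modEq_card (0 : ℤ) (M : ℤ) (r := (D : ℤ)) (by exact_mod_cast hD) m
  have hD0 : (0 : ℝ) < D := by exact_mod_cast hD
  have h2 : ((((Ioc (0 : ℤ) M).filter (fun x => x ≡ m [ZMOD (D : ℤ)])).card : ℤ) : ℝ) ≤
      (M : ℝ) / D + 1 := by
    rw [h1]
    push_cast
    apply max_le
    · have a1 := Int.floor_le ((((M : ℤ) : ℚ) - (m : ℚ)) / ((D : ℤ) : ℚ))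
      have a2 := Int.lt_floor_add_one ((((0 : ℤ) : ℚ) - (m : ℚ)) / ((D : ℤ) : ℚ))
      have a3 : ((⌊(((M : ℤ) : ℚ) - (m : ℚ)) / ((D : ℤ) : ℚ)⌋ : ℤ) : ℝ) ≤ ((M : ℝ) - m) / D := by
        have : (((⌊(((M : ℤ) : ℚ) - (m : ℚ)) / ((D : ℤ) : ℚ)⌋ : ℤ) : ℚ) : ℝ) ≤
          (((((M : ℤ) : ℚ) - (m : ℚ)) / ((D : ℤ) : ℚ) : ℚ) : ℝ) := by exact_mod_cast a1
        push_cast at this
        exact_mod_cast this
      have a4 : ((0 : ℝ) - m) / D < ((⌊(((0 : ℤ) : ℚ) - (m : ℚ)) / ((D : ℤ) : ℚ)⌋ : ℤ) : ℝ) + 1 := by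
        have : (((((0 : ℤ) : ℚ) - (m : ℚ)) / ((D : ℤ) : ℚ) : ℚ) : ℝ) <
          (((⌊(((0 : ℤ) : ℚ) - (m : ℚ)) / ((D : ℤ) : ℚ)⌋ + 1 : ℤ) : ℚ) : ℝ) := by
            exact_mod_cast a2
        push_cast at this
        exact_mod_cast this
      have a5 : ((M : ℝ) - m) / D - ((0 : ℝ) - m) / D = M / D := by ring
      push_cast at a3 a4 ⊢
      linarith
    · positivity
  have h3 : ((((Icc 1 M).filter (fun s : ℕ => (D : ℤ) ∣ m - s)).card : ℕ) : ℝ) ≤
      ((((Ioc (0 : ℤ) M).filter (fun x => x ≡ m [ZMOD (D : ℤ)])).card : ℤ) : ℝ) := by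
    exact_mod_cast h0
  exact h3.trans h2

theorem prod_dvd_iff (T : Finset ℕ) (hT : ∀ p ∈ T, p.Prime) (x : ℤ) :
    (∀ p ∈ T, (p : ℤ) ∣ x) ↔ ((∏ p ∈ T, p : ℕ) : ℤ) ∣ x := by
  constructor
  · intro h
    rw [Int.natCast_dvd]
    apply Finset.prod_primes_dvd
    · intro p hp
      exact (hT p hp).prime
    · intro p hp
      exact Int.natCast_dvd.1 (h p hp)
  · intro h p hp
    exact dvd_trans (by exact_mod_cast dvd_prod_of_mem (fun p : ℕ => p) hp) h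

theorem shift_sum (c : ℝ) (hc : 0 ≤ c) (P : Finset ℕ) (hP : ∀ p ∈ P, p.Prime) (M : ℕ) (m : ℤ) :
    ∑ s ∈ Icc 1 M, ∏ p ∈ P, (1 + (if (p : ℤ) ∣ m - (s : ℤ) then c / (p : ℝ) else 0)) ≤
      M * ∏ p ∈ P, (1 + c / (p : ℝ) ^ 2) + ∏ p ∈ P, (1 + c / (p : ℝ)) := by
  have h1 : ∀ s : ℕ, ∏ p ∈ P, (1 + (if (p : ℤ) ∣ m - (s : ℤ) then c / (p : ℝ) else 0)) =
      ∑ T ∈ P.powerset, (if ∀ p ∈ T, (p : ℤ) ∣ m - (s : ℤ) then ∏ p ∈ T, c / (p : ℝ) else 0) := by
    intro s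
    rw [prod_one_add]
    apply sum_congr rfl
    intro T _
    split_ifs with h
    · apply prod_congr rfl
      intro p hp
      rw [if_pos (h p hp)]
    · push Not at h
      obtain ⟨p, hp, hd⟩ := h
      apply prod_eq_zero hp
      rw [if_neg hd]
  have h2 : ∑ s ∈ Icc 1 M, ∏ p ∈ P, (1 + (if (p : ℤ) ∣ m - (s : ℤ) then c / (p : ℝ) else 0)) =
      ∑ T ∈ P.powerset, (∏ p ∈ T, c / (p : ℝ)) *
        (((Icc 1 M).filter (fun s : ℕ => ((∏ p ∈ T, p : ℕ) : ℤ) ∣ m - s)).card : ℝ) := by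
    rw [sum_congr rfl (fun s _ => h1 s), sum_comm]
    apply sum_congr rfl
    intro T hT
    have hTp : ∀ p ∈ T, p.Prime := fun p hp => hP p (mem_powerset.1 hT hp)
    rw [← sum_filter, sum_const, nsmul_eq_mul, mul_comm]
    congr 3
    apply filter_congr
    intro s _
    exact prod_dvd_iff T hTp _
  rw [h2, prod_one_add, prod_one_add, mul_sum, ← sum_add_distrib]
  apply sum_le_sum
  intro T hT
  have hTp : ∀ p ∈ T, p.Prime := fun p hp => hP p (mem_powerset.1 hT hp)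
  have hpos : 0 < ∏ p ∈ T, p := prod_pos fun p hp => (hTp p hp).pos
  have h3 := count_dvd M (∏ p ∈ T, p) hpos m
  have h4 : 0 ≤ ∏ p ∈ T, c / (p : ℝ) := prod_nonneg fun p _ => by positivity
  have h5 : ∏ p ∈ T, c / (p : ℝ) ^ 2 = (∏ p ∈ T, c / (p : ℝ)) / ((∏ p ∈ T, p : ℕ) : ℝ) := by
    push_cast
    rw [← prod_div_distrib]
    apply prod_congr rfl
    intro p _
    rw [div_div, sq]
  calc (∏ p ∈ T, c / (p : ℝ)) *
        (((Icc 1 M).filter (fun s : ℕ => ((∏ p ∈ T, p : ℕ) : ℤ) ∣ m - s)).card : ℝ) ≤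
      (∏ p ∈ T, c / (p : ℝ)) * ((M : ℝ) / ((∏ p ∈ T, p : ℕ) : ℝ) + 1) := by gcongr
    _ = _ := by rw [h5]; ring

theorem sum_inv_sq (P : Finset ℕ) (hP : ∀ p ∈ P, p.Prime) : ∑ p ∈ P, 1 / (p : ℝ) ^ 2 ≤ 1 := by
  obtain ⟨N, hN⟩ : ∃ N : ℕ, ∀ p ∈ P, p ≤ N := ⟨P.sup id, fun p hp => le_sup (f := id) hp⟩
  have h1 : P ⊆ Ioc 1 (N + 1) := by
    intro p hp
    rw [mem_Ioc]
    exact ⟨(hP p hp).one_lt, (hN p hp).trans (Nat.le_succ N)⟩
  calc ∑ p ∈ P, 1 / (p : ℝ) ^ 2 ≤ ∑ p ∈ Ioc 1 (N + 1), 1 / (p : ℝ) ^ 2 :=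
        sum_le_sum_of_subset_of_nonneg h1 (fun p _ _ => by positivity)
    _ = ∑ p ∈ Ioc 1 (N + 1), ((p : ℝ) ^ 2)⁻¹ := by simp only [one_div]
    _ ≤ ((1 : ℕ) : ℝ)⁻¹ - ((N + 1 : ℕ) : ℝ)⁻¹ :=
        sum_Ioc_inv_sq_le_sub (α := ℝ) (by norm_num) (by omega)
    _ ≤ 1 := by
        have : (0 : ℝ) ≤ ((N + 1 : ℕ) : ℝ)⁻¹ := by positivity
        simp only [Nat.cast_one, inv_one]
        linarith

/-- the factor lost at a point because of the primes whose tuple classes contain it -/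
noncomputable def GG {K : ℕ} (τ : Fin K → ℤ) (P : Finset ℕ) (z : ℤ) : ℝ :=
  ∏ p ∈ P, (if ∃ j, (p : ℤ) ∣ z - τ j then 1 + 2 / (p : ℝ) else 1)

theorem GG_one {K : ℕ} (τ : Fin K → ℤ) (P : Finset ℕ) (z : ℤ) : 1 ≤ GG τ P z := by
  unfold GG
  apply one_le_prodR
  intro p _
  split_ifs
  · have : (0 : ℝ) ≤ 2 / (p : ℝ) := by positivity
    linarith
  · exact le_rfl

theorem GG_le {K : ℕ} (τ : Fin K → ℤ) (P : Finset ℕ) (hP : ∀ p ∈ P, p.Prime) (z : ℤ) :
    GG τ P z ≤ 1 + ∑ j : Fin K, ∏ p ∈ P,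
      (1 + (if (p : ℤ) ∣ z - τ j then (2 : ℝ) ^ (K + 1) / (p : ℝ) else 0)) := by
  classical
  -- single factors
  set F : Fin K → ℝ := fun j => ∏ p ∈ P, (if (p : ℤ) ∣ z - τ j then 1 + 2 / (p : ℝ) else 1) with hF
  have hF1 : ∀ j, 1 ≤ F j := by
    intro j
    apply one_le_prodR
    intro p _
    split_ifs
    · have : (0 : ℝ) ≤ 2 / (p : ℝ) := by positivity
      linarith
    · exact le_rfl
  have h1 : GG τ P z ≤ ∏ j : Fin K, F j := by
    rw [hF]
    simp only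
    rw [prod_comm]
    unfold GG
    apply prod_le_prod
    · intro p _
      split_ifs <;> positivity
    · intro p _
      split_ifs with h
      · obtain ⟨j, hj⟩ := h
        have h4 := Finset.mul_prod_erase univ
          (fun i : Fin K => if (p : ℤ) ∣ z - τ i then 1 + 2 / (p : ℝ) else 1) (mem_univ j)
        rw [← h4]
        simp only [if_pos hj]
        apply le_mul_of_one_le_right
        · positivity
        · apply one_le_prodR
          intro i _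
          split_ifs
          · have : (0 : ℝ) ≤ 2 / (p : ℝ) := by positivity
            linarith
          · exact le_rfl
      · apply one_le_prodR
        intro i _
        split_ifs
        · have : (0 : ℝ) ≤ 2 / (p : ℝ) := by positivity
          linarith
        · exact le_rfl
  have h2 : ∏ j : Fin K, F j ≤ 1 + ∑ j : Fin K, (F j) ^ K := by
    rcases Nat.eq_zero_or_pos K with hK | hK
    · subst hK
      simp
    · have : Nonempty (Fin K) := ⟨⟨0, hK⟩⟩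
      obtain ⟨j₀, -, hj₀⟩ := Finset.exists_max_image univ F ⟨⟨0, hK⟩, mem_univ _⟩
      have h3 : ∏ j : Fin K, F j ≤ ∏ j : Fin K, F j₀ :=
        prod_le_prod (fun j _ => (zero_le_one.trans (hF1 j))) (fun j hj => hj₀ j hj)
      rw [prod_const, card_univ, Fintype.card_fin] at h3
      have h4 : (F j₀) ^ K ≤ ∑ j : Fin K, (F j) ^ K :=
        single_le_sum (f := fun j => (F j) ^ K)
          (fun j _ => pow_nonneg (zero_le_one.trans (hF1 j)) K) (mem_univ j₀)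
      linarith
  refine h1.trans (h2.trans ?_)
  have h5 : ∀ j, (F j) ^ K ≤ ∏ p ∈ P,
      (1 + (if (p : ℤ) ∣ z - τ j then (2 : ℝ) ^ (K + 1) / (p : ℝ) else 0)) := by
    intro j
    rw [hF]
    simp only
    rw [← prod_pow]
    apply prod_le_prod
    · intro p _
      split_ifs <;> positivity
    · intro p hp
      have hp2 : (2 : ℝ) ≤ p := by exact_mod_cast (hP p hp).two_le
      split_ifs
      · have hx0 : 0 ≤ 2 / (p : ℝ) := by positivity
        have hx1 : 2 / (p : ℝ) ≤ 1 := by rw [div_le_one (by linarith)]; exact hp2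
        have key : ∀ (n : ℕ) (x : ℝ), 0 ≤ x → x ≤ 1 → (1 + x) ^ n ≤ 1 + (2 ^ n - 1) * x := by
          intro n x h0 h1
          induction n with
          | zero => simp
          | succ n ih =>
            have e1 : (1 : ℝ) ≤ 2 ^ n := one_le_pow₀ (by norm_num)
            calc (1 + x) ^ (n + 1) = (1 + x) ^ n * (1 + x) := pow_succ _ _
              _ ≤ (1 + (2 ^ n - 1) * x) * (1 + x) := by gcongr
              _ = 1 + 2 ^ n * x + (2 ^ n - 1) * (x * x) := by ring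
              _ ≤ 1 + 2 ^ n * x + (2 ^ n - 1) * (1 * x) := by
                have : 0 ≤ (2 : ℝ) ^ n - 1 := by linarith
                gcongr
              _ = _ := by ring
        refine (key K _ hx0 hx1).trans ?_
        have e2 : ((2 : ℝ) ^ K - 1) * (2 / p) ≤ 2 ^ K * (2 / p) := by gcongr; linarith
        have e3 : (2 : ℝ) ^ K * (2 / p) = 2 ^ (K + 1) / p := by rw [pow_succ]; ring
        linarith
      · rw [one_pow, add_zero]
  have h6 : ∑ j : Fin K, (F j) ^ K ≤ ∑ j : Fin K, ∏ p ∈ P,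
      (1 + (if (p : ℤ) ∣ z - τ j then (2 : ℝ) ^ (K + 1) / (p : ℝ) else 0)) :=
    sum_le_sum fun j _ => h5 j
  linarith

/-- the average of `GG` over the shifts -/
theorem GG_avg (K : ℕ) : ∃ C : ℝ, 1 ≤ C ∧ ∀ (τ : Fin K → ℤ) (P : Finset ℕ),
    (∀ p ∈ P, p.Prime) → ∀ (M : ℕ) (m : ℤ), C ^ P.card ≤ M →
    ∑ s ∈ Icc 1 M, GG τ P (m - (s : ℤ)) ≤ C * M := by
  set c : ℝ := 2 ^ (K + 1) with hc
  have hc0 : 0 < c := by positivity
  have hc1 : 1 ≤ c := one_le_pow₀ (by norm_num)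
  set C : ℝ := 1 + c + K * (Real.exp c + 1) with hC
  have hK0 : (0 : ℝ) ≤ K := Nat.cast_nonneg K
  have hC1 : 1 ≤ C := by
    have : 0 ≤ (K : ℝ) * (Real.exp c + 1) := by positivity
    rw [hC]; linarith
  refine ⟨C, hC1, fun τ P hP M m hM => ?_⟩
  have hM0 : (0 : ℝ) ≤ M := Nat.cast_nonneg M
  have h1 : ∑ s ∈ Icc 1 M, GG τ P (m - (s : ℤ)) ≤ ∑ s ∈ Icc 1 M, (1 + ∑ j : Fin K, ∏ p ∈ P,
      (1 + (if (p : ℤ) ∣ m - (s : ℤ) - τ j then c / (p : ℝ) else 0))) :=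
    sum_le_sum fun s _ => GG_le τ P hP _
  refine h1.trans ?_
  rw [sum_add_distrib, sum_const, Nat.card_Icc, nsmul_eq_mul, mul_one, sum_comm]
  have h2 : ∀ j : Fin K, ∑ s ∈ Icc 1 M, ∏ p ∈ P,
      (1 + (if (p : ℤ) ∣ m - (s : ℤ) - τ j then c / (p : ℝ) else 0)) ≤ (Real.exp c + 1) * M := by
    intro j
    have h3 := shift_sum c hc0.le P hP M (m - τ j)
    have h4 : ∑ s ∈ Icc 1 M, ∏ p ∈ P,
        (1 + (if (p : ℤ) ∣ m - (s : ℤ) - τ j then c / (p : ℝ) else 0)) =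
        ∑ s ∈ Icc 1 M, ∏ p ∈ P,
        (1 + (if (p : ℤ) ∣ m - τ j - (s : ℤ) then c / (p : ℝ) else 0)) := by
      apply sum_congr rfl
      intro s _
      rw [show m - (s : ℤ) - τ j = m - τ j - (s : ℤ) by ring]
    rw [h4]
    refine h3.trans ?_
    have h5 : ∏ p ∈ P, (1 + c / (p : ℝ) ^ 2) ≤ Real.exp c := by
      calc ∏ p ∈ P, (1 + c / (p : ℝ) ^ 2) ≤ ∏ p ∈ P, Real.exp (c * (1 / (p : ℝ) ^ 2)) := by
            apply prod_le_prod
            · intro p _; positivity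
            · intro p _
              have := Real.add_one_le_exp (c * (1 / (p : ℝ) ^ 2))
              have e : c * (1 / (p : ℝ) ^ 2) = c / (p : ℝ) ^ 2 := by ring
              rw [e] at this ⊢
              linarith
        _ = Real.exp (c * ∑ p ∈ P, 1 / (p : ℝ) ^ 2) := by rw [← Real.exp_sum, mul_sum]
        _ ≤ Real.exp c := by
            apply Real.exp_le_exp.2
            have := sum_inv_sq P hP
            calc c * ∑ p ∈ P, 1 / (p : ℝ) ^ 2 ≤ c * 1 := by gcongr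
              _ = c := mul_one c
    have h6 : ∏ p ∈ P, (1 + c / (p : ℝ)) ≤ M := by
      refine le_trans ?_ hM
      rw [← prod_const]
      apply prod_le_prod
      · intro p _; positivity
      · intro p hp
        have hp1 : (1 : ℝ) ≤ p := by exact_mod_cast (hP p hp).one_le
        have : c / (p : ℝ) ≤ c := div_le_self hc0.le hp1
        have : 0 ≤ (K : ℝ) * (Real.exp c + 1) := by positivity
        rw [hC]; linarith
    calc (M : ℝ) * ∏ p ∈ P, (1 + c / (p : ℝ) ^ 2) + ∏ p ∈ P, (1 + c / (p : ℝ)) ≤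
        M * Real.exp c + M := by gcongr
      _ = _ := by ring
  have h7 : ∑ j : Fin K, ∑ s ∈ Icc 1 M, ∏ p ∈ P,
      (1 + (if (p : ℤ) ∣ m - (s : ℤ) - τ j then c / (p : ℝ) else 0)) ≤
      K * ((Real.exp c + 1) * M) := by
    refine (sum_le_sum fun j _ => h2 j).trans ?_
    rw [sum_const, card_univ, Fintype.card_fin, nsmul_eq_mul]
  have h8 : ((M + 1 - 1 : ℕ) : ℝ) = M := by simp
  rw [h8]
  calc (M : ℝ) + ∑ j : Fin K, ∑ s ∈ Icc 1 M, ∏ p ∈ P,
      (1 + (if (p : ℤ) ∣ m - (s : ℤ) - τ j then c / (p : ℝ) else 0)) ≤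
      M + K * ((Real.exp c + 1) * M) := by linarith
    _ = (1 + K * (Real.exp c + 1)) * M := by ring
    _ ≤ C * M := by
      apply mul_le_mul_of_nonneg_right _ hM0
      rw [hC]; linarith

end Pool.Agent.H80.Pc
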