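import Pool.Agent.H80.Pc.CovT

set_option autoImplicit false
set_option maxHeartbeats 4000000

/-! # The clusters: the final step (helper80) -/

namespace Pool.Agent.H80.Pc

open Finset Filter
open Pool.Agent.H378R2 (GoodS GoodP yy PW z2 mem_PW WW WW_pos WW_le)
open Pool.Agent.H312R2.RG (not_dvd_diff BVat)
open Pool.Agent.H256R2.SC (ff)
open Pool.Agent.H362R2.RQ (fib)
open Pool.Agent.TH101.RG (engine weightsT weightsG spare exists_good)

open scoped Classical

/-- many prime factors -/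
theorem manyP (m j : ℕ) (P : Finset ℕ) (hP : ∀ p ∈ P, p.Prime ∧ p ∣ m) (hj : P.card = j)
    (hm : ((∏ p ∈ P, p : ℕ) : ℝ) < m) (hm0 : m ≠ 0) :
    j + 1 ≤ m.primeFactorsList.length := by
  have h1 : (∏ p ∈ P, p) ∣ m := by
    apply Finset.prod_primes_dvd
    · intro p hp
      exact (hP p hp).1.prime
    · intro p hp
      exact (hP p hp).2
  obtain ⟨k, hk⟩ := h1
  have hk0 : k ≠ 0 := by rintro rfl; simp at hk; exact hm0 hk
  have hQ0 : (∏ p ∈ P, p) ≠ 0 := prod_ne_zero_iff.2 fun p hp => (hP p hp).1.ne_zero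
  have hk1 : k ≠ 1 := by
    rintro rfl
    rw [mul_one] at hk
    rw [← hk] at hm
    exact lt_irrefl _ hm
  have h4 : m.primeFactorsList.length = ArithmeticFunction.cardFactors m := by
    rw [ArithmeticFunction.cardFactors_apply]
  have h6 : ∀ R : Finset ℕ, R ⊆ P → ArithmeticFunction.cardFactors (∏ p ∈ R, p) = R.card := by
    intro R
    induction R using Finset.induction_on with
    | empty => intro _; simp
    | insert a R ha ih =>
      intro hR
      have haP := (hP a (hR (mem_insert_self a R))).1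
      have h0 : (∏ p ∈ R, p) ≠ 0 := prod_ne_zero_iff.2 fun p hp =>
        (hP p (hR (mem_insert_of_mem hp))).1.ne_zero
      rw [prod_insert ha, ArithmeticFunction.cardFactors_mul haP.ne_zero h0,
        ArithmeticFunction.cardFactors_apply_prime haP,
        ih ((subset_insert a R).trans hR), card_insert_of_notMem ha]
      omega
  rw [h4, hk, ArithmeticFunction.cardFactors_mul hQ0 hk0, h6 P (Subset.refl _), hj]
  have h5 : 1 ≤ ArithmeticFunction.cardFactors k := by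
    rw [Nat.one_le_iff_ne_zero]
    intro h
    rw [ArithmeticFunction.cardFactors_eq_zero_iff_eq_zero_or_one] at h
    rcases h with h | h
    · exact hk0 h
    · exact hk1 h
  omega

theorem bx_card (K T₀ : ℕ) (c₃ : ℝ) (hc₃ : 0 < c₃) : ∀ᶠ X : ℝ in atTop,
    ∀ (ps : ℕ) (U : Finset ℕ) (b' : ℤ) (t : Fin K → ℕ), (∀ j, t j ≤ T₀) →
    |(b' : ℝ)| ≤ (Real.log X) ^ 2 → (U.card : ℝ) ≤ c₃ * Real.log X →
    (∀ s ∈ U, (s : ℝ) ≤ (Real.log X) ^ 2 ∧ ∀ j, b' + s ≠ t j) →
    2 * ((insert ps (U.biUnion (fun s : ℕ =>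
    (univ : Finset (Fin K)).biUnion (fun j => ((t j : ℤ) - (b' + s)).natAbs.primeFactors)))).card : ℝ) ≤
      (Real.log X) ^ 4 := by
  have t1 := Real.tendsto_log_atTop
  filter_upwards [t1.eventually_ge_atTop (100 + T₀ + 4 * c₃ * K), eventually_gt_atTop 0]
    with X hL hX0
  intro ps U b' t ht hb' hUc hUk
  set L := Real.log X with hLd
  have hK0 : (0 : ℝ) ≤ K := Nat.cast_nonneg K
  have hT0 : (0 : ℝ) ≤ T₀ := Nat.cast_nonneg T₀
  have hcK : 0 ≤ 4 * c₃ * (K : ℝ) := by positivity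
  have hL100 : 100 + T₀ ≤ L := by linarith
  have hL0 : 0 < L := by linarith
  have hne : ∀ k ∈ U, ∀ j, (t j : ℤ) - (b' + (k : ℕ)) ≠ 0 := by
    intro k hk j h0
    exact (hUk k hk).2 j (by linarith)
  have h8 : 4 * L ^ 2 ≤ X := by
    have h10 := Real.exp_log hX0
    have h11 : L ^ 4 / 24 ≤ Real.exp L := by
      have := Real.pow_div_factorial_le_exp L hL0.le 4
      simpa [Nat.factorial] using this
    have h12 : 96 * L ^ 2 ≤ L ^ 4 := by
      have h13 : (96 : ℝ) ≤ L ^ 2 := by nlinarith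
      calc 96 * L ^ 2 ≤ L ^ 2 * L ^ 2 := mul_le_mul_of_nonneg_right h13 (by positivity)
        _ = L ^ 4 := by ring
    rw [← hLd] at h10
    linarith
  set Bx := insert ps (U.biUnion (fun s : ℕ =>
    (univ : Finset (Fin K)).biUnion (fun j => ((t j : ℤ) - (b' + s)).natAbs.primeFactors))) with hBx
  have h1 : (Bx.card : ℝ) ≤
      ∑ k ∈ U, ∑ j : Fin K, (((t j : ℤ) - (b' + (k : ℕ))).natAbs.primeFactors.card : ℝ) + 1 := by
    have h2 : Bx.card ≤
        ∑ k ∈ U, ∑ j : Fin K, ((t j : ℤ) - (b' + (k : ℕ))).natAbs.primeFactors.card + 1 := by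
      rw [hBx]
      refine (card_insert_le _ _).trans ?_
      apply Nat.add_le_add_right
      refine card_biUnion_le.trans (sum_le_sum fun k _ => card_biUnion_le)
    exact_mod_cast h2
  have h3 : ∀ k ∈ U, ∀ j : Fin K, (((t j : ℤ) - (b' + (k : ℕ))).natAbs.primeFactors.card : ℝ) ≤
      2 * L := by
    intro k hk j
    obtain ⟨hk1, -⟩ := hUk k hk
    have hk2 := hne k hk j
    refine (Pool.Agent.H398R2.RK.card_primeFactors_le _ (Int.natAbs_pos.2 hk2)).trans ?_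
    apply mul_le_mul_of_nonneg_left _ (by norm_num)
    have h4 : ((((t j : ℤ) - (b' + (k : ℕ))).natAbs : ℕ) : ℝ) ≤ X := by
      have h5 : ((((t j : ℤ) - (b' + (k : ℕ))).natAbs : ℕ) : ℝ) =
          |(((t j : ℤ) - (b' + (k : ℕ)) : ℤ) : ℝ)| := by
        rw [Nat.cast_natAbs, Int.cast_abs]
      rw [h5]
      push_cast
      have h6 : (t j : ℝ) ≤ T₀ := by exact_mod_cast ht j
      have h7 : (0 : ℝ) ≤ t j := Nat.cast_nonneg _
      have h9 : (0 : ℝ) ≤ k := Nat.cast_nonneg _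
      rw [abs_le] at hb' ⊢
      have h10 : (T₀ : ℝ) ≤ L ^ 2 := by nlinarith
      constructor <;> nlinarith
    exact Real.log_le_log (by exact_mod_cast Int.natAbs_pos.2 hk2) h4
  have h4 : ∑ k ∈ U, ∑ j : Fin K, (((t j : ℤ) - (b' + (k : ℕ))).natAbs.primeFactors.card : ℝ) ≤
      (c₃ * L) * (K * (2 * L)) := by
    have h5 : ∀ k ∈ U, ∑ j : Fin K, (((t j : ℤ) - (b' + (k : ℕ))).natAbs.primeFactors.card : ℝ) ≤
        K * (2 * L) := by
      intro k hk
      refine (sum_le_card_nsmul _ _ _ fun j _ => h3 k hk j).trans ?_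
      rw [nsmul_eq_mul, card_univ, Fintype.card_fin]
    refine (sum_le_card_nsmul U _ _ h5).trans ?_
    rw [nsmul_eq_mul]
    exact mul_le_mul_of_nonneg_right hUc (by positivity)
  have h5 : 2 + 4 * c₃ * K * L ^ 2 ≤ L ^ 4 := by
    have h6 : 1 ≤ L := by linarith
    have e1 : (1 : ℝ) ≤ L ^ 2 := one_le_pow₀ h6
    calc 2 + 4 * c₃ * K * L ^ 2 ≤ (100 + 4 * c₃ * K) * L ^ 2 := by nlinarith
      _ ≤ L * L ^ 2 := by
          apply mul_le_mul_of_nonneg_right _ (by positivity)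
          linarith
      _ = L ^ 3 := by ring
      _ ≤ L ^ 4 := pow_le_pow_right₀ h6 (by norm_num)
  have h6 : 2 * (Bx.card : ℝ) ≤ 2 * ((c₃ * L) * (K * (2 * L)) + 1) := by linarith
  refine h6.trans (le_trans (le_of_eq ?_) h5)
  ring

/-- numerical facts at the end -/
theorem fin_evT (k : ℕ) : ∀ᶠ X : ℝ in atTop, (Real.log X) ^ k * X ^ (1 / 1000 : ℝ) < X / 2 ∧
    1 ≤ Real.log X ∧ 1 ≤ X ^ (1 / 1000 : ℝ) := by
  have h1 := (isLittleO_log_rpow_rpow_atTop (k : ℝ) (show (0 : ℝ) < 1 / 1000 by norm_num)).bound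
    (show (0 : ℝ) < 1 by norm_num)
  have t1 := Real.tendsto_log_atTop
  have h2 := (tendsto_rpow_atTop (show (0 : ℝ) < 998 / 1000 by norm_num)).eventually_gt_atTop 2
  filter_upwards [h1, h2, t1.eventually_ge_atTop 1, eventually_ge_atTop 1] with X a1 a2 a3 a4
  have hX0 : 0 < X := by linarith
  have hL0 : 0 ≤ Real.log X := by linarith
  refine ⟨?_, a3, Real.one_le_rpow a4 (by norm_num)⟩
  rw [Real.norm_of_nonneg (by positivity), Real.norm_of_nonneg (by positivity), one_mul,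
    Real.rpow_natCast] at a1
  have h3 : X = X ^ (1 / 1000 : ℝ) * X ^ (1 / 1000 : ℝ) * X ^ (998 / 1000 : ℝ) := by
    rw [← Real.rpow_add hX0, ← Real.rpow_add hX0]
    norm_num
  have h4 : 0 < X ^ (1 / 1000 : ℝ) := by positivity
  have h5 : (Real.log X) ^ k * X ^ (1 / 1000 : ℝ) ≤ X ^ (1 / 1000 : ℝ) * X ^ (1 / 1000 : ℝ) := by
    gcongr
  have h6 : 0 < X ^ (1 / 1000 : ℝ) * X ^ (1 / 1000 : ℝ) := by positivity
  nlinarith

/-- the conclusion at a point -/
theorem concl (X : ℝ) (k : ℕ) (h : (Real.log X) ^ k * X ^ (1 / 1000 : ℝ) < X / 2)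
    (hL : 1 ≤ Real.log X) (hX : 1 ≤ X ^ (1 / 1000 : ℝ)) (n r W : ℕ) (hn : X < n)
    (hnr : n ≡ r [MOD W]) (i : ℕ) (hi1 : 1 ≤ i) (hik : i ≤ k) (z : ℤ) (hz : |(z : ℝ)| ≤ X / 2)
    (H : ((∃ q : ℕ, q.Prime ∧ (yy X : ℝ) < q ∧ (q : ℝ) ≤ X ^ (1 / 1000 : ℝ) ∧ (q : ℤ) ∣ n + z) ∧
        ∃ P : Finset ℕ, P.card + 1 = i ∧ ∀ p ∈ P, p.Prime ∧ p ≤ yy X ∧
          ∀ n : ℕ, n ≡ r [MOD W] → (p : ℤ) ∣ n + z) ∨
        (∃ P : Finset ℕ, P.card = i ∧ ∀ p ∈ P, p.Prime ∧ p ≤ yy X ∧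
          ∀ n : ℕ, n ≡ r [MOD W] → (p : ℤ) ∣ n + z)) :
    ∃ N : ℕ, (N : ℤ) = n + z ∧ i + 1 ≤ N.primeFactorsList.length := by
  have hL0 : 0 < Real.log X := by linarith
  have hX0 : 0 < X := by
    have : 0 ≤ (Real.log X) ^ k * X ^ (1 / 1000 : ℝ) := by positivity
    linarith
  rw [abs_le] at hz
  have h1 : X / 2 < ((n + z : ℤ) : ℝ) := by push_cast; linarith
  have h2 : 0 < (n + z : ℤ) := by
    have : (0 : ℝ) < ((n + z : ℤ) : ℝ) := by linarith
    exact_mod_cast this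
  obtain ⟨N, hN⟩ := Int.eq_ofNat_of_zero_le h2.le
  refine ⟨N, hN.symm, ?_⟩
  have hNX : X / 2 < (N : ℝ) := by
    rw [hN] at h1
    exact_mod_cast h1
  have hN0 : N ≠ 0 := by
    rintro rfl
    simp at hNX
    linarith
  have hyy : (yy X : ℝ) ≤ Real.log X := by
    have h3 : (yy X : ℝ) ≤ Real.log X / 1000 := Nat.floor_le (by positivity)
    linarith
  have hprod : ∀ P : Finset ℕ, P.card ≤ k → (∀ p ∈ P, p ≤ yy X) →
      ((∏ p ∈ P, p : ℕ) : ℝ) ≤ (Real.log X) ^ k := by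
    intro P hPk hP
    push_cast
    calc ∏ p ∈ P, (p : ℝ) ≤ ∏ p ∈ P, Real.log X := by
          apply prod_le_prod (fun p _ => Nat.cast_nonneg p)
          intro p hp
          have : (p : ℝ) ≤ yy X := by exact_mod_cast hP p hp
          linarith
      _ = (Real.log X) ^ P.card := prod_const _
      _ ≤ (Real.log X) ^ k := pow_le_pow_right₀ hL hPk
  have hdvd : ∀ p : ℕ, (p : ℤ) ∣ n + z → p ∣ N := by
    intro p hp
    rw [hN] at hp
    exact_mod_cast hp
  have hpos : 0 ≤ (Real.log X) ^ k := by positivity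
  rcases H with ⟨⟨q, hq1, hq2, hq3, hq4⟩, P, hPc, hP⟩ | ⟨P, hPc, hP⟩
  · have hqP : q ∉ P := by
      intro hqP
      have h3 := (hP q hqP).2.1
      have h4 : (q : ℝ) ≤ yy X := by exact_mod_cast h3
      linarith
    apply manyP N i (insert q P)
    · intro p hp
      rcases mem_insert.1 hp with rfl | hp
      · exact ⟨hq1, hdvd p hq4⟩
      · exact ⟨(hP p hp).1, hdvd p ((hP p hp).2.2 n hnr)⟩
    · rw [card_insert_of_notMem hqP]
      omega
    · rw [prod_insert hqP]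
      push_cast
      have h3 := hprod P (by omega) (fun p hp => (hP p hp).2.1)
      push_cast at h3
      have h5 : (0 : ℝ) ≤ ∏ p ∈ P, (p : ℝ) := prod_nonneg fun p _ => Nat.cast_nonneg p
      calc (q : ℝ) * ∏ p ∈ P, (p : ℝ) ≤ X ^ (1 / 1000 : ℝ) * (Real.log X) ^ k := by gcongr
        _ = (Real.log X) ^ k * X ^ (1 / 1000 : ℝ) := mul_comm _ _
        _ < N := by linarith
    · exact hN0
  · apply manyP N i P
    · intro p hp
      exact ⟨(hP p hp).1, hdvd p ((hP p hp).2.2 n hnr)⟩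
    · exact hPc
    · have h3 := hprod P (by omega) (fun p hp => (hP p hp).2.1)
      have h5 : (Real.log X) ^ k * 1 ≤ (Real.log X) ^ k * X ^ (1 / 1000 : ℝ) := by gcongr
      linarith
    · exact hN0

end Pool.Agent.H80.Pc
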