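import Pool.Agent.H80.Pc.Clu

set_option autoImplicit false
set_option maxHeartbeats 4000000

/-! # The clusters and the isolated primes (helper80) -/

namespace Pool.Agent.H80.Pc

open Finset Filter
open Pool.Agent.H378R2 (GoodS GoodP yy PW z2 mem_PW WW WW_pos WW_le bvrel_holds)
open Pool.Agent.H312R2.RG (not_dvd_diff BVat)
open Pool.Agent.H256R2.SC (ff)
open Pool.Agent.H362R2.RQ (fib)
open Pool.Agent.TH101.RG (engine weightsT weightsG spare exists_good)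

open scoped Classical

/-- clusters -/
theorem cluT : ∃ η : ℝ, 0 < η ∧ ∀ m : ℕ, 1 ≤ m → ∃ K : ℕ, m ≤ K ∧ ∀ (k T₀ : ℕ), 2 ≤ k →
    ∃ c : ℝ, 0 < c ∧ ∀ᶠ X : ℝ in atTop,
    ∀ t : Fin K → ℕ, Function.Injective t → (∀ j, t j ≤ T₀) →
    (∀ p : ℕ, p.Prime → ∃ v : ℕ, ∀ j, ¬ p ∣ v + t j) →
    ∀ col : Fin K → Fin m, (∀ e, K ≤ 2 * m * fib col e) →
    ∀ bad : Finset ℕ, (bad.card : ℝ) ≤ X ^ (9 / 10 : ℝ) →
    ∃ n : ℕ, X < n ∧ (n : ℝ) ≤ 3 * X ∧ n ∉ bad ∧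
      (∃ E : Finset (Fin m), η * m ≤ E.card ∧ ∀ e ∈ E, ∃ j, col j = e ∧ (n + t j).Prime) ∧
      ∀ i : ℕ, 1 ≤ i → i ≤ k → ∀ z : ℤ, |(z : ℝ)| ≤ c * RT X i → (∀ j, z ≠ t j) →
        ∃ N : ℕ, (N : ℤ) = n + z ∧ i + 1 ≤ N.primeFactorsList.length := by
  obtain ⟨η, hη, heng⟩ := engine
  refine ⟨η, hη, fun m hm => ?_⟩
  obtain ⟨K, hmK, hengK⟩ := heng m hm
  refine ⟨K, hmK, fun k T₀ hk => ?_⟩
  obtain ⟨A, c₃, hA4, hc₃, hw⟩ := weightsT K (K + 4)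
  obtain ⟨c, hc, hcov⟩ := covT k K T₀ hk (c₃ / 2) (by positivity)
  refine ⟨c, hc, ?_⟩
  obtain ⟨X1, hbv⟩ := bvrel_holds A 4
  have t1 := Real.tendsto_log_atTop
  filter_upwards [hw 4, hcov, hengK 4 le_rfl, eventually_ge_atTop X1, eventually_ge_atTop 4,
    t1.eventually_ge_atTop (2 / c₃), t1.eventually_ge_atTop (100 + K + T₀),
    bx_card K T₀ c₃ hc₃, fin_evT k]
    with X hwX hcovX hgX hX1 hX4 hL1 hL2 hbx hfin
  intro t htinj htT hadm col hcol bad hbad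
  obtain ⟨ps, S, hps, hS, hBV⟩ := hbv X hX1
  obtain ⟨r, b', U0, hr0, hU0c, hU0, hb', hmain⟩ := hcovX 4 ps S hps hS t htT hadm
  obtain ⟨fin1, fin2, fin3⟩ := hfin
  set L := Real.log X with hL
  have hK0 : (0 : ℝ) ≤ K := Nat.cast_nonneg K
  have hT0 : (0 : ℝ) ≤ T₀ := Nat.cast_nonneg T₀
  have hL100 : 100 + K ≤ L := by linarith
  have hL0 : 0 < L := by linarith
  have hX0 : 0 < X := by linarith
  -- the survivors
  obtain ⟨k₀, hk₀1, hk₀⟩ := spare K 1 b' t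
  set U : Finset ℕ := insert k₀ U0 with hU
  have hUne : U.Nonempty := ⟨k₀, by rw [hU]; exact mem_insert_self _ _⟩
  have hUk : ∀ s ∈ U, (s : ℝ) ≤ L ^ 2 ∧ ∀ j, b' + s ≠ t j := by
    intro s hs
    rw [hU, mem_insert] at hs
    rcases hs with rfl | hs
    · refine ⟨?_, fun j => by have := hk₀ j; rwa [one_mul] at this⟩
      have : (s : ℝ) ≤ K := by exact_mod_cast hk₀1
      nlinarith
    · exact hU0 s hs
  have hUc : (U.card : ℝ) ≤ c₃ * L := by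
    have h1 : (U.card : ℝ) ≤ U0.card + 1 := by
      rw [hU]
      exact_mod_cast card_insert_le k₀ U0
    rw [div_le_iff₀ hc₃] at hL1
    linarith
  have hne : ∀ s ∈ U, ∀ j, (t j : ℤ) - (b' + (s : ℕ)) ≠ 0 := by
    intro s hs j h0
    exact (hUk s hs).2 j (by linarith)
  have hBxc := hbx ps U b' t htT hb' hUc hUk
  set Bx : Finset ℕ := insert ps (U.biUnion (fun s : ℕ =>
    (univ : Finset (Fin K)).biUnion (fun j => ((t j : ℤ) - (b' + s)).natAbs.primeFactors))) with hBx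
  obtain ⟨PP, hPP, hres⟩ := hwX ps S hps hBV t Bx U (by rw [hBx]; exact mem_insert_self _ _) hBxc hUne hUc
  have hPb : ∀ q ∈ PP, ∀ s ∈ U, ∀ j, ¬ (q : ℤ) ∣ (t j : ℤ) - (b' + (s : ℕ)) := by
    intro q hq s hs j hd
    apply (hPP q hq).2.2.2
    rw [hBx, mem_insert, mem_biUnion]
    right
    refine ⟨s, hs, ?_⟩
    rw [mem_biUnion]
    refine ⟨j, mem_univ _, ?_⟩
    rw [Nat.mem_primeFactors]
    exact ⟨(hPP q hq).1, Int.natCast_dvd.1 hd, Int.natAbs_ne_zero.2 (hne s hs j)⟩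
  have hLA : L ^ 2 ≤ L ^ A := pow_le_pow_right₀ (by linarith) (by omega)
  have hLA1 : L ≤ L ^ A := le_self_pow₀ (by linarith) (by omega)
  obtain ⟨V, T, Z₁, M, M', M₂, e₁, e₂, e₃, w1, w2, w3, w4, w5, w6, w7, w8, w9, we, w10, w11, w12, w13, w14, w15⟩ :=
    hres (fun _ s => -(b' + ((s : ℕ) : ℤ)))
    (by
      intro q hq s l hsl hd
      have h3 : (q : ℤ) ∣ ((l : ℕ) : ℤ) - ((s : ℕ) : ℤ) := by
        have h4 : ((l : ℕ) : ℤ) - ((s : ℕ) : ℤ) = -(b' + ((s : ℕ) : ℤ)) - -(b' + ((l : ℕ) : ℤ)) := by ring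
        rw [h4]
        exact hd
      exact not_dvd_diff (((hUk l l.2).1).trans hLA) (((hUk s s.2).1).trans hLA) (hPP q hq).2.1
        (fun h => hsl (Subtype.ext h.symm)) h3)
    (by
      intro q hq s j hd
      apply hPb q hq s s.2 j
      rwa [← sub_eq_add_neg] at hd)
  obtain ⟨n, hXn, hn3, hnb, hnr, hTn, E, hE1, hE2⟩ := hgX ps S hps hS t htinj (by
      intro j
      have h1 : (t j : ℝ) ≤ T₀ := by exact_mod_cast htT j
      nlinarith) r hr0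
    V T Z₁ M M' M₂ e₁ e₂ e₃ w1 w2 w4 w5 w6 w7 w8 w9 we w10 w11 w12 w13 w14 w15 col hcol bad hbad
  refine ⟨n, hXn, hn3, hnb, ⟨E, hE1, hE2⟩, fun i hi1 hik z hz hzt => ?_⟩
  obtain ⟨z1, z2⟩ := hmain i hi1 hik z hz hzt
  refine concl X k fin1 fin2 fin3 n r _ hXn hnr i hi1 hik z z1 ?_
  rcases z2 with ⟨⟨s, hs, hzs⟩, hP⟩ | hP
  · left
    refine ⟨?_, hP⟩
    have hsU : s ∈ U := by rw [hU]; exact mem_insert_of_mem hs
    obtain ⟨q, hq, hqd⟩ := w3 n hTn ⟨s, hsU⟩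
    refine ⟨q, (hPP q hq).1, ?_, (hPP q hq).2.2.1, ?_⟩
    · have h2 : (yy X : ℝ) ≤ L / 1000 := Nat.floor_le (by positivity)
      have h3 := (hPP q hq).2.1
      linarith
    · have h2 : (n : ℤ) - -(b' + ((s : ℕ) : ℤ)) = n + z := by rw [hzs]; ring
      rw [← h2]
      exact hqd
  · right
    exact hP

/-- isolated primes -/
theorem isoT (k : ℕ) (hk : 2 ≤ k) :
    ∃ c : ℝ, 0 < c ∧ ∀ᶠ X : ℝ in atTop,
    ∀ bad : Finset ℕ, (bad.card : ℝ) ≤ X ^ (9 / 10 : ℝ) →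
    ∃ n : ℕ, X < n ∧ (n : ℝ) ≤ 3 * X ∧ n ∉ bad ∧ n.Prime ∧
      ∀ i : ℕ, 1 ≤ i → i ≤ k → ∀ z : ℤ, |(z : ℝ)| ≤ c * RT X i → z ≠ 0 →
        ∃ N : ℕ, (N : ℤ) = n + z ∧ i + 1 ≤ N.primeFactorsList.length := by
  obtain ⟨A, c₃, hA4, hc₃, hw⟩ := weightsG 3
  obtain ⟨c, hc, hcov⟩ := covT k 1 0 hk (c₃ / 2) (by positivity)
  refine ⟨c, hc, ?_⟩
  obtain ⟨X1, hbv⟩ := bvrel_holds A 4
  have t1 := Real.tendsto_log_atTop
  filter_upwards [hw 4, hcov, exists_good, eventually_ge_atTop X1, eventually_ge_atTop 4,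
    t1.eventually_ge_atTop (2 / c₃), t1.eventually_ge_atTop 101,
    bx_card 1 0 c₃ hc₃, fin_evT k]
    with X hwX hcovX hgX hX1 hX4 hL1 hL2 hbx hfin
  intro bad hbad
  obtain ⟨ps, S, hps, hS, hBV⟩ := hbv X hX1
  obtain ⟨r, b', U0, hr0, hU0c, hU0, hb', hmain⟩ := hcovX 4 ps S hps hS (fun _ => 0) (fun _ => le_rfl)
    (fun p hp => ⟨1, fun _ => by
      rw [add_zero]
      exact fun h => hp.one_lt.ne' (Nat.dvd_one.1 h)⟩)
  obtain ⟨fin1, fin2, fin3⟩ := hfin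
  have hr : r.Coprime (WW X S ps) := by simpa using hr0 0
  set L := Real.log X with hL
  have hL0 : 0 < L := by linarith
  have hX0 : 0 < X := by linarith
  -- the survivors
  obtain ⟨k₀, hk₀1, hk₀⟩ := spare 1 1 b' (fun _ => 0)
  set U : Finset ℕ := insert k₀ U0 with hU
  have hUne : U.Nonempty := ⟨k₀, by rw [hU]; exact mem_insert_self _ _⟩
  have hUk : ∀ s ∈ U, (s : ℝ) ≤ L ^ 2 ∧ ∀ j : Fin 1, b' + s ≠ (((fun _ => 0) : Fin 1 → ℕ) j : ℕ) := by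
    intro s hs
    rw [hU, mem_insert] at hs
    rcases hs with rfl | hs
    · refine ⟨?_, fun j => by have := hk₀ j; rwa [one_mul] at this⟩
      have : (s : ℝ) ≤ 1 := by exact_mod_cast hk₀1
      nlinarith
    · exact hU0 s hs
  have hUc : (U.card : ℝ) ≤ c₃ * L := by
    have h1 : (U.card : ℝ) ≤ U0.card + 1 := by
      rw [hU]
      exact_mod_cast card_insert_le k₀ U0
    rw [div_le_iff₀ hc₃] at hL1
    linarith
  have hne : ∀ s ∈ U, ∀ j : Fin 1, ((((fun _ => 0) : Fin 1 → ℕ) j : ℕ) : ℤ) - (b' + (s : ℕ)) ≠ 0 := by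
    intro s hs j h0
    exact (hUk s hs).2 j (by linarith)
  have hBxc := hbx ps U b' (fun _ => 0) (fun _ => le_rfl) hb' hUc hUk
  set Bx : Finset ℕ := insert ps (U.biUnion (fun s : ℕ =>
    (univ : Finset (Fin 1)).biUnion (fun j => ((((fun _ => 0) : Fin 1 → ℕ) j : ℤ) -
      (b' + s)).natAbs.primeFactors))) with hBx
  obtain ⟨PP, hPP, hres⟩ := hwX ps S hps hBV Bx U (by rw [hBx]; exact mem_insert_self _ _) hBxc hUne hUc
  have hPb : ∀ q ∈ PP, ∀ s ∈ U, ¬ (q : ℤ) ∣ -(b' + (s : ℕ)) := by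
    intro q hq s hs hd
    apply (hPP q hq).2.2.2
    rw [hBx, mem_insert, mem_biUnion]
    right
    refine ⟨s, hs, ?_⟩
    rw [mem_biUnion]
    refine ⟨0, mem_univ _, ?_⟩
    rw [Nat.mem_primeFactors]
    refine ⟨(hPP q hq).1, Int.natCast_dvd.1 ?_, Int.natAbs_ne_zero.2 (hne s hs 0)⟩
    simpa using hd
  have hLA : L ^ 2 ≤ L ^ A := pow_le_pow_right₀ (by linarith) (by omega)
  have hLA1 : L ≤ L ^ A := le_self_pow₀ (by linarith) (by omega)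
  obtain ⟨V, T, Z₁, M, M', M₂, w1, w2, w3, w4, w5, w6, w7, w8, w9, w10, w11⟩ :=
    hres (fun _ s => -(b' + ((s : ℕ) : ℤ)))
    (by
      intro q hq s l hsl hd
      have h3 : (q : ℤ) ∣ ((l : ℕ) : ℤ) - ((s : ℕ) : ℤ) := by
        have h4 : ((l : ℕ) : ℤ) - ((s : ℕ) : ℤ) = -(b' + ((s : ℕ) : ℤ)) - -(b' + ((l : ℕ) : ℤ)) := by ring
        rw [h4]
        exact hd
      exact not_dvd_diff (((hUk l l.2).1).trans hLA) (((hUk s s.2).1).trans hLA) (hPP q hq).2.1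
        (fun h => hsl (Subtype.ext h.symm)) h3)
    (by
      intro q hq s hd
      exact hPb q hq s s.2 hd) r hr
  obtain ⟨n, hnp, hXn, hn3, hnb, hnr, hTn⟩ := hgX (WW X S ps) r (WW_pos X S ps) (WW_le X (by linarith) S ps)
    V T Z₁ M M' M₂ w1 w2 w4 w5 w7 w8 w9 w10 w11 bad hbad
  refine ⟨n, hXn, hn3, hnb, hnp, fun i hi1 hik z hz hz0 => ?_⟩
  obtain ⟨z1, z2⟩ := hmain i hi1 hik z hz (fun _ => by simpa using hz0)
  refine concl X k fin1 fin2 fin3 n r _ hXn hnr i hi1 hik z z1 ?_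
  rcases z2 with ⟨⟨s, hs, hzs⟩, hP⟩ | hP
  · left
    refine ⟨?_, hP⟩
    have hsU : s ∈ U := by rw [hU]; exact mem_insert_of_mem hs
    obtain ⟨q, hq, hqd⟩ := w3 n hTn ⟨s, hsU⟩
    refine ⟨q, (hPP q hq).1, ?_, (hPP q hq).2.2.1, ?_⟩
    · have h2 : (yy X : ℝ) ≤ L / 1000 := Nat.floor_le (by positivity)
      have h3 := (hPP q hq).2.1
      linarith
    · have h2 : (n : ℤ) - -(b' + ((s : ℕ) : ℤ)) = n + z := by rw [hzs]; ring
      rw [← h2]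
      exact hqd
  · right
    exact hP

end Pool.Agent.H80.Pc
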