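import Pool.Agent.H80.Pc.Ext
import Pool.Graph.R_seed8.TH101.RG.Tup

set_option autoImplicit false

/-! # The residue class and the survivors (helper80) -/

namespace Pool.Agent.H80.Pc

open Finset Pool.Agent.H361R2.PA TH415.AP Pool.Agent.H80.Pk Pool.Agent.H398R2.RK
open Pool.Agent.H318R2.Cr hiding MM
open Pool.Agent.H256R2.SC (ff)
open Pool.Agent.H378R2 (GoodS GoodP yy PW z2 mem_PW)

open scoped Classical

theorem RT_le (X : ℝ) (hL : 0 < Real.log X) (h1 : 1 ≤ Real.log (Real.log X))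
    (h3 : 1 ≤ Real.log (Real.log (Real.log X)))
    (h4 : 1 ≤ Real.log (Real.log (Real.log (Real.log X)))) (j : ℕ) : RT X j ≤ ff X := by
  set L1 := Real.log X with hL1
  set u₂ := Real.log L1 with hu₂
  set u₃ := Real.log u₂ with hu₃
  set u₄ := Real.log u₃ with hu₄
  have hF : ff X = L1 * u₂ ^ 2 * u₄ / u₃ ^ 2 := rfl
  have hu₂0 : 0 < u₂ := by linarith
  have hu₃0 : 0 < u₃ := by linarith
  have hu₄0 : 0 < u₄ := by linarith
  have h32 : u₃ ≤ u₂ := by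
    have := Real.log_le_sub_one_of_pos hu₂0
    rw [hu₃]; linarith
  rcases j with _ | _ | _ | i
  · exact le_rfl
  · exact le_rfl
  · change L1 * u₂ * u₄ / u₃ ^ 2 ≤ _
    rw [hF]
    have : u₂ ≤ u₂ ^ 2 := le_self_pow₀ h1 (by norm_num)
    gcongr
  · change L1 / u₃ ^ i ≤ _
    have e1 : L1 / u₃ ^ i ≤ L1 := div_le_self hL.le (one_le_pow₀ h3)
    refine e1.trans ?_
    rw [hF, le_div_iff₀ (by positivity)]
    calc L1 * u₃ ^ 2 ≤ L1 * u₂ ^ 2 := by gcongr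
      _ = L1 * u₂ ^ 2 * 1 := (mul_one _).symm
      _ ≤ L1 * u₂ ^ 2 * u₄ := by gcongr

/-- the Chinese remainder theorem for the big modulus -/
theorem crtT (X : ℝ) (S : Finset ℕ) (ps : ℕ) (b : ℕ → ℤ) :
    ∃ r : ℕ, ∀ p ∈ PW X S ps, (p : ℤ) ∣ (r : ℤ) + b p := by
  obtain ⟨r, hr⟩ := Nat.chineseRemainderOfFinset (fun p : ℕ => ((-(b p)) % (p : ℤ)).toNat) (fun p : ℕ => p)
    (PW X S ps) (fun p hp => (mem_PW.1 hp).2.1.ne_zero) (by
      intro p hp q hq hpq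
      exact (Nat.coprime_primes (mem_PW.1 hp).2.1 (mem_PW.1 hq).2.1).2 hpq)
  refine ⟨r, fun p hp => ?_⟩
  have h1 := hr p hp
  have hp0 : (p : ℤ) ≠ 0 := by exact_mod_cast (mem_PW.1 hp).2.1.ne_zero
  have h2 : ((((-(b p)) % (p : ℤ)).toNat : ℕ) : ℤ) = (-(b p)) % (p : ℤ) :=
    Int.toNat_of_nonneg (Int.emod_nonneg _ hp0)
  have h3 : (r : ℤ) ≡ ((((-(b p)) % (p : ℤ)).toNat : ℕ) : ℤ) [ZMOD p] :=
    (Int.natCast_modEq_iff).2 h1
  rw [h2] at h3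
  have h4 : (r : ℤ) ≡ -(b p) [ZMOD p] := h3.trans (Int.mod_modEq _ _)
  have h5 := h4.symm.dvd
  rwa [sub_neg_eq_add] at h5

theorem covT (k Kt T₀ : ℕ) (hk : 2 ≤ k) (c₃ : ℝ) (hc₃ : 0 < c₃) : ∃ c : ℝ, 0 < c ∧
    ∀ᶠ X : ℝ in Filter.atTop,
    ∀ (Z' ps : ℕ) (S : Finset ℕ), GoodP Z' ps → GoodS X S →
    ∀ t : Fin Kt → ℕ, (∀ j, t j ≤ T₀) → (∀ p : ℕ, p.Prime → ∃ v : ℕ, ∀ j, ¬ p ∣ v + t j) →
    ∃ (r : ℕ) (b' : ℤ) (U0 : Finset ℕ), (∀ j, (r + t j).Coprime (Pool.Agent.H378R2.WW X S ps)) ∧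
      (U0.card : ℝ) ≤ c₃ * Real.log X ∧
      (∀ s ∈ U0, (s : ℝ) ≤ (Real.log X) ^ 2 ∧ ∀ j, b' + s ≠ t j) ∧
      |(b' : ℝ)| ≤ (Real.log X) ^ 2 ∧
      (∀ i, 1 ≤ i → i ≤ k → ∀ z : ℤ, |(z : ℝ)| ≤ c * RT X i → (∀ j, z ≠ t j) →
        |(z : ℝ)| ≤ X / 2 ∧
        (((∃ s ∈ U0, z = b' + s) ∧ ∃ P : Finset ℕ, P.card + 1 = i ∧ ∀ p ∈ P, p.Prime ∧ p ≤ yy X ∧
          ∀ n : ℕ, n ≡ r [MOD Pool.Agent.H378R2.WW X S ps] → (p : ℤ) ∣ n + z) ∨
        (∃ P : Finset ℕ, P.card = i ∧ ∀ p ∈ P, p.Prime ∧ p ≤ yy X ∧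
          ∀ n : ℕ, n ≡ r [MOD Pool.Agent.H378R2.WW X S ps] → (p : ℤ) ∣ n + z))) := by
  have hk0 : (0 : ℝ) < k := by exact_mod_cast (by omega : 0 < k)
  obtain ⟨c, hc, X₁, hpre⟩ := preT k Kt T₀ hk (c₃ / k) (by positivity)
  obtain ⟨X₂, hext⟩ := ext_ok
  refine ⟨c, hc, ?_⟩
  have t1 := Real.tendsto_log_atTop
  have t2 := t1.comp t1
  have t3 := t1.comp t2
  have t4 := t1.comp t3
  filter_upwards [Filter.eventually_ge_atTop X₁, Filter.eventually_ge_atTop X₂,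
    Pool.Agent.H312R2.RG.ev_ff (8 * c) (by positivity), t1.eventually_ge_atTop 10,
    t2.eventually_ge_atTop 1, t3.eventually_ge_atTop 1, t4.eventually_ge_atTop 1,
    Filter.eventually_ge_atTop 4]
    with X hX1 hX2 hff hL10 h2 h3 h4 hX4
  simp only [Function.comp] at h2 h3 h4
  intro Z' ps S hps hS t ht hadm
  obtain ⟨x1, x2, x3, x4⟩ := hext X hX2 Z' ps S hps hS
  obtain ⟨b, hb1, hb2⟩ := hpre X hX1 (fun j => (t j : ℤ))
    (fun j => ⟨Int.natCast_nonneg _, by exact_mod_cast ht j⟩)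
    (by
      intro p hp
      obtain ⟨v, hv⟩ := hadm p hp
      refine ⟨-(v : ℤ), fun j hd => hv j ?_⟩
      have h5 : (t j : ℤ) - -(v : ℤ) = ((v + t j : ℕ) : ℤ) := by push_cast; ring
      rw [h5] at hd
      exact_mod_cast hd)
    (insert ps S) x1 x2 x3
  rw [x4] at hb1 hb2
  obtain ⟨r, hr⟩ := crtT X S ps b
  set L := Real.log X with hL
  obtain ⟨f1, f2, f3⟩ := hff
  have hL0 : 0 < L := by linarith
  have hRle : ∀ j, RT X j ≤ ff X := RT_le X hL0 h2 h3 h4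
  have hmem : ∀ (r : ℝ) (k : ℤ), k ∈ Finset.Icc (-⌊r⌋) ⌊r⌋ ↔ |(k : ℝ)| ≤ r := by
    intro r k
    rw [Finset.mem_Icc, abs_le]
    constructor
    · rintro ⟨h1, h2⟩
      have h3 := Int.floor_le r
      have h4 : (-(⌊r⌋ : ℝ)) ≤ k := by exact_mod_cast h1
      have h5 : (k : ℝ) ≤ ⌊r⌋ := by exact_mod_cast h2
      constructor <;> linarith
    · rintro ⟨h1, h2⟩
      refine ⟨?_, Int.le_floor.2 h2⟩
      have : -k ≤ ⌊r⌋ := Int.le_floor.2 (by push_cast; linarith)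
      linarith
  set SS : Finset ℤ := (Icc 1 k).biUnion (fun j => (Icc (-⌊c * RT X j⌋) ⌊c * RT X j⌋).filter
      (fun m : ℤ => (∀ i, m ≠ (t i : ℤ)) ∧ hits (PW X S ps) b m + 1 ≤ j)) with hSS
  set s₀ : ℕ := ⌊L ^ 2 / 2⌋₊ with hs₀
  have hs1 : (s₀ : ℝ) ≤ L ^ 2 / 2 := Nat.floor_le (by positivity)
  have hs2 : L ^ 2 / 2 < s₀ + 1 := Nat.lt_floor_add_one _
  have hLL : 100 ≤ L ^ 2 := by nlinarith
  have hcR : ∀ j, c * RT X j ≤ L ^ 2 / 8 := by
    intro j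
    have := hRle j
    have : c * RT X j ≤ c * ff X := by gcongr
    linarith
  have hSSb : ∀ z ∈ SS, |(z : ℝ)| ≤ L ^ 2 / 8 ∧ ∀ i, z ≠ (t i : ℤ) := by
    intro z hz
    rw [hSS, mem_biUnion] at hz
    obtain ⟨j, hj, hz⟩ := hz
    rw [mem_filter, hmem] at hz
    exact ⟨hz.1.trans (hcR j), hz.2.1⟩
  have hpos : ∀ z ∈ SS, (((z + s₀).toNat : ℕ) : ℤ) = z + s₀ := by
    intro z hz
    apply Int.toNat_of_nonneg
    have h5 := (hSSb z hz).1
    rw [abs_le] at h5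
    have h6 : (0 : ℝ) ≤ z + s₀ := by linarith
    exact_mod_cast h6
  refine ⟨r, -(s₀ : ℤ), SS.image (fun z : ℤ => (z + (s₀ : ℤ)).toNat), ?_, ?_, ?_, ?_, ?_⟩
  · intro j
    unfold Pool.Agent.H378R2.WW
    apply Nat.Coprime.prod_right
    intro p hp
    have hpp := (mem_PW.1 hp).2.1
    rw [Nat.coprime_comm, Nat.Prime.coprime_iff_not_dvd hpp]
    intro hd
    have h5 := hr p hp
    have h6 : (p : ℤ) ∣ (r : ℤ) + t j := by exact_mod_cast hd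
    apply hb1 p hp j
    have h7 := dvd_sub h6 h5
    have h8 : (r : ℤ) + t j - (r + b p) = (t j : ℤ) - b p := by ring
    rwa [h8] at h7
  · have h5 : ((SS.image (fun z : ℤ => (z + (s₀ : ℤ)).toNat)).card : ℝ) ≤ SS.card := by
      exact_mod_cast card_image_le
    refine h5.trans ?_
    have h1 : (SS.card : ℝ) ≤ ∑ j ∈ Icc 1 k, (((Icc (-⌊c * RT X j⌋) ⌊c * RT X j⌋).filter
        (fun m : ℤ => (∀ i, m ≠ (t i : ℤ)) ∧ hits (PW X S ps) b m + 1 ≤ j)).card : ℝ) := by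
      exact_mod_cast card_biUnion_le
    refine h1.trans ?_
    have h2 : ∀ j ∈ Icc 1 k, (((Icc (-⌊c * RT X j⌋) ⌊c * RT X j⌋).filter
        (fun m : ℤ => (∀ i, m ≠ (t i : ℤ)) ∧ hits (PW X S ps) b m + 1 ≤ j)).card : ℝ) ≤
        c₃ / k * L := by
      intro j hj
      rw [mem_Icc] at hj
      exact (hb2 j hj.1 hj.2).1
    refine (sum_le_sum h2).trans ?_
    rw [sum_const, nsmul_eq_mul, Nat.card_Icc, Nat.add_sub_cancel]
    have h3 : (k : ℝ) * (c₃ / k * L) = c₃ * L := by field_simp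
    exact h3.le
  · intro s hs
    rw [mem_image] at hs
    obtain ⟨z, hz, rfl⟩ := hs
    obtain ⟨g1, g2⟩ := hSSb z hz
    have g3 := hpos z hz
    constructor
    · have g4 : (((z + s₀).toNat : ℕ) : ℝ) = (z : ℝ) + s₀ := by exact_mod_cast g3
      rw [g4]
      rw [abs_le] at g1
      linarith
    · intro j hj
      rw [g3] at hj
      apply g2 j
      linarith
  · push_cast
    rw [abs_neg, abs_of_nonneg (Nat.cast_nonneg _)]
    linarith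
  · intro i hi1 hik z hz hzt
    have hzb : |(z : ℝ)| ≤ L ^ 2 / 8 := hz.trans (hcR i)
    refine ⟨?_, ?_⟩
    · have g1 : c * RT X i ≤ c * ff X := by have := hRle i; gcongr
      linarith
    · set P := (PW X S ps).filter (fun p : ℕ => (p : ℤ) ∣ z - b p) with hP
      have hPc : P.card = hits (PW X S ps) b z := rfl
      have hPp : ∀ p ∈ P, p.Prime ∧ p ≤ yy X ∧
          ∀ n : ℕ, n ≡ r [MOD Pool.Agent.H378R2.WW X S ps] → (p : ℤ) ∣ n + z := by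
        intro p hp
        rw [hP, mem_filter] at hp
        obtain ⟨g1, g2, -⟩ := mem_PW.1 hp.1
        refine ⟨g2, g1, fun n hn => ?_⟩
        have g3 : n ≡ r [MOD p] := hn.of_dvd ((Pool.Agent.H378R2.prime_dvd_WW g2).2 hp.1)
        have g4 : (p : ℤ) ∣ (r : ℤ) - n := (Nat.modEq_iff_dvd).1 g3
        have g5 := dvd_sub (dvd_add (hr p hp.1) hp.2) g4
        have g6 : (r : ℤ) + b p + (z - b p) - (r - n) = n + z := by ring
        rwa [g6] at g5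
      have hzI := (hmem (c * RT X i) z).2 hz
      have hmin := (hb2 i hi1 hik).2 z (by rw [mem_Icc] at hzI; rw [abs_le]; exact hzI) hzt
      rcases Nat.lt_or_ge P.card i with hlt | hge
      · left
        refine ⟨?_, P, by omega, hPp⟩
        refine ⟨(z + s₀).toNat, ?_, ?_⟩
        · rw [mem_image]
          refine ⟨z, ?_, rfl⟩
          rw [hSS, mem_biUnion]
          refine ⟨i, mem_Icc.2 ⟨hi1, hik⟩, ?_⟩
          rw [mem_filter]
          exact ⟨hzI, hzt, by omega⟩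
        · rw [Int.toNat_of_nonneg]
          · ring
          · rw [abs_le] at hzb
            have h6 : (0 : ℝ) ≤ z + s₀ := by linarith
            exact_mod_cast h6
      · right
        obtain ⟨Q, hQ1, hQ2⟩ := exists_subset_card_eq hge
        exact ⟨Q, hQ2, fun p hp => hPp p (hQ1 hp)⟩

end Pool.Agent.H80.Pc
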