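import Pool.Agent.H80.Pc.ProB
import Pool.Agent.H80.Q.Des

set_option autoImplicit false

/-! # Designated primes, with classes avoiding a tuple (helper80) -/

namespace Pool.Agent.H80.Pc

open Finset Pool.Agent.H361R2.PA TH415.AP Pool.Agent.H80.Pk Pool.Agent.H398R2.RK
open Pool.Agent.H318R2.Cr hiding MM

open scoped Classical

theorem primes_many' (d₁ d₂ X u₂ u₃ u₄ y w : ℝ) (k v Y : ℕ) (hk : 2 ≤ k)
    (H : Sz 200000 k d₁ d₂ X u₂ u₃ u₄ y w v Y) (hu : u₂ = Real.log (Real.log X)) :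
    Real.log X / u₂ / 4000 ≤ (((Ioc Y ⌊Real.log X / 1000⌋₊).filter Nat.Prime).card : ℝ) := by
  set L1 := Real.log X with hL1
  set Z := ⌊L1 / 1000⌋₊ with hZ
  have h4 := H.hK4
  have h43 := H.h43
  have h32 := H.h32
  have hu₂0 : 200000 ≤ u₂ := by linarith
  have hLu : 200000 * u₂ ≤ L1 := by
    have := H.h2k 1 (by omega)
    rwa [pow_one] at this
  have hL0 : 40000000000 ≤ L1 := by linarith
  have hlog : Real.log (L1 / 1000) ≤ u₂ := by
    rw [hu]
    apply Real.log_le_log (by linarith) (by linarith)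
  have hlog0 : 0 < Real.log (L1 / 1000) := Real.log_pos (by linarith)
  have h1 := Chebyshev.pi_ge' (x := L1 / 1000) (by linarith)
  have h2 : Real.log (L1 / 1000 + 2) ≤ u₂ := by
    rw [hu]
    apply Real.log_le_log (by linarith) (by linarith)
  have h3 : L1 / 2000 ≤ (L1 / 1000 - 1) * Real.log 2 - Real.log (L1 / 1000 + 2) := by
    have := Real.log_two_gt_d9
    nlinarith
  have h5 : L1 / 2000 / u₂ ≤ (Nat.primeCounting Z : ℝ) := by
    refine le_trans ?_ h1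
    have h6 : 0 ≤ (L1 / 1000 - 1) * Real.log 2 - Real.log (L1 / 1000 + 2) := by linarith
    gcongr
  have e1 : (Nat.primeCounting Z : ℝ) = ((Pz Z).card : ℝ) := by
    rw [Nat.primeCounting, Nat.primeCounting', Nat.count_eq_card_filter_range]
    congr 2
    ext p
    simp only [mem_filter, mem_range, mem_Pz]
    constructor
    · rintro ⟨h1, h2⟩; exact ⟨h2, by omega⟩
    · rintro ⟨h1, h2⟩; exact ⟨by omega, h1⟩
  have hY2 : 2 ≤ Y := H.hv2.trans H.hvY
  have e2 : ((Pz Y).card : ℝ) ≤ 10 * (Y : ℝ) / Real.log Y := by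
    have := primes_le Y hY2
    have e3 : Pz Y = (Icc 1 Y).filter Nat.Prime := by
      unfold Pz
      rfl
    rw [e3]
    exact this
  have hYle : (Y : ℝ) ≤ L1 / u₂ := by
    rw [H.hY, H.hy]
    exact Nat.floor_le (by positivity)
  have e4 : 10 * (Y : ℝ) / Real.log Y ≤ 10 * (L1 / u₂) / (u₂ / 4) := by
    have := H.hlY
    gcongr
  have e5 : 10 * (L1 / u₂) / (u₂ / 4) ≤ L1 / u₂ / 4000 := by
    rw [div_le_iff₀ (by positivity)]
    have : 0 ≤ L1 / u₂ := by positivity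
    nlinarith
  have e6 : Pz Z ⊆ Pz Y ∪ (Ioc Y Z).filter Nat.Prime := by
    intro p hp
    rw [mem_Pz] at hp
    rw [mem_union, mem_Pz, mem_filter, mem_Ioc]
    by_cases h : p ≤ Y
    · exact Or.inl ⟨hp.1, h⟩
    · exact Or.inr ⟨⟨by omega, hp.2⟩, hp.1⟩
  have e7 : ((Pz Z).card : ℝ) ≤ (Pz Y).card + ((Ioc Y Z).filter Nat.Prime).card := by
    exact_mod_cast (card_le_card e6).trans (card_union_le _ _)
  have e8 : L1 / 2000 / u₂ = L1 / u₂ / 2000 := by ring
  rw [e8] at h5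
  linarith

/-- few primes `> Y` divide a small integer -/
theorem card_big (Y : ℕ) (P : Finset ℕ) (hP : ∀ p ∈ P, p.Prime ∧ Y < p) (x : ℤ) (hx : x ≠ 0)
    (hxY : x.natAbs < (Y + 1) ^ 2) : (P.filter (fun p : ℕ => (p : ℤ) ∣ x)).card ≤ 1 := by
  rw [card_le_one]
  intro p hp q hq
  rw [mem_filter] at hp hq
  by_contra hne
  have h1 := hP p hp.1
  have h2 := hP q hq.1
  have h3 : p * q ∣ x.natAbs := by
    apply Nat.Coprime.mul_dvd_of_dvd_of_dvd
    · exact (Nat.coprime_primes h1.1 h2.1).2 hne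
    · exact Int.natCast_dvd.1 hp.2
    · exact Int.natCast_dvd.1 hq.2
  have h4 := Nat.le_of_dvd (Int.natAbs_pos.2 hx) h3
  have h5 : (Y + 1) * (Y + 1) ≤ p * q := Nat.mul_le_mul (by omega) (by omega)
  nlinarith

/-- changing the classes of the primes in `(Y, Z]` -/
theorem designateR (Kt Y Z k : ℕ) (hYZ : Y ≤ Z) (τ : Fin Kt → ℤ)
    (hadm : ∀ p : ℕ, p.Prime → ∃ v : ℤ, ∀ j, ¬ (p : ℤ) ∣ τ j - v) (E : Finset ℕ)
    (b : ℕ → ℤ) (hb : ∀ p ∈ Pz Y \ E, ∀ j, ¬ (p : ℤ) ∣ τ j - b p) (T : Finset ℤ)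
    (hTτ : ∀ m ∈ T, ∀ j, m ≠ τ j ∧ (m - τ j).natAbs < (Y + 1) ^ 2)
    (hT : T.card * (k + Kt) ≤ ((Ioc Y Z).filter Nat.Prime \ E).card) :
    ∃ b' : ℕ → ℤ, (∀ p ∈ Pz Z \ E, ∀ j, ¬ (p : ℤ) ∣ τ j - b' p) ∧
      (∀ m, hits (Pz Y \ E) b m ≤ hits (Pz Z \ E) b' m) ∧
      ∀ m ∈ T, k ≤ hits (Pz Z \ E) b' m := by
  set P := (Ioc Y Z).filter Nat.Prime \ E with hP
  have hPm : ∀ p ∈ P, p.Prime ∧ Y < p ∧ p ≤ Z ∧ p ∉ E := by
    intro p hp
    rw [hP, mem_sdiff, mem_filter, mem_Ioc] at hp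
    exact ⟨hp.1.2, hp.1.1.1, hp.1.1.2, hp.2⟩
  have hcard : Fintype.card (T × Fin (k + Kt)) ≤ Fintype.card P := by
    rw [Fintype.card_prod, Fintype.card_coe, Fintype.card_fin, Fintype.card_coe]
    exact hT
  obtain ⟨f⟩ := Function.Embedding.nonempty_of_card_le hcard
  have hdef : ∀ p : ℕ, ∃ v : ℤ, p.Prime → ∀ j, ¬ (p : ℤ) ∣ τ j - v := by
    intro p
    by_cases hp : p.Prime
    · obtain ⟨v, hv⟩ := hadm p hp
      exact ⟨v, fun _ => hv⟩
    · exact ⟨0, fun h => absurd h hp⟩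
  choose d hd using hdef
  set b' : ℕ → ℤ := fun p => if p ≤ Y then b p else
    if h : ∃ x : T × Fin (k + Kt), ((f x : P) : ℕ) = p ∧ ∀ j, ¬ (p : ℤ) ∣ τ j - ((x.1 : T) : ℤ)
      then ((h.choose.1 : T) : ℤ) else d p with hb'
  refine ⟨b', ?_, fun m => ?_, fun m hm => ?_⟩
  · intro p hp j
    rw [mem_sdiff, mem_Pz] at hp
    by_cases hpY : p ≤ Y
    · rw [hb']
      simp only [if_pos hpY]
      exact hb p (by rw [mem_sdiff, mem_Pz]; exact ⟨⟨hp.1.1, hpY⟩, hp.2⟩) j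
    · rw [hb']
      simp only [if_neg hpY]
      split_ifs with h
      · exact h.choose_spec.2 j
      · exact hd p hp.1.1 j
  · unfold hits
    apply card_le_card
    intro p hp
    rw [mem_filter, mem_sdiff, mem_Pz] at hp
    rw [mem_filter, mem_sdiff, mem_Pz]
    refine ⟨⟨⟨hp.1.1.1, hp.1.1.2.trans hYZ⟩, hp.1.2⟩, ?_⟩
    rw [hb']
    simp only [if_pos hp.1.1.2]
    exact hp.2
  · -- the assigned primes
    set Am : Finset ℕ := univ.image (fun i : Fin (k + Kt) => ((f (⟨m, hm⟩, i) : P) : ℕ)) with hAm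
    have hAmc : Am.card = k + Kt := by
      rw [hAm, card_image_of_injective, card_univ, Fintype.card_fin]
      intro i j hij
      have h2 := f.injective (Subtype.ext hij)
      exact (Prod.ext_iff.1 h2).2
    have hAmP : Am ⊆ P := by
      intro p hp
      rw [hAm, mem_image] at hp
      obtain ⟨i, -, hi⟩ := hp
      rw [← hi]
      exact (f (⟨m, hm⟩, i) : P).2
    set Bd : Finset ℕ := (univ : Finset (Fin Kt)).biUnion
      (fun j => P.filter (fun p : ℕ => (p : ℤ) ∣ m - τ j)) with hBd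
    have hBdc : Bd.card ≤ Kt := by
      refine card_biUnion_le.trans ?_
      refine (sum_le_card_nsmul _ _ 1 fun j _ => ?_).trans ?_
      · obtain ⟨h1, h2⟩ := hTτ m hm j
        exact card_big Y P (fun p hp => ⟨(hPm p hp).1, (hPm p hp).2.1⟩) _ (sub_ne_zero.2 h1) h2
      · simp
    have h1 : k ≤ (Am \ Bd).card := by
      have := le_card_sdiff Bd Am
      omega
    refine h1.trans ?_
    unfold hits
    apply card_le_card
    intro p hp
    rw [mem_sdiff] at hp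
    have hpP := hPm p (hAmP hp.1)
    rw [hAm, mem_image] at hp
    obtain ⟨⟨i, -, hi⟩, hpB⟩ := hp
    rw [mem_filter, mem_sdiff, mem_Pz]
    refine ⟨⟨⟨hpP.1, hpP.2.2.1⟩, hpP.2.2.2⟩, ?_⟩
    have h3 : ∃ x : T × Fin (k + Kt), ((f x : P) : ℕ) = p ∧
        ∀ j, ¬ (p : ℤ) ∣ τ j - ((x.1 : T) : ℤ) := by
      refine ⟨(⟨m, hm⟩, i), hi, fun j hd => hpB ?_⟩
      rw [hBd, mem_biUnion]
      refine ⟨j, mem_univ j, ?_⟩
      rw [mem_filter]
      refine ⟨by rw [← hi]; exact (f (⟨m, hm⟩, i) : P).2, ?_⟩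
      have h5 := (dvd_neg (a := (p : ℤ))).2 hd
      have e : -(τ j - m) = m - τ j := by ring
      rw [← e]
      exact h5
    have h4 : b' p = ((h3.choose.1 : T) : ℤ) := by
      rw [hb']
      simp only [if_neg (not_le.2 hpP.2.1)]
      rw [dif_pos h3]
    have h5 : h3.choose = (⟨m, hm⟩, i) :=
      f.injective (Subtype.ext (h3.choose_spec.1.trans hi.symm))
    rw [h4, h5]
    simp

end Pool.Agent.H80.Pc
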