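import Pool.Agent.H80.Pc.PreT
import Pool.Graph.R_seed8.H378R2.Defs

set_option autoImplicit false

/-! # The removed primes of the big modulus are harmless (helper80) -/

namespace Pool.Agent.H80.Pc

open Finset Pool.Agent.H361R2.PA TH415.AP Pool.Agent.H80.Pk Pool.Agent.H398R2.RK
open Pool.Agent.H318R2.Cr hiding MM
open Pool.Agent.H256R2.SC (ff)
open Pool.Agent.H378R2 (GoodS GoodP yy PW z2)

open scoped Classical

theorem one_sub_sum_le (s : Finset ℕ) (f : ℕ → ℝ) (hf : ∀ i ∈ s, 0 ≤ f i ∧ f i ≤ 1) :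
    1 - ∑ i ∈ s, f i ≤ ∏ i ∈ s, (1 - f i) := by
  induction s using Finset.induction_on with
  | empty => simp
  | insert a s ha ih =>
    rw [sum_insert ha, prod_insert ha]
    have h1 := ih (fun i hi => hf i (mem_insert_of_mem hi))
    obtain ⟨h2, h3⟩ := hf a (mem_insert_self a s)
    have h4 : 0 ≤ ∑ i ∈ s, f i := sum_nonneg fun i hi => (hf i (mem_insert_of_mem hi)).1
    have h5 : (1 - f a) * (1 - ∑ i ∈ s, f i) ≤ (1 - f a) * ∏ i ∈ s, (1 - f i) :=
      mul_le_mul_of_nonneg_left h1 (by linarith)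
    nlinarith

theorem ext_ok : ∃ X₀ : ℝ, ∀ X : ℝ, X₀ ≤ X → ∀ (Z' ps : ℕ) (S : Finset ℕ), GoodP Z' ps → GoodS X S →
    ∑ p ∈ MM ⌊Real.exp (WW (Real.log X / Real.log (Real.log X)))⌋₊
      ⌊Real.log X / Real.log (Real.log X)⌋₊ ∩ insert ps S, 1 / (p : ℝ) ≤ 8 / Real.log (Real.log X) ∧
    1 / 4 ≤ ∏ p ∈ Pz ⌊Real.exp (WW (Real.log X / Real.log (Real.log X)))⌋₊ ∩ insert ps S,
      (1 - 1 / (p : ℝ)) ∧
    (((Ioc ⌊Real.log X / Real.log (Real.log X)⌋₊ ⌊Real.log X / 1000⌋₊).filter Nat.Prime ∩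
      insert ps S).card : ℝ) ≤ Real.log X / Real.log (Real.log X) / 8000 ∧
    Pz ⌊Real.log X / 1000⌋₊ \ insert ps S = PW X S ps := by
  obtain ⟨K, hK⟩ := par_ex 1 le_rfl 1 0
  obtain ⟨d₁, d₂, hd₁, hd₁₂, hVV⟩ := cz_bounds
  obtain ⟨X₂, hsz⟩ := sizes (max K 16000) 2 le_rfl d₁ d₂ hd₁ hd₁₂ hVV
  refine ⟨X₂, fun X hX Z' ps S hps hS => ?_⟩
  have H := hsz X hX
  obtain ⟨-, -, -, -, -, -, -, -, hv2⟩ := hK 2 le_rfl d₁ d₂ X _ _ _ _ _ _ _ rfl rfl
    (Sz_mono (le_max_left _ _) H)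
  have H' := Sz_mono (le_max_right K 16000) H
  set L1 := Real.log X with hL1
  set u₂ := Real.log L1 with hu₂
  set v := ⌊Real.exp (WW (L1 / u₂))⌋₊ with hv
  have h4 := H'.hK4
  have h43 := H'.h43
  have h32 := H'.h32
  have hu100 : 16000 ≤ u₂ := by linarith
  have hu0 : 0 < u₂ := by linarith
  have hLu : 16000 * u₂ ≤ L1 := by
    have := H'.h2k 1 (by omega)
    rwa [pow_one] at this
  have hL0 : 0 < L1 := by nlinarith
  obtain ⟨hS1, hS2⟩ := hS
  rw [← hL1, ← hu₂] at hS2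
  have hvpos : 1 < v := lt_of_lt_of_le (by norm_num) H'.hv2
  have hv0 : (0 : ℝ) < v := by exact_mod_cast (by omega : 0 < v)
  refine ⟨?_, ?_, ?_, ?_⟩
  · have h1 : ∑ p ∈ MM v ⌊L1 / u₂⌋₊ ∩ insert ps S, 1 / (p : ℝ) ≤
        ∑ p ∈ S, 1 / (p : ℝ) + 1 / u₂ := by
      by_cases hm : ps ∈ MM v ⌊L1 / u₂⌋₊
      · have h2 : MM v ⌊L1 / u₂⌋₊ ∩ insert ps S ⊆ insert ps S := inter_subset_right
        refine (sum_le_sum_of_subset_of_nonneg h2 (fun _ _ _ => by positivity)).trans ?_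
        have h3 : ∑ p ∈ insert ps S, 1 / (p : ℝ) ≤ 1 / (ps : ℝ) + ∑ p ∈ S, 1 / (p : ℝ) := by
          by_cases hmS : ps ∈ S
          · rw [insert_eq_of_mem hmS]
            have : (0 : ℝ) ≤ 1 / (ps : ℝ) := by positivity
            linarith
          · rw [sum_insert hmS]
        have h4 : 1 / (ps : ℝ) ≤ 1 / (v : ℝ) := by
          apply one_div_le_one_div_of_le hv0
          have : v < ps := by
            unfold MM at hm
            rw [mem_filter, mem_Ioc] at hm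
            exact hm.1.1
          exact_mod_cast this.le
        linarith
      · have h2 : MM v ⌊L1 / u₂⌋₊ ∩ insert ps S ⊆ S := by
          intro p hp
          rw [mem_inter, mem_insert] at hp
          rcases hp.2 with rfl | h
          · exact absurd hp.1 hm
          · exact h
        refine (sum_le_sum_of_subset_of_nonneg h2 (fun _ _ _ => by positivity)).trans ?_
        have : 0 ≤ 1 / u₂ := by positivity
        linarith
    have h5 : 6 / u₂ ^ 2 ≤ 6 / u₂ := by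
      apply div_le_div_of_nonneg_left (by norm_num) hu0
      exact le_self_pow₀ (by linarith) (by norm_num)
    calc ∑ p ∈ MM v ⌊L1 / u₂⌋₊ ∩ insert ps S, 1 / (p : ℝ) ≤ 6 / u₂ + 1 / u₂ := by linarith
      _ = 7 / u₂ := by ring
      _ ≤ 8 / u₂ := by gcongr; norm_num
  · set A := Pz v ∩ insert ps S with hA
    have hAp : ∀ p ∈ A, p.Prime := fun p hp => (mem_Pz.1 (mem_inter.1 hp).1).1
    have hf : ∀ p ∈ A, (0 : ℝ) ≤ 1 / (p : ℝ) ∧ 1 / (p : ℝ) ≤ 1 := by
      intro p hp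
      have h2 : (1 : ℝ) ≤ p := by exact_mod_cast (hAp p hp).one_lt.le
      exact ⟨by positivity, by rw [div_le_one (by linarith)]; exact h2⟩
    have h1 : 1 - ∑ p ∈ A ∩ S, 1 / (p : ℝ) ≤ ∏ p ∈ A ∩ S, (1 - 1 / (p : ℝ)) :=
      one_sub_sum_le _ _ fun p hp => hf p (mem_inter.1 hp).1
    have h2 : ∑ p ∈ A ∩ S, 1 / (p : ℝ) ≤ ∑ p ∈ S, 1 / (p : ℝ) :=
      sum_le_sum_of_subset_of_nonneg inter_subset_right (fun _ _ _ => by positivity)
    have h3 : 6 / u₂ ^ 2 ≤ 1 / 2 := by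
      rw [div_le_iff₀ (by positivity)]
      nlinarith
    have h4 : (1 : ℝ) / 2 ≤ ∏ p ∈ A ∩ S, (1 - 1 / (p : ℝ)) := by linarith
    have h5 : ∏ p ∈ A, (1 - 1 / (p : ℝ)) =
        (∏ p ∈ A \ (A ∩ S), (1 - 1 / (p : ℝ))) * ∏ p ∈ A ∩ S, (1 - 1 / (p : ℝ)) :=
      (prod_sdiff inter_subset_left).symm
    have h6 : (1 : ℝ) / 2 ≤ ∏ p ∈ A \ (A ∩ S), (1 - 1 / (p : ℝ)) := by
      have h7 : A \ (A ∩ S) ⊆ {ps} := by
        intro p hp
        rw [mem_sdiff] at hp
        rw [mem_singleton]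
        have h8 := hp.1
        rw [hA, mem_inter, mem_insert] at h8
        rcases h8.2 with h9 | h9
        · exact h9
        · exact absurd (mem_inter.2 ⟨hp.1, h9⟩) hp.2
      rcases subset_singleton_iff.1 h7 with h8 | h8
      · rw [h8]; norm_num
      · rw [h8, prod_singleton]
        have h9 : ps ∈ A := by
          have : ps ∈ A \ (A ∩ S) := by rw [h8]; exact mem_singleton_self ps
          exact (mem_sdiff.1 this).1
        have h10 : (2 : ℝ) ≤ ps := by exact_mod_cast (hAp ps h9).two_le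
        have h11 : 1 / (ps : ℝ) ≤ 1 / 2 := one_div_le_one_div_of_le (by norm_num) h10
        linarith
    rw [h5]
    calc (1 : ℝ) / 4 = 1 / 2 * (1 / 2) := by norm_num
      _ ≤ _ := by gcongr
  · have h1 : ((Ioc ⌊L1 / u₂⌋₊ ⌊L1 / 1000⌋₊).filter Nat.Prime ∩ insert ps S).card ≤ S.card + 1 := by
      refine (card_le_card inter_subset_right).trans (card_insert_le _ _)
    have h2 : (S.card : ℝ) ≤ L1 / 1000 * (6 / u₂ ^ 2) := by
      have h3 : ∀ q ∈ S, (1 : ℝ) / (L1 / 1000) ≤ 1 / (q : ℝ) := by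
        intro q hq
        obtain ⟨g1, g2, g3⟩ := hS1 q hq
        apply one_div_le_one_div_of_le
        · exact_mod_cast g1.pos
        · have g4 : (yy X : ℝ) ≤ L1 / 1000 := Nat.floor_le (by positivity)
          have g5 : (q : ℝ) ≤ yy X := by exact_mod_cast g3
          linarith
      have h4 : (S.card : ℝ) * (1 / (L1 / 1000)) ≤ 6 / u₂ ^ 2 := by
        refine le_trans ?_ hS2
        have := card_nsmul_le_sum S (fun q : ℕ => (1 : ℝ) / q) _ h3
        rwa [nsmul_eq_mul] at this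
      have h5 : (S.card : ℝ) = L1 / 1000 * ((S.card : ℝ) * (1 / (L1 / 1000))) := by
        field_simp
      rw [h5]
      gcongr
    have h3 : (((Ioc ⌊L1 / u₂⌋₊ ⌊L1 / 1000⌋₊).filter Nat.Prime ∩ insert ps S).card : ℝ) ≤
        S.card + 1 := by exact_mod_cast h1
    have h4 : L1 / 1000 * (6 / u₂ ^ 2) ≤ L1 / u₂ / 16000 := by
      rw [div_mul_div_comm, div_div, div_le_div_iff₀ (by positivity) (by positivity)]
      nlinarith [mul_pos hL0 hu0]
    have h5 : 1 ≤ L1 / u₂ / 16000 := by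
      rw [le_div_iff₀ (by norm_num), le_div_iff₀ hu0]
      linarith
    have h6 : L1 / u₂ / 8000 = L1 / u₂ / 16000 + L1 / u₂ / 16000 := by ring
    linarith
  · ext p
    unfold PW yy
    rw [mem_sdiff, mem_Pz, mem_insert, mem_filter, mem_Icc, ← hL1]
    constructor
    · rintro ⟨⟨g1, g2⟩, g3⟩
      push Not at g3
      exact ⟨⟨g1.pos, g2⟩, g1, g3.2, g3.1⟩
    · rintro ⟨⟨g1, g2⟩, g3, g4, g5⟩
      exact ⟨⟨g3, g2⟩, fun h => h.elim g5 g4⟩

end Pool.Agent.H80.Pc
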