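import Pool.Agent.H80.Pc.Clu2

set_option autoImplicit false

/-! # Clusters and isolated primes among almost primes: the final form (helper80) -/

namespace Pool.Agent.H80.Pc

open Finset Filter
open Pool.Agent.H256R2.SC (ff)
open Pool.Agent.H362R2.RQ (fib)

open scoped Classical

theorem evp (C : ℝ) (k : ℕ) : ∀ᶠ y : ℝ in atTop, C * Real.log y ^ k ≤ y := by
  have h1 := (Real.isLittleO_pow_log_id_atTop (n := k)).bound (show (0 : ℝ) < 1 / (|C| + 1) by positivity)
  filter_upwards [h1, eventually_ge_atTop 1] with y h hy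
  have h2 : 0 ≤ Real.log y := Real.log_nonneg hy
  simp only [id] at h
  rw [Real.norm_of_nonneg (by positivity), Real.norm_of_nonneg (by linarith), one_div,
    inv_mul_eq_div, le_div_iff₀ (by positivity)] at h
  have h3 : C * Real.log y ^ k ≤ (|C| + 1) * Real.log y ^ k := by
    apply mul_le_mul_of_nonneg_right _ (by positivity)
    have := le_abs_self C
    linarith
  linarith

theorem RT_large (k : ℕ) (C : ℝ) : ∀ᶠ X : ℝ in atTop, ∀ i : ℕ, i ≤ k → C ≤ RT X i := by
  have t1 := Real.tendsto_log_atTop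
  have t2 := t1.comp t1
  have t3 := t1.comp t2
  have t4 := t1.comp t3
  filter_upwards [t1.eventually_ge_atTop 1, t1.eventually_ge_atTop C, t2.eventually_ge_atTop 1,
    t3.eventually_ge_atTop 1, t4.eventually_ge_atTop 1, t2.eventually (evp 1 2),
    t2.eventually (evp 1 k), t1.eventually (evp C 1)] with X h1 hC h2 h3 h4 e2 ek e1
  simp only [Function.comp, one_mul, pow_one] at h2 h3 h4 e2 ek e1
  set L := Real.log X with hL
  set u₂ := Real.log L with hu₂
  set u₃ := Real.log u₂ with hu₃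
  set u₄ := Real.log u₃ with hu₄
  have hL0 : 0 < L := by linarith
  have hu2 : 0 < u₂ := by linarith
  have hu3 : 0 < u₃ := by linarith
  have hbig : L ≤ L * u₂ * u₄ / u₃ ^ 2 := by
    rw [le_div_iff₀ (by positivity)]
    calc L * u₃ ^ 2 ≤ L * u₂ := by gcongr
      _ = L * u₂ * 1 := (mul_one _).symm
      _ ≤ L * u₂ * u₄ := by gcongr
  have hff : L ≤ ff X := by
    have hF : ff X = L * u₂ ^ 2 * u₄ / u₃ ^ 2 := rfl
    rw [hF]
    refine hbig.trans ?_
    have : u₂ ≤ u₂ ^ 2 := le_self_pow₀ h2 (by norm_num)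
    gcongr
  intro i hi
  rcases i with _ | _ | _ | i
  · exact hC.trans hff
  · exact hC.trans hff
  · exact hC.trans hbig
  · change C ≤ L / u₃ ^ i
    rw [le_div_iff₀ (by positivity)]
    rcases le_or_gt C 0 with hC0 | hC0
    · have : C * u₃ ^ i ≤ 0 := mul_nonpos_of_nonpos_of_nonneg hC0 (by positivity)
      linarith
    · have h5 : u₃ ^ i ≤ u₂ := by
        refine le_trans ?_ ek
        exact pow_le_pow_right₀ h3 (by omega)
      calc C * u₃ ^ i ≤ C * u₂ := by gcongr
        _ ≤ L := e1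

/-- the colouring by residues -/
theorem colK (K m : ℕ) (hm : 1 ≤ m) (hmK : m ≤ K) : ∃ col : Fin K → Fin m,
    ∀ e, K ≤ 2 * m * fib col e := by
  refine ⟨fun j => ⟨(j : ℕ) % m, Nat.mod_lt _ hm⟩, fun e => ?_⟩
  have h1 : K / m ≤ fib (fun j : Fin K => (⟨(j : ℕ) % m, Nat.mod_lt _ hm⟩ : Fin m)) e := by
    unfold fib
    have h2 : (range (K / m)).card ≤ ((univ : Finset (Fin K)).filter (fun i : Fin K =>
        (⟨(i : ℕ) % m, Nat.mod_lt _ hm⟩ : Fin m) = e)).card := by
      have hlt : ∀ q ∈ range (K / m), (e : ℕ) + m * q < K := by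
        intro q hq
        rw [mem_range] at hq
        have h3 : m * (K / m) ≤ K := Nat.mul_div_le K m
        have h4 : m * (q + 1) ≤ m * (K / m) := Nat.mul_le_mul_left m hq
        have h5 := e.2
        have h6 : m * (q + 1) = m * q + m := by ring
        omega
      apply card_le_card_of_injOn (fun q => if h : (e : ℕ) + m * q < K then
        (⟨(e : ℕ) + m * q, h⟩ : Fin K) else ⟨0, by omega⟩)
      · intro q hq
        have hq' := hlt q hq
        simp only [dif_pos hq', coe_filter, mem_univ, true_and, Set.mem_ofPred_eq]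
        apply Fin.ext
        simp [Nat.mod_eq_of_lt e.2]
      · intro a ha b hb hab
        have ha' := hlt a ha
        have hb' := hlt b hb
        simp only [dif_pos ha', dif_pos hb', Fin.mk.injEq] at hab
        have : m * a = m * b := by omega
        exact Nat.eq_of_mul_eq_mul_left hm this
    rwa [card_range] at h2
  have h3 : K < m * (K / m + 1) := Nat.lt_mul_div_succ K hm
  have h4 : 1 ≤ K / m := (Nat.one_le_div_iff hm).2 hmK
  calc K ≤ m * (K / m + 1) := h3.le
    _ ≤ m * (2 * (K / m)) := Nat.mul_le_mul_left m (by omega)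
    _ = 2 * m * (K / m) := by ring
    _ ≤ _ := Nat.mul_le_mul_left _ h1

/-- the good numbers -/
def Gd (M : ℕ) (T : Finset ℕ) (k : ℕ) (c x : ℝ) (n : ℕ) : Prop :=
  x / 2 < n ∧ (n : ℝ) ≤ 3 * x ∧ M ≤ (T.filter (fun t => (n + t).Prime)).card ∧
    ∀ i : ℕ, 1 ≤ i → i ≤ k → ∀ m : ℕ, |(m : ℝ) - n| ≤ c * RT x i → (∀ t ∈ T, m ≠ n + t) →
      i + 1 ≤ m.primeFactorsList.length

theorem final (M : ℕ) : ∃ K : ℕ, (M = 1 → K = 1) ∧ ∀ T : Finset ℕ, K ≤ T.card →
    (∀ p : ℕ, p.Prime → ∃ v : ℕ, ∀ t ∈ T, ¬ p ∣ v + t) → ∀ k : ℕ, 2 ≤ k →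
    ∃ c : ℝ, 0 < c ∧ ∃ x₀ : ℝ, ∀ x : ℝ, x₀ ≤ x → ∀ bad : Finset ℕ,
      (bad.card : ℝ) ≤ x ^ (9 / 10 : ℝ) → ∃ n : ℕ, n ∉ bad ∧ Gd M T k c x n := by
  rcases Nat.lt_or_ge 1 M with hM | hM
  · obtain ⟨η, hη, h1⟩ := cluT
    obtain ⟨K, hmK, h2⟩ := h1 (⌈(M : ℝ) / η⌉₊ + 1) (by omega)
    refine ⟨K, fun h => by omega, fun T hT hadm k hk => ?_⟩
    obtain ⟨T', hT'T, hT'K⟩ := exists_subset_card_eq hT
    obtain ⟨c, hc, h3⟩ := h2 k (T.sup id) hk
    obtain ⟨x₀, hx₀⟩ := eventually_atTop.1 h3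
    obtain ⟨x₁, hx₁⟩ := eventually_atTop.1 (eventually_ge_atTop (1 : ℝ))
    refine ⟨c, hc, max x₀ 1, fun x hx bad hbad => ?_⟩
    obtain ⟨col, hcol⟩ := colK K (⌈(M : ℝ) / η⌉₊ + 1) (by omega) hmK
    set t : Fin K → ℕ := fun j => ((T'.orderEmbOfFin hT'K) j : ℕ) with ht
    have htT : ∀ j, t j ∈ T := fun j => hT'T (T'.orderEmbOfFin_mem hT'K j)
    have htinj : Function.Injective t := (T'.orderEmbOfFin hT'K).injective
    obtain ⟨n, n1, n2, n3, ⟨E, n4, n5⟩, n6⟩ := hx₀ x ((le_max_left _ _).trans hx) t htinj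
      (fun j => le_sup (f := id) (htT j))
      (fun p hp => by
        obtain ⟨v, hv⟩ := hadm p hp
        exact ⟨v, fun j => hv _ (htT j)⟩) col hcol bad hbad
    have hx1 : 1 ≤ x := (le_max_right _ _).trans hx
    refine ⟨n, n3, by linarith, n2, ?_, ?_⟩
    · have h4 : M ≤ E.card := by
        have h5 : (M : ℝ) ≤ E.card := by
          refine le_trans ?_ n4
          have h6 : (M : ℝ) / η ≤ ⌈(M : ℝ) / η⌉₊ := Nat.le_ceil _
          rw [div_le_iff₀ hη] at h6
          push_cast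
          nlinarith
        exact_mod_cast h5
      refine h4.trans ?_
      haveI : Nonempty (Fin K) := ⟨⟨0, by omega⟩⟩
      choose! f hf1 hf2 using n5
      apply card_le_card_of_injOn (fun e => t (f e))
      · intro e he
        simp only [coe_filter, Set.mem_ofPred_eq]
        exact ⟨htT _, hf2 e he⟩
      · intro a ha b hb hab
        have h5 := htinj hab
        rw [← hf1 a ha, ← hf1 b hb, h5]
    · intro i hi1 hik m hm hmT
      obtain ⟨N, hN1, hN2⟩ := n6 i hi1 hik ((m : ℤ) - n) (by push_cast; exact hm) (by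
        intro j hj
        apply hmT _ (htT j)
        have : (m : ℤ) = n + t j := by linarith
        exact_mod_cast this)
      have h7 : (N : ℤ) = m := by rw [hN1]; ring
      have h8 : N = m := by exact_mod_cast h7
      rwa [h8] at hN2
  · refine ⟨1, fun _ => rfl, fun T hT hadm k hk => ?_⟩
    obtain ⟨t₀, ht₀⟩ := card_pos.1 (by omega : 0 < T.card)
    obtain ⟨c, hc, h3⟩ := isoT k hk
    obtain ⟨x₀, hx₀⟩ := eventually_atTop.1 h3
    obtain ⟨x₁, hx₁⟩ := eventually_atTop.1 (RT_large k (2 * t₀ / c))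
    refine ⟨c / 2, by positivity, max (max x₀ x₁) (2 * t₀ + 1), fun x hx bad hbad => ?_⟩
    have hxa := ((le_max_left _ _).trans (le_max_left _ _)).trans hx
    have hxb := ((le_max_right _ _).trans (le_max_left _ _)).trans hx
    have hxc := (le_max_right _ _).trans hx
    obtain ⟨p, n1, n2, n3, n4, n5⟩ := hx₀ x hxa (bad.image (· + t₀)) (by
      refine le_trans ?_ hbad
      exact_mod_cast card_image_le)
    have ht0 : (0 : ℝ) ≤ t₀ := Nat.cast_nonneg _
    have hp : t₀ ≤ p := by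
      have : (t₀ : ℝ) ≤ p := by linarith
      exact_mod_cast this
    obtain ⟨n, rfl⟩ := Nat.exists_eq_add_of_le hp
    rw [add_comm] at n3 n4
    push_cast at n1 n2
    refine ⟨n, fun h => n3 (mem_image_of_mem _ h), by linarith, by linarith, ?_, ?_⟩
    · refine hM.trans (card_pos.2 ⟨t₀, ?_⟩)
      rw [mem_filter]
      exact ⟨ht₀, n4⟩
    · intro i hi1 hik m hm hmT
      have h6 := hx₁ x hxb i hik
      rw [div_le_iff₀ hc] at h6
      obtain ⟨N, hN1, hN2⟩ := n5 i hi1 hik ((m : ℤ) - (n + t₀)) (by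
        push_cast
        rw [abs_le] at hm ⊢
        constructor <;> nlinarith) (by
        intro hj
        apply hmT _ ht₀
        have : (m : ℤ) = n + t₀ := by linarith
        exact_mod_cast this)
      have h7 : (N : ℤ) = m := by rw [hN1]; push_cast; ring
      have h8 : N = m := by exact_mod_cast h7
      rwa [h8] at hN2

end Pool.Agent.H80.Pc
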