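import Pool.Agent.H80.Pc.Avg
import Pool.Agent.H80.Q.APWS

set_option autoImplicit false

/-! # The weighted greedy sieve with classes which avoid a tuple (helper80) -/

namespace Pool.Agent.H80.Pc

open Finset TH415.AP

open scoped Classical

/-- the local factor -/
noncomputable def rho {K : ℕ} (τ : Fin K → ℤ) (t : ℝ) (p : ℕ) (z : ℤ) : ℝ :=
  if ∃ j, (p : ℤ) ∣ z - τ j then 1 else 1 - (1 - t) / (p : ℝ)

theorem rho_nonneg {K : ℕ} (τ : Fin K → ℤ) (t : ℝ) (ht : 0 ≤ t) (p : ℕ) (hp : p.Prime) (z : ℤ) :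
    0 ≤ rho τ t p z := by
  unfold rho
  split_ifs
  · exact zero_le_one
  · have hq0 : (0 : ℝ) < p := by exact_mod_cast hp.pos
    have hq1 : (1 : ℝ) ≤ p := by exact_mod_cast hp.one_le
    rw [sub_nonneg, div_le_one hq0]
    linarith

/-- the allowed classes -/
noncomputable def alw {K : ℕ} (τ : Fin K → ℤ) (p : ℕ) : Finset ℕ :=
  (range p).filter (fun r => ∀ j, ¬ (p : ℤ) ∣ τ j - (r : ℤ))

theorem alw_ne {K : ℕ} (τ : Fin K → ℤ) (p : ℕ) (hp : 0 < p)
    (h : ∃ v : ℤ, ∀ j, ¬ (p : ℤ) ∣ τ j - v) : (alw τ p).Nonempty := by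
  obtain ⟨v, hv⟩ := h
  have hp' : (0 : ℤ) < p := by exact_mod_cast hp
  have h1 := Int.emod_lt_of_pos v hp'
  have h2 := Int.emod_nonneg v hp'.ne'
  refine ⟨(v % p).toNat, ?_⟩
  rw [alw, mem_filter, mem_range]
  refine ⟨by omega, fun j hd => hv j ?_⟩
  rw [Int.toNat_of_nonneg h2] at hd
  have h3 : (p : ℤ) ∣ v - v % p := Int.dvd_self_sub_emod
  have h4 := dvd_sub hd h3
  have e : τ j - v = τ j - v % p - (v - v % p) := by ring
  rw [e]
  exact h4

theorem sum_alw {K : ℕ} (τ : Fin K → ℤ) (p : ℕ) (hp : 0 < p) (t : ℝ) (ht1 : t ≤ 1) (k : ℤ) :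
    ∑ r ∈ alw τ p, (if (p : ℤ) ∣ k - (r : ℤ) then t else 1) ≤ ((alw τ p).card : ℝ) * rho τ t p k := by
  have hp' : (0 : ℤ) < p := by exact_mod_cast hp
  have hp0 : (0 : ℝ) < p := by exact_mod_cast hp
  unfold rho
  split_ifs with h
  · obtain ⟨j, hj⟩ := h
    have h1 : ∀ r ∈ alw τ p, (if (p : ℤ) ∣ k - (r : ℤ) then t else (1 : ℝ)) = 1 := by
      intro r hr
      rw [alw, mem_filter] at hr
      rw [if_neg]
      intro hd
      apply hr.2 j
      have := dvd_sub hd hj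
      have e : τ j - (r : ℤ) = k - r - (k - τ j) := by ring
      rw [e]
      exact this
    rw [sum_congr rfl h1, sum_const, nsmul_eq_mul]
  · push Not at h
    set s : ℕ := (k % (p : ℤ)).toNat with hs
    have h1 := Int.emod_lt_of_pos k hp'
    have h2 := Int.emod_nonneg k hp'.ne'
    have hs' : (s : ℤ) = k % (p : ℤ) := Int.toNat_of_nonneg h2
    have hks : (p : ℤ) ∣ k - (s : ℤ) := by rw [hs']; exact Int.dvd_self_sub_emod
    have hsm : s ∈ alw τ p := by
      rw [alw, mem_filter, mem_range]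
      refine ⟨by omega, fun j hd => h j ?_⟩
      have := dvd_sub hks hd
      have e : k - τ j = k - (s : ℤ) - (τ j - s) := by ring
      rw [e]
      exact this
    have h3 : ∀ r ∈ alw τ p, (if (p : ℤ) ∣ k - (r : ℤ) then t else (1 : ℝ)) =
        1 + (if r = s then t - 1 else 0) := by
      intro r hr
      rw [alw, mem_filter, mem_range] at hr
      have h4 : ((p : ℤ) ∣ k - (r : ℤ)) ↔ r = s := by
        constructor
        · intro h
          have h5 : k % (p : ℤ) = (r : ℤ) % (p : ℤ) :=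
            Int.emod_eq_emod_iff_emod_sub_eq_zero.2 (Int.emod_eq_zero_of_dvd h)
          have h6 : (r : ℤ) % (p : ℤ) = r := Int.emod_eq_of_lt (by omega) (by exact_mod_cast hr.1)
          omega
        · intro h
          rw [h]
          exact hks
      by_cases h5 : r = s
      · rw [if_pos (h4.2 h5), if_pos h5]; ring
      · rw [if_neg (fun h => h5 (h4.1 h)), if_neg h5]; ring
    rw [sum_congr rfl h3, sum_add_distrib, sum_const, nsmul_eq_mul, mul_one,
      sum_ite_eq' (alw τ p) s, if_pos hsm]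
    have h6 : ((alw τ p).card : ℝ) ≤ p := by
      have : (alw τ p).card ≤ p := (card_filter_le _ _).trans (by simp)
      exact_mod_cast this
    have h7 : ((alw τ p).card : ℝ) * ((1 - t) / p) ≤ 1 - t := by
      rw [← mul_div_assoc, div_le_iff₀ hp0, mul_comm]
      have : 0 ≤ 1 - t := by linarith
      gcongr
    linarith

/-- averaging over the allowed classes, prime by prime -/
theorem wsieveR {ι : Type*} (I : Finset ι) (k : ι → ℤ) (t : ℝ) (ht : 0 ≤ t) (ht1 : t ≤ 1)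
    {K : ℕ} (τ : Fin K → ℤ) (S : Finset ℕ) (hS : ∀ p ∈ S, p.Prime)
    (hadm : ∀ p ∈ S, ∃ v : ℤ, ∀ j, ¬ (p : ℤ) ∣ τ j - v) :
    ∀ W : ι → ℝ, (∀ i ∈ I, 0 ≤ W i) →
    ∃ b : ℕ → ℤ, (∀ p ∈ S, ∀ j, ¬ (p : ℤ) ∣ τ j - b p) ∧
      ∑ i ∈ I, W i * t ^ (hits S b (k i)) ≤ ∑ i ∈ I, W i * ∏ p ∈ S, rho τ t p (k i) := by
  induction S using Finset.induction_on with
  | empty => intro W _; exact ⟨fun _ => 0, by simp, by simp [hits]⟩
  | insert p S hpS ih =>
    intro W hW
    have hp := hS p (mem_insert_self _ _)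
    have hp0 : (0 : ℝ) < p := by exact_mod_cast hp.pos
    have hS' : ∀ q ∈ S, q.Prime := fun q hq => hS q (mem_insert_of_mem hq)
    set P : ι → ℝ := fun i => ∏ q ∈ S, rho τ t q (k i) with hP
    have hPn : ∀ i ∈ I, 0 ≤ P i := fun i hi =>
      prod_nonneg fun q hq => rho_nonneg τ t ht q (hS' q hq) _
    -- average over the class modulo p
    have hav : ∃ c ∈ alw τ p, ∑ i ∈ I, W i * P i * (if (p : ℤ) ∣ k i - (c : ℤ) then t else 1) ≤
        ∑ i ∈ I, W i * P i * rho τ t p (k i) := by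
      apply exists_le_of_sum_le (alw_ne τ p hp.pos (hadm p (mem_insert_self _ _)))
      rw [sum_comm, sum_const, nsmul_eq_mul, mul_sum]
      apply sum_le_sum
      intro i hi
      rw [← mul_sum]
      have h1 := sum_alw τ p hp.pos t ht1 (k i)
      have h2 : 0 ≤ W i * P i := mul_nonneg (hW i hi) (hPn i hi)
      calc W i * P i * ∑ r ∈ alw τ p, (if (p : ℤ) ∣ k i - (r : ℤ) then t else 1) ≤
          W i * P i * (((alw τ p).card : ℝ) * rho τ t p (k i)) := by gcongr
        _ = _ := by ring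
    obtain ⟨c, hcm, hc⟩ := hav
    obtain ⟨b, hb1, hb⟩ := ih hS' (fun q hq => hadm q (mem_insert_of_mem hq))
      (fun i => W i * (if (p : ℤ) ∣ k i - (c : ℤ) then t else 1))
      (by
        intro i hi
        apply mul_nonneg (hW i hi)
        split_ifs
        · exact ht
        · exact zero_le_one)
    refine ⟨Function.update b p c, ?_, ?_⟩
    · intro q hq j
      rcases mem_insert.1 hq with rfl | hq
      · rw [Function.update_self]
        rw [alw, mem_filter] at hcm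
        exact hcm.2 j
      · have h9 : q ≠ p := fun h => hpS (h ▸ hq)
        rw [Function.update_of_ne h9]
        exact hb1 q hq j
    have h1 : ∀ i ∈ I, W i * t ^ (hits (insert p S) (Function.update b p c) (k i)) =
        W i * (if (p : ℤ) ∣ k i - (c : ℤ) then t else 1) * t ^ (hits S b (k i)) := by
      intro i _
      have h2 : S.filter (fun q : ℕ => (q : ℤ) ∣ k i - Function.update b p (c : ℤ) q) =
          S.filter (fun q : ℕ => (q : ℤ) ∣ k i - b q) := by
        apply filter_congr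
        intro q hq
        have h9 : q ≠ p := fun h => hpS (h ▸ hq)
        rw [Function.update_of_ne h9]
      unfold hits
      rw [filter_insert, Function.update_self, h2]
      split_ifs with h
      · rw [card_insert_of_notMem (by simp [hpS]), pow_succ]
        ring
      · ring
    rw [sum_congr rfl h1]
    refine hb.trans ?_
    refine le_trans (le_of_eq ?_) (hc.trans (le_of_eq ?_))
    · apply sum_congr rfl
      intro i _
      simp only [hP]
      ring
    · apply sum_congr rfl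
      intro i _
      rw [prod_insert hpS]
      simp only [hP]
      ring

theorem rho_le {K : ℕ} (τ : Fin K → ℤ) (t : ℝ) (ht : 0 ≤ t) (S : Finset ℕ)
    (hS : ∀ p ∈ S, p.Prime) (z : ℤ) :
    ∏ p ∈ S, rho τ t p z ≤ (∏ p ∈ S, (1 - (1 - t) / (p : ℝ))) * GG τ S z := by
  unfold GG
  rw [← prod_mul_distrib]
  apply prod_le_prod
  · intro p hp
    exact rho_nonneg τ t ht p (hS p hp) z
  · intro p hp
    have hp2 : (2 : ℝ) ≤ p := by exact_mod_cast (hS p hp).two_le
    have hp0 : (0 : ℝ) < p := by linarith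
    unfold rho
    split_ifs
    · have h1 : (1 : ℝ) ≤ (1 - 1 / p) * (1 + 2 / p) := by
        have : (1 - 1 / (p : ℝ)) * (1 + 2 / p) = 1 + (p - 2) / (p * p) := by field_simp; ring
        rw [this]
        have : 0 ≤ ((p : ℝ) - 2) / (p * p) := div_nonneg (by linarith) (by positivity)
        linarith
      refine h1.trans ?_
      have h2 : (1 - t) / (p : ℝ) ≤ 1 / p := by
        gcongr
        linarith
      gcongr
    · rw [mul_one]

/-- few large primes divide a small integer -/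
theorem GG_hi {K : ℕ} (τ : Fin K → ℤ) (S : Finset ℕ) (hS : ∀ p ∈ S, p.Prime) (z0 : ℕ) (hz0 : 2 ≤ z0)
    (hSz : ∀ p ∈ S, z0 < p) (H : ℝ) (z : ℤ) (hz : ∀ j, z ≠ τ j) (hzH : ∀ j, |((z - τ j : ℤ) : ℝ)| ≤ H)
    (hK : 2 * (K : ℝ) * Real.log H ≤ z0 * Real.log z0) : GG τ S z ≤ Real.exp 1 := by
  have hz0r : (2 : ℝ) ≤ z0 := by exact_mod_cast hz0
  have hz00 : (0 : ℝ) < z0 := by linarith
  have hl0 : 0 < Real.log z0 := Real.log_pos (by linarith)
  set Bd : Finset ℕ := S.filter (fun p : ℕ => ∃ j, (p : ℤ) ∣ z - τ j) with hBd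
  have h1 : GG τ S z ≤ Real.exp (∑ p ∈ Bd, 2 / (p : ℝ)) := by
    unfold GG
    rw [Real.exp_sum, hBd, prod_filter]
    apply prod_le_prod
    · intro p _; split_ifs <;> positivity
    · intro p _
      split_ifs
      · have := Real.add_one_le_exp (2 / (p : ℝ))
        linarith
      · exact le_rfl
  refine h1.trans (Real.exp_le_exp.2 ?_)
  have h2 : (Bd.card : ℝ) ≤ K * (Real.log H / Real.log z0) := by
    have h3 : Bd ⊆ (univ : Finset (Fin K)).biUnion (fun j => S.filter (fun p : ℕ => (p : ℤ) ∣ z - τ j)) := by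
      intro p hp
      rw [hBd, mem_filter] at hp
      obtain ⟨hpS, j, hj⟩ := hp
      rw [mem_biUnion]
      exact ⟨j, mem_univ j, mem_filter.2 ⟨hpS, hj⟩⟩
    have h4 : (Bd.card : ℝ) ≤ ∑ j : Fin K, ((S.filter (fun p : ℕ => (p : ℤ) ∣ z - τ j)).card : ℝ) := by
      exact_mod_cast (card_le_card h3).trans card_biUnion_le
    have h5 : ∀ j : Fin K, ((S.filter (fun p : ℕ => (p : ℤ) ∣ z - τ j)).card : ℝ) ≤
        Real.log H / Real.log z0 := by
      intro j
      set T := S.filter (fun p : ℕ => (p : ℤ) ∣ z - τ j) with hT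
      have hne : z - τ j ≠ 0 := sub_ne_zero.2 (hz j)
      have h6 : ((∏ p ∈ T, p : ℕ) : ℤ) ∣ z - τ j := by
        apply (prod_dvd_iff T (fun p hp => hS p (mem_filter.1 hp).1) _).1
        intro p hp
        exact (mem_filter.1 hp).2
      have h7 : ((∏ p ∈ T, p : ℕ) : ℝ) ≤ H := by
        have h8 : (∏ p ∈ T, p) ≤ (z - τ j).natAbs := by
          apply Nat.le_of_dvd (Int.natAbs_pos.2 hne)
          exact Int.natCast_dvd.1 h6
        have h9 : ((∏ p ∈ T, p : ℕ) : ℝ) ≤ ((z - τ j).natAbs : ℝ) := by exact_mod_cast h8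
        refine h9.trans ?_
        rw [Nat.cast_natAbs, Int.cast_abs]
        exact hzH j
      have h10 : (z0 : ℝ) ^ T.card ≤ ((∏ p ∈ T, p : ℕ) : ℝ) := by
        push_cast
        rw [← prod_const]
        apply prod_le_prod
        · intro p _; positivity
        · intro p hp
          exact_mod_cast (hSz p (mem_filter.1 hp).1).le
      have h11 := Real.log_le_log (by positivity) (h10.trans h7)
      rw [Real.log_pow] at h11
      rw [le_div_iff₀ hl0]
      exact h11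
    refine h4.trans ((sum_le_sum fun j _ => h5 j).trans ?_)
    rw [sum_const, card_univ, Fintype.card_fin, nsmul_eq_mul]
  have h3 : ∑ p ∈ Bd, 2 / (p : ℝ) ≤ Bd.card * (2 / z0) := by
    rw [← nsmul_eq_mul]
    apply sum_le_card_nsmul
    intro p hp
    have : (z0 : ℝ) ≤ p := by exact_mod_cast (hSz p (mem_filter.1 hp).1).le
    gcongr
  calc ∑ p ∈ Bd, 2 / (p : ℝ) ≤ Bd.card * (2 / z0) := h3
    _ ≤ (K * (Real.log H / Real.log z0)) * (2 / z0) := by gcongr
    _ = (2 * K * Real.log H) / (z0 * Real.log z0) := by field_simp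
    _ ≤ 1 := by
      rw [div_le_one (by positivity)]
      exact hK

theorem GG_split {K : ℕ} (τ : Fin K → ℤ) (S : Finset ℕ) (z0 : ℕ) (z : ℤ) :
    GG τ S z = GG τ (S.filter (fun p => p ≤ z0)) z * GG τ (S.filter (fun p => ¬ p ≤ z0)) z := by
  unfold GG
  rw [prod_filter_mul_prod_filter_not]

/-- one shift and one choice of classes for several sets -/
theorem multiR (K : ℕ) : ∃ C : ℝ, 1 ≤ C ∧ ∀ {ι : Type} (I : Finset ι) (B : ι → Finset ℤ)
    (S : Finset ℕ), (∀ p ∈ S, p.Prime) → ∀ (τ : Fin K → ℤ),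
    (∀ p ∈ S, ∃ v : ℤ, ∀ j, ¬ (p : ℤ) ∣ τ j - v) → ∀ (t : ℝ), 0 < t → t ≤ 1 →
    ∀ (z0 M : ℕ) (H : ℝ), 2 ≤ z0 → 1 ≤ M → C ^ (S.filter (fun p => p ≤ z0)).card ≤ M →
    2 * (K : ℝ) * Real.log H ≤ z0 * Real.log z0 →
    (∀ i ∈ I, ∀ m ∈ B i, ∀ s : ℕ, s ≤ M → ∀ j, |((m - s - τ j : ℤ) : ℝ)| ≤ H) →
    ∃ (s : ℕ) (b : ℕ → ℤ), 1 ≤ s ∧ s ≤ M ∧ (∀ p ∈ S, ∀ j, ¬ (p : ℤ) ∣ τ j - b p) ∧
      ∀ i ∈ I, ∑ m ∈ (B i).filter (fun m => ∀ j, m - (s : ℤ) ≠ τ j), t ^ (hits S b (m - (s : ℤ))) ≤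
        C * (I.card : ℝ) ^ 2 * (∏ p ∈ S, (1 - (1 - t) / (p : ℝ))) * ((B i).card : ℝ) := by
  obtain ⟨C, hC, hGG⟩ := GG_avg K
  refine ⟨C * Real.exp 1, ?_, ?_⟩
  · have : 1 ≤ Real.exp 1 := Real.one_le_exp (by norm_num)
    nlinarith
  intro ι I B S hS τ hadm t ht ht1 z0 M H hz0 hM hCM hKH hBH
  have he1 : 1 ≤ Real.exp 1 := Real.one_le_exp (by norm_num)
  set Lo := S.filter (fun p => p ≤ z0) with hLo
  have hLoP : ∀ p ∈ Lo, p.Prime := fun p hp => hS p (mem_filter.1 hp).1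
  have hCM' : C ^ Lo.card ≤ M := by
    refine le_trans ?_ hCM
    apply pow_le_pow_left₀ (by linarith)
    nlinarith
  set Vt := ∏ p ∈ S, (1 - (1 - t) / (p : ℝ)) with hVt
  have hVt0 : 0 ≤ Vt := prod_nonneg fun p hp => by
    have h0 : (0 : ℝ) < p := by exact_mod_cast (hS p hp).pos
    have h1 : (1 : ℝ) ≤ p := by exact_mod_cast (hS p hp).one_le
    rw [sub_nonneg, div_le_one h0]
    linarith
  have hM0 : (0 : ℝ) < M := by exact_mod_cast hM
  -- the shift
  have hshift : ∃ s ∈ Icc 1 M, ∑ i ∈ I, (1 / ((B i).card : ℝ)) * ∑ m ∈ B i, GG τ Lo (m - (s : ℤ)) ≤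
      C * I.card := by
    apply exists_le_of_sum_le (s := Icc 1 M) ⟨1, mem_Icc.2 ⟨le_rfl, hM⟩⟩
    rw [sum_comm, sum_const, Nat.card_Icc, nsmul_eq_mul]
    have h1 : ∀ i ∈ I, ∑ s ∈ Icc 1 M, (1 / ((B i).card : ℝ)) * ∑ m ∈ B i, GG τ Lo (m - (s : ℤ)) ≤
        C * M := by
      intro i _
      rw [← mul_sum, sum_comm]
      have h2 : ∑ m ∈ B i, ∑ s ∈ Icc 1 M, GG τ Lo (m - (s : ℤ)) ≤ (B i).card * (C * M) := by
        rw [← nsmul_eq_mul]
        apply sum_le_card_nsmul
        intro m _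
        exact hGG τ Lo hLoP M m hCM'
      rcases Nat.eq_zero_or_pos (B i).card with h | h
      · rw [h]
        simp only [Nat.cast_zero, div_zero, zero_mul]
        positivity
      · have h0 : (0 : ℝ) < (B i).card := by exact_mod_cast h
        rw [one_div, inv_mul_le_iff₀ h0]
        exact h2
    refine (sum_le_sum h1).trans ?_
    rw [sum_const, nsmul_eq_mul]
    have : ((M + 1 - 1 : ℕ) : ℝ) = M := by simp
    rw [this]
    apply le_of_eq
    ring
  obtain ⟨s, hsM, hs⟩ := hshift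
  rw [mem_Icc] at hsM
  set A : ι → Finset ℤ := fun i => (B i).filter (fun m => ∀ j, m - (s : ℤ) ≠ τ j) with hA
  obtain ⟨b, hb1, hb⟩ := wsieveR (I.sigma A) (fun x => x.2 - (s : ℤ)) t ht.le ht1 τ S hS hadm
    (fun x => 1 / ((B x.1).card : ℝ)) (fun _ _ => by positivity)
  refine ⟨s, b, hsM.1, hsM.2, hb1, fun i hi => ?_⟩
  rw [sum_sigma, sum_sigma] at hb
  have hpt : ∀ i ∈ I, ∀ m ∈ A i, ∏ p ∈ S, rho τ t p (m - (s : ℤ)) ≤
      Vt * (Real.exp 1 * GG τ Lo (m - (s : ℤ))) := by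
    intro i hi m hm
    rw [hA, mem_filter] at hm
    refine (rho_le τ t ht.le S hS _).trans ?_
    rw [GG_split τ S z0]
    have h1 : GG τ (S.filter (fun p => ¬ p ≤ z0)) (m - (s : ℤ)) ≤ Real.exp 1 := by
      apply GG_hi τ _ (fun p hp => hS p (mem_filter.1 hp).1) z0 hz0 _ H _ hm.2
      · intro j
        exact hBH i hi m hm.1 s hsM.2 j
      · exact hKH
      · intro p hp
        exact not_le.1 (mem_filter.1 hp).2
    have h2 := GG_one τ Lo (m - (s : ℤ))
    calc Vt * (GG τ Lo (m - (s : ℤ)) * GG τ (S.filter (fun p => ¬ p ≤ z0)) (m - (s : ℤ))) ≤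
        Vt * (GG τ Lo (m - (s : ℤ)) * Real.exp 1) := by gcongr
      _ = _ := by ring
  have h1 : ∑ i ∈ I, ∑ m ∈ A i, 1 / ((B i).card : ℝ) * ∏ p ∈ S, rho τ t p (m - (s : ℤ)) ≤
      Vt * (Real.exp 1 * (C * I.card)) := by
    have h2 : ∀ i ∈ I, ∑ m ∈ A i, 1 / ((B i).card : ℝ) * ∏ p ∈ S, rho τ t p (m - (s : ℤ)) ≤
        Vt * (Real.exp 1 * ((1 / ((B i).card : ℝ)) * ∑ m ∈ B i, GG τ Lo (m - (s : ℤ)))) := by
      intro i hi
      have h3 : ∑ m ∈ A i, 1 / ((B i).card : ℝ) * ∏ p ∈ S, rho τ t p (m - (s : ℤ)) ≤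
          ∑ m ∈ A i, 1 / ((B i).card : ℝ) * (Vt * (Real.exp 1 * GG τ Lo (m - (s : ℤ)))) := by
        apply sum_le_sum
        intro m hm
        have := hpt i hi m hm
        have h0 : 0 ≤ 1 / ((B i).card : ℝ) := by positivity
        gcongr
      refine h3.trans ?_
      have h4 : ∑ m ∈ A i, 1 / ((B i).card : ℝ) * (Vt * (Real.exp 1 * GG τ Lo (m - (s : ℤ)))) ≤
          ∑ m ∈ B i, 1 / ((B i).card : ℝ) * (Vt * (Real.exp 1 * GG τ Lo (m - (s : ℤ)))) := by
        apply sum_le_sum_of_subset_of_nonneg (filter_subset _ _)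
        intro m _ _
        have := GG_one τ Lo (m - (s : ℤ))
        positivity
      refine h4.trans (le_of_eq ?_)
      rw [mul_sum, mul_sum, mul_sum]
      apply sum_congr rfl
      intro m _
      ring
    refine (sum_le_sum h2).trans ?_
    rw [← mul_sum, ← mul_sum]
    gcongr
  have h2 := hb.trans h1
  have h3 : ∑ m ∈ A i, 1 / ((B i).card : ℝ) * t ^ (hits S b (m - (s : ℤ))) ≤
      Vt * (Real.exp 1 * (C * I.card)) := by
    refine le_trans ?_ h2
    exact single_le_sum (f := fun i => ∑ m ∈ A i, 1 / ((B i).card : ℝ) * t ^ (hits S b (m - (s : ℤ))))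
      (fun j _ => sum_nonneg fun k _ => by positivity) hi
  rw [← mul_sum] at h3
  have hI1 : (I.card : ℝ) ≤ (I.card : ℝ) ^ 2 := by
    have : 1 ≤ I.card := card_pos.2 ⟨i, hi⟩
    have : (1 : ℝ) ≤ I.card := by exact_mod_cast this
    nlinarith
  rcases Nat.eq_zero_or_pos (B i).card with h | h
  · rw [card_eq_zero] at h
    rw [h]; simp
  · have h4 : (0 : ℝ) < (B i).card := by exact_mod_cast h
    rw [one_div, inv_mul_le_iff₀ h4] at h3
    refine h3.trans ?_
    calc ((B i).card : ℝ) * (Vt * (Real.exp 1 * (C * I.card))) =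
        C * Real.exp 1 * I.card * Vt * (B i).card := by ring
      _ ≤ C * Real.exp 1 * (I.card : ℝ) ^ 2 * Vt * (B i).card := by gcongr

end Pool.Agent.H80.Pc
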