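import Pool.Agent.H80.Pc.Des
import Pool.Agent.H80.Q.PreK

set_option autoImplicit false

/-! # The choice of the classes of the small primes around a tuple (helper80) -/

namespace Pool.Agent.H80.Pc

open Finset Pool.Agent.H361R2.PA TH415.AP Pool.Agent.H80.Pk Pool.Agent.H398R2.RK
open Pool.Agent.H318R2.Cr hiding MM
open Pool.Agent.H256R2.SC (ff)

open scoped Classical

/-- the radii -/
noncomputable def RT (X : ℝ) : ℕ → ℝ
  | 0 => ff X
  | 1 => ff X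
  | 2 => Real.log X * Real.log (Real.log X) * Real.log (Real.log (Real.log (Real.log X))) /
      (Real.log (Real.log (Real.log X))) ^ 2
  | (i + 3) => Real.log X / (Real.log (Real.log (Real.log X))) ^ i

theorem radT (X u₂ u₃ u₄ : ℝ) (h2 : u₂ = Real.log (Real.log X)) (h3 : u₃ = Real.log u₂)
    (h4 : u₄ = Real.log u₃) (hL : 0 < Real.log X) (hu₂ : 1 ≤ u₂) (hu₃ : 1 ≤ u₃) (hu₄ : 1 ≤ u₄)
    (h43 : u₄ ≤ u₃) (h32 : u₃ ≤ u₂) :
    (∀ j : ℕ, 1 ≤ j → RT X j * pf u₂ u₃ u₄ (j - 1) ≤ Real.log X) ∧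
    (∀ j : ℕ, 2 ≤ j → RT X j * pf u₂ u₃ u₄ (j - 2) ≤ Real.log X / u₂) := by
  set L1 := Real.log X with hL1
  have hu₂0 : 0 < u₂ := by linarith
  have hu₃0 : 0 < u₃ := by linarith
  have hu₄0 : 0 < u₄ := by linarith
  have hF : ff X = L1 * u₂ ^ 2 * u₄ / u₃ ^ 2 := by
    unfold ff
    rw [h4, h3, h2]
  refine ⟨?_, ?_⟩
  · intro j hj
    rcases j with _ | _ | _ | i
    · omega
    · change ff X * pf u₂ u₃ u₄ 0 ≤ L1
      rw [hF, pf, if_pos rfl]
      apply le_of_eq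
      field_simp
    · change L1 * Real.log L1 * Real.log (Real.log (Real.log L1)) / (Real.log (Real.log L1)) ^ 2 *
        pf u₂ u₃ u₄ 1 ≤ L1
      rw [← h2, ← h3, ← h4, pf, if_neg (by norm_num)]
      simp only [Nat.sub_self, pow_zero]
      have e1 : L1 * u₂ * u₄ / u₃ ^ 2 * (1 / u₂) = L1 * (u₄ / u₃ ^ 2) := by field_simp
      rw [e1]
      have e2 : u₄ / u₃ ^ 2 ≤ 1 := by
        rw [div_le_one (by positivity)]
        have : u₃ ≤ u₃ ^ 2 := le_self_pow₀ hu₃ (by norm_num)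
        linarith
      calc L1 * (u₄ / u₃ ^ 2) ≤ L1 * 1 := by gcongr
        _ = L1 := mul_one _
    · change L1 / (Real.log (Real.log L1)) ^ i * pf u₂ u₃ u₄ (i + 2) ≤ L1
      rw [← h2, ← h3, pf, if_neg (by omega), show i + 2 - 1 = i + 1 by omega]
      have e1 : L1 / u₃ ^ i * (u₃ ^ (i + 1) / u₂) = L1 * (u₃ / u₂) := by
        rw [pow_succ]; field_simp
      rw [e1]
      have e2 : u₃ / u₂ ≤ 1 := by rw [div_le_one hu₂0]; exact h32
      calc L1 * (u₃ / u₂) ≤ L1 * 1 := by gcongr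
        _ = L1 := mul_one _
  · intro j hj
    rcases j with _ | _ | _ | i
    · omega
    · omega
    · change L1 * Real.log L1 * Real.log (Real.log (Real.log L1)) / (Real.log (Real.log L1)) ^ 2 *
        pf u₂ u₃ u₄ 0 ≤ L1 / u₂
      rw [← h2, ← h3, ← h4, pf, if_pos rfl]
      apply le_of_eq
      field_simp
    · change L1 / (Real.log (Real.log L1)) ^ i * pf u₂ u₃ u₄ (i + 1) ≤ L1 / u₂
      rw [← h2, ← h3, pf, if_neg (by omega), show i + 1 - 1 = i by omega]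
      apply le_of_eq
      field_simp

theorem RT_nonneg (X : ℝ) (hL : 0 < Real.log X) (h1 : 1 ≤ Real.log (Real.log X))
    (h3 : 1 ≤ Real.log (Real.log (Real.log X)))
    (h4 : 1 ≤ Real.log (Real.log (Real.log (Real.log X)))) (hff : 0 ≤ ff X) :
    ∀ j, 0 ≤ RT X j := by
  intro j
  rcases j with _ | _ | _ | i
  · exact hff
  · exact hff
  · change 0 ≤ Real.log X * Real.log (Real.log X) * Real.log (Real.log (Real.log (Real.log X))) /
      (Real.log (Real.log (Real.log X))) ^ 2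
    positivity
  · change 0 ≤ Real.log X / (Real.log (Real.log (Real.log X))) ^ i
    positivity

theorem preT (k Kt T₀ : ℕ) (hk : 2 ≤ k) : ∀ ε : ℝ, 0 < ε → ∃ c : ℝ, 0 < c ∧ ∃ X₀ : ℝ, ∀ X : ℝ,
    X₀ ≤ X → ∀ (τ : Fin Kt → ℤ), (∀ j, 0 ≤ τ j ∧ τ j ≤ T₀) →
    (∀ p : ℕ, p.Prime → ∃ v : ℤ, ∀ j, ¬ (p : ℤ) ∣ τ j - v) →
    ∀ E : Finset ℕ,
    ∑ p ∈ MM ⌊Real.exp (WW (Real.log X / Real.log (Real.log X)))⌋₊
      ⌊Real.log X / Real.log (Real.log X)⌋₊ ∩ E, 1 / (p : ℝ) ≤ 8 / Real.log (Real.log X) →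
    1 / 4 ≤ ∏ p ∈ Pz ⌊Real.exp (WW (Real.log X / Real.log (Real.log X)))⌋₊ ∩ E, (1 - 1 / (p : ℝ)) →
    (((Ioc ⌊Real.log X / Real.log (Real.log X)⌋₊ ⌊Real.log X / 1000⌋₊).filter Nat.Prime ∩ E).card : ℝ) ≤
      Real.log X / Real.log (Real.log X) / 8000 →
    ∃ b : ℕ → ℤ, (∀ p ∈ Pz ⌊Real.log X / 1000⌋₊ \ E, ∀ j, ¬ (p : ℤ) ∣ τ j - b p) ∧
      ∀ j : ℕ, 1 ≤ j → j ≤ k →
        (((Icc (-⌊c * RT X j⌋) ⌊c * RT X j⌋).filter (fun m : ℤ => (∀ i, m ≠ τ i) ∧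
          hits (Pz ⌊Real.log X / 1000⌋₊ \ E) b m + 1 ≤ j)).card : ℝ) ≤ ε * Real.log X ∧
        ∀ m : ℤ, |m| ≤ ⌊c * RT X j⌋ → (∀ i, m ≠ τ i) →
          j ≤ hits (Pz ⌊Real.log X / 1000⌋₊ \ E) b m + 1 := by
  intro ε hε
  obtain ⟨C, hC, X₁, hpro⟩ := profileR k k Kt T₀ hk
  obtain ⟨d₁, d₂, hd₁, hd₁₂, hVV⟩ := cz_bounds
  have hk0 : (0 : ℝ) < k := by exact_mod_cast (by omega : 0 < k)
  have hKt0 : (0 : ℝ) ≤ Kt := Nat.cast_nonneg Kt
  have hkk : (0 : ℝ) < k + Kt := by positivity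
  set c : ℝ := min (1 / 2) (min (ε / C) (1 / (8000 * k * ((k + Kt) * C)))) with hc
  have hc0 : 0 < c := by positivity
  have hc1 : c ≤ 1 / 2 := min_le_left _ _
  have hcA : C * c ≤ ε := by
    have : c ≤ ε / C := (min_le_right _ _).trans (min_le_left _ _)
    rw [le_div_iff₀ hC] at this
    linarith
  have hcB : k * ((k + Kt) * (C * c)) ≤ 1 / 8000 := by
    have : c ≤ 1 / (8000 * k * ((k + Kt) * C)) := (min_le_right _ _).trans (min_le_right _ _)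
    rw [le_div_iff₀ (by positivity)] at this
    rw [le_div_iff₀ (by norm_num)]
    linarith
  set KK : ℝ := 200000 + 2 / c + T₀ with hKK
  have hT0 : (0 : ℝ) ≤ T₀ := Nat.cast_nonneg T₀
  obtain ⟨X₂, hsz⟩ := sizes KK (2 * k) (by omega) d₁ d₂ hd₁ hd₁₂ hVV
  refine ⟨c, hc0, max X₁ X₂, fun X hX τ hτ hadm E hEa hEb hEc => ?_⟩
  have H := hsz X ((le_max_right _ _).trans hX)
  have hpro' := hpro X ((le_max_left _ _).trans hX) τ hτ hadm E hEa hEb
  set L1 := Real.log X with hL1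
  set u₂ := Real.log L1 with hu₂
  set u₃ := Real.log u₂ with hu₃
  set u₄ := Real.log u₃ with hu₄
  have h2c : 0 < 2 / c := by positivity
  have H3 : Sz 200000 (2 * k) d₁ d₂ X u₂ u₃ u₄ (L1 / u₂) (WW (L1 / u₂))
      ⌊Real.exp (WW (L1 / u₂))⌋₊ ⌊L1 / u₂⌋₊ := Sz_mono (by linarith) H
  have h4 := H.hK4
  have h43 := H.h43
  have h32 := H.h32
  have hu₄1 : 1 ≤ u₄ := by linarith
  have hu₃1 : 1 ≤ u₃ := by linarith
  have hu₂1 : 1 ≤ u₂ := by linarith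
  have hu₂0 : 0 < u₂ := by linarith
  have hu₃0 : 0 < u₃ := by linarith
  have hu₄0 : 0 < u₄ := by linarith
  have hLu : KK * u₂ ≤ L1 := by
    have := H.h2k 1 (by omega)
    rwa [pow_one] at this
  have hKK0 : 0 < KK := by linarith
  have hL0 : 0 < L1 := by
    have : 0 < KK * u₂ := by positivity
    linarith
  have hLu4 : KK * u₂ ^ 4 ≤ L1 := H.h2k 4 (by omega)
  have hq : u₃ ^ 2 ≤ u₂ ^ (1 / 12 : ℝ) := by
    have q1 := H.h3k 2 (by omega)
    have q3 : 1 * u₃ ^ 2 ≤ KK * u₃ ^ 2 := by gcongr; linarith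
    linarith
  obtain ⟨rA, rT⟩ := radT X u₂ u₃ u₄ rfl rfl rfl hL0 hu₂1 hu₃1 hu₄1 h43 h32
  -- bounds for the radii
  have hqu : u₂ ^ (1 / 12 : ℝ) ≤ u₂ := by
    calc u₂ ^ (1 / 12 : ℝ) ≤ u₂ ^ (1 : ℝ) := Real.rpow_le_rpow_of_exponent_le hu₂1 (by norm_num)
      _ = u₂ := Real.rpow_one _
  have hsq : u₂ ≤ u₂ ^ 2 := le_self_pow₀ hu₂1 (by norm_num)
  have h32sq : u₃ ^ 2 ≤ u₂ := hq.trans hqu
  have hF : ff X = L1 * u₂ ^ 2 * u₄ / u₃ ^ 2 := rfl
  have hFlow : L1 ≤ ff X := by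
    rw [hF, le_div_iff₀ (by positivity)]
    calc L1 * u₃ ^ 2 ≤ L1 * u₂ := by gcongr
      _ ≤ L1 * u₂ ^ 2 := by gcongr
      _ = L1 * u₂ ^ 2 * 1 := (mul_one _).symm
      _ ≤ L1 * u₂ ^ 2 * u₄ := by gcongr
  have h43sq : u₄ ≤ u₃ ^ 2 := by
    have : u₃ ≤ u₃ ^ 2 := le_self_pow₀ hu₃1 (by norm_num)
    linarith
  have hFup : ff X ≤ L1 * u₂ ^ 2 := by
    rw [hF, div_le_iff₀ (by positivity)]
    gcongr
  have hRlow : ∀ j, j ≤ k → L1 / u₃ ^ k ≤ RT X j := by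
    intro j hj
    have h0 : L1 / u₃ ^ k ≤ L1 := div_le_self hL0.le (one_le_pow₀ hu₃1)
    rcases j with _ | _ | _ | i
    · exact h0.trans hFlow
    · exact h0.trans hFlow
    · refine h0.trans ?_
      change L1 ≤ L1 * u₂ * u₄ / u₃ ^ 2
      rw [le_div_iff₀ (by positivity)]
      calc L1 * u₃ ^ 2 ≤ L1 * u₂ := by gcongr
        _ = L1 * u₂ * 1 := (mul_one _).symm
        _ ≤ L1 * u₂ * u₄ := by gcongr
    · change L1 / u₃ ^ k ≤ L1 / u₃ ^ i
      apply div_le_div_of_nonneg_left hL0.le (by positivity)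
      exact pow_le_pow_right₀ hu₃1 (by omega)
  have hRup : ∀ j, RT X j ≤ L1 * u₂ ^ 2 := by
    intro j
    have h1 : L1 ≤ L1 * u₂ ^ 2 := le_mul_of_one_le_right hL0.le (by linarith)
    rcases j with _ | _ | _ | i
    · exact hFup
    · exact hFup
    · change L1 * u₂ * u₄ / u₃ ^ 2 ≤ _
      rw [div_le_iff₀ (by positivity)]
      gcongr
    · change L1 / u₃ ^ i ≤ _
      exact (div_le_self hL0.le (one_le_pow₀ hu₃1)).trans h1
  have hR0 : ∀ j, 0 ≤ RT X j := RT_nonneg X hL0 hu₂1 hu₃1 hu₄1 (hL0.le.trans hFlow)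
  set NN : ℕ → ℕ := fun j => ⌊c * RT X j⌋₊ with hNN
  have hNfl : ∀ j, ⌊c * RT X j⌋ = (NN j : ℤ) := fun j =>
    (Int.natCast_floor_eq_floor (mul_nonneg hc0.le (hR0 j))).symm
  have hNle : ∀ j, (NN j : ℝ) ≤ c * RT X j := fun j => Nat.floor_le (mul_nonneg hc0.le (hR0 j))
  set 𝒩 : Finset ℕ := (Icc 1 k).image NN with h𝒩
  have h𝒩c : 𝒩.card ≤ k := by
    refine card_image_le.trans ?_
    simp
  have hNup : ∀ j, (NN j : ℝ) ≤ L1 * u₂ ^ 2 / 2 := by
    intro j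
    refine (hNle j).trans ?_
    calc c * RT X j ≤ 1 / 2 * RT X j := by
          have := hR0 j
          gcongr
      _ ≤ 1 / 2 * (L1 * u₂ ^ 2) := by
          have := hRup j
          gcongr
      _ = _ := by ring
  have hmem : ∀ N ∈ 𝒩, L1 / u₂ ≤ N ∧ (N : ℝ) ≤ L1 * u₂ ^ 2 / 2 := by
    intro N hN
    rw [h𝒩, mem_image] at hN
    obtain ⟨j, hj, rfl⟩ := hN
    rw [mem_Icc] at hj
    refine ⟨?_, hNup j⟩
    have hyone : 1 ≤ L1 / u₂ := by
      rw [le_div_iff₀ hu₂0]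
      have : 1 * u₂ ≤ KK * u₂ := by gcongr; linarith
      linarith
    have h1 : c * RT X j < NN j + 1 := Nat.lt_floor_add_one _
    have h2 : 2 * (L1 / u₂) ≤ c * RT X j := by
      have h3 : 2 / c * u₃ ^ k ≤ u₂ := by
        have q1 := H.h3k k (by omega)
        have q3 : 2 / c * u₃ ^ k ≤ KK * u₃ ^ k := by gcongr; linarith
        linarith
      calc 2 * (L1 / u₂) ≤ c * (L1 / u₃ ^ k) := by
            rw [← mul_div_assoc, ← mul_div_assoc, div_le_div_iff₀ hu₂0 (by positivity)]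
            have h4 : 2 * u₃ ^ k ≤ c * u₂ := by
              have h5 : c * (2 / c * u₃ ^ k) ≤ c * u₂ := by gcongr
              have h6 : c * (2 / c * u₃ ^ k) = 2 * u₃ ^ k := by field_simp
              linarith
            calc 2 * L1 * u₃ ^ k = L1 * (2 * u₃ ^ k) := by ring
              _ ≤ L1 * (c * u₂) := by gcongr
              _ = _ := by ring
        _ ≤ c * RT X j := by
          have := hRlow j hj.2
          gcongr
    linarith
  obtain ⟨b, hb0, hb⟩ := hpro' 𝒩 h𝒩c hmem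
  set Y := ⌊L1 / u₂⌋₊ with hY
  set Z := ⌊L1 / 1000⌋₊ with hZ
  -- the profile at the radii
  have hprof : ∀ j, 1 ≤ j → j ≤ k → ∀ h, h ≤ k →
      (((Icc (-(NN j : ℤ)) (NN j : ℤ)).filter (fun m => (∀ i, m ≠ τ i) ∧
        hits (Pz Y \ E) b m ≤ h)).card : ℝ) ≤
      C * c * (RT X j * pf u₂ u₃ u₄ h) := by
    intro j hj1 hjk h hhk
    have h1 := hb (NN j) (by rw [h𝒩, mem_image]; exact ⟨j, mem_Icc.2 ⟨hj1, hjk⟩, rfl⟩)
    have hpf0 : 0 ≤ pf u₂ u₃ u₄ h := by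
      unfold pf
      split_ifs <;> positivity
    have h2 : (((Icc (-(NN j : ℤ)) (NN j : ℤ)).filter (fun m => (∀ i, m ≠ τ i) ∧
        hits (Pz Y \ E) b m ≤ h)).card : ℝ) ≤ C * (NN j : ℝ) * pf u₂ u₃ u₄ h := by
      rcases Nat.eq_zero_or_pos h with rfl | hh
      · rw [pf, if_pos rfl]
        exact h1.1
      · rw [pf, if_neg (by omega)]
        exact h1.2 h hh hhk
    refine h2.trans ?_
    calc C * (NN j : ℝ) * pf u₂ u₃ u₄ h ≤ C * (c * RT X j) * pf u₂ u₃ u₄ h := by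
          have := hNle j
          gcongr
      _ = _ := by ring
  -- the designated points
  set T : Finset ℤ := (Icc 2 k).biUnion (fun j =>
    (Icc (-(NN j : ℤ)) (NN j : ℤ)).filter (fun m => (∀ i, m ≠ τ i) ∧
      hits (Pz Y \ E) b m ≤ j - 2)) with hT
  have hTc : (T.card : ℝ) ≤ k * (C * c) * (L1 / u₂) := by
    have h1 : (T.card : ℝ) ≤ ∑ j ∈ Icc 2 k, (((Icc (-(NN j : ℤ)) (NN j : ℤ)).filter
        (fun m => (∀ i, m ≠ τ i) ∧ hits (Pz Y \ E) b m ≤ j - 2)).card : ℝ) := by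
      exact_mod_cast card_biUnion_le
    refine h1.trans ?_
    have h2 : ∀ j ∈ Icc 2 k, (((Icc (-(NN j : ℤ)) (NN j : ℤ)).filter
        (fun m => (∀ i, m ≠ τ i) ∧ hits (Pz Y \ E) b m ≤ j - 2)).card : ℝ) ≤
        C * c * (L1 / u₂) := by
      intro j hj
      rw [mem_Icc] at hj
      refine (hprof j (by omega) hj.2 (j - 2) (by omega)).trans ?_
      have := rT j hj.1
      gcongr
    refine (sum_le_sum h2).trans ?_
    rw [sum_const, nsmul_eq_mul, Nat.card_Icc]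
    have h3 : ((k + 1 - 2 : ℕ) : ℝ) ≤ k := by exact_mod_cast (by omega : k + 1 - 2 ≤ k)
    calc ((k + 1 - 2 : ℕ) : ℝ) * (C * c * (L1 / u₂)) ≤ k * (C * c * (L1 / u₂)) := by gcongr
      _ = _ := by ring
  have hmany := primes_many' d₁ d₂ X u₂ u₃ u₄ (L1 / u₂) (WW (L1 / u₂)) (2 * k)
    ⌊Real.exp (WW (L1 / u₂))⌋₊ Y (by omega) H3 rfl
  have hTP : T.card * (k + Kt) ≤ ((Ioc Y Z).filter Nat.Prime \ E).card := by
    have h0 : (((Ioc Y Z).filter Nat.Prime).card : ℝ) =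
        (((Ioc Y Z).filter Nat.Prime \ E).card : ℝ) +
        (((Ioc Y Z).filter Nat.Prime ∩ E).card : ℝ) := by
      exact_mod_cast (card_sdiff_add_card_inter _ _).symm
    have h1 : ((T.card * (k + Kt) : ℕ) : ℝ) ≤ (((Ioc Y Z).filter Nat.Prime \ E).card : ℝ) := by
      push_cast
      have h2 : (T.card : ℝ) * (k + Kt) ≤ L1 / u₂ / 8000 := by
        calc (T.card : ℝ) * (k + Kt) ≤ (k * (C * c) * (L1 / u₂)) * (k + Kt) := by gcongr
          _ = k * ((k + Kt) * (C * c)) * (L1 / u₂) := by ring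
          _ ≤ 1 / 8000 * (L1 / u₂) := by gcongr
          _ = _ := by ring
      have h3 : L1 / u₂ / 4000 = L1 / u₂ / 8000 + L1 / u₂ / 8000 := by ring
      linarith
    exact_mod_cast h1
  have hYZ : Y ≤ Z := by
    apply Nat.floor_le_floor
    apply div_le_div_of_nonneg_left hL0.le (by norm_num) (by linarith)
  have hTτ : ∀ m ∈ T, ∀ j, m ≠ τ j ∧ (m - τ j).natAbs < (Y + 1) ^ 2 := by
    intro m hm j
    rw [hT, mem_biUnion] at hm
    obtain ⟨i, hi, hmi⟩ := hm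
    rw [mem_filter, mem_Icc] at hmi
    refine ⟨hmi.2.1 j, ?_⟩
    obtain ⟨t1, t2⟩ := hτ j
    have e1 : (((m - τ j).natAbs : ℕ) : ℝ) ≤ NN i + T₀ := by
      have : (m - τ j).natAbs ≤ NN i + T₀ := by omega
      exact_mod_cast this
    have e2 : L1 / u₂ < (Y : ℝ) + 1 := Nat.lt_floor_add_one _
    have e3 : (L1 / u₂) ^ 2 ≤ ((Y : ℝ) + 1) ^ 2 := by gcongr
    have e4 : (NN i : ℝ) + T₀ < (L1 / u₂) ^ 2 := by
      have g1 := hNup i
      have g2 : (T₀ : ℝ) ≤ L1 * u₂ ^ 2 / 2 := by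
        have g3 : (T₀ : ℝ) ≤ L1 / 2 := by
          have : (2 * T₀ : ℝ) ≤ KK * u₂ := by nlinarith
          linarith
        have g4 : L1 / 2 ≤ L1 * u₂ ^ 2 / 2 := by
          have : L1 ≤ L1 * u₂ ^ 2 := le_mul_of_one_le_right hL0.le (by linarith)
          linarith
        linarith
      have g5 : L1 * u₂ ^ 2 < (L1 / u₂) ^ 2 := by
        rw [div_pow, lt_div_iff₀ (by positivity)]
        have g6 : u₂ ^ 4 < L1 := by
          have : 1 * u₂ ^ 4 < KK * u₂ ^ 4 := by gcongr; linarith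
          linarith
        calc L1 * u₂ ^ 2 * u₂ ^ 2 = L1 * u₂ ^ 4 := by ring
          _ < L1 * L1 := by gcongr
          _ = L1 ^ 2 := by ring
      linarith
    have e5 : (((m - τ j).natAbs : ℕ) : ℝ) < (((Y + 1) ^ 2 : ℕ) : ℝ) := by
      push_cast
      linarith
    exact_mod_cast e5
  obtain ⟨b', hb1, hb2, hb3⟩ := designateR Kt Y Z k hYZ τ hadm E b hb0 T hTτ hTP
  refine ⟨b', hb1, fun j hj1 hjk => ?_⟩
  rw [hNfl j]
  refine ⟨?_, ?_⟩
  · have h1 : (Icc (-(NN j : ℤ)) (NN j : ℤ)).filter (fun m => (∀ i, m ≠ τ i) ∧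
        hits (Pz Z \ E) b' m + 1 ≤ j) ⊆
        (Icc (-(NN j : ℤ)) (NN j : ℤ)).filter (fun m => (∀ i, m ≠ τ i) ∧
        hits (Pz Y \ E) b m ≤ j - 1) := by
      intro m hm
      rw [mem_filter] at hm ⊢
      have := hb2 m
      exact ⟨hm.1, hm.2.1, by omega⟩
    have h2 : (((Icc (-(NN j : ℤ)) (NN j : ℤ)).filter (fun m => (∀ i, m ≠ τ i) ∧
        hits (Pz Z \ E) b' m + 1 ≤ j)).card : ℝ) ≤ C * c * L1 := by
      refine le_trans (by exact_mod_cast card_le_card h1)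
        ((hprof j hj1 hjk (j - 1) (by omega)).trans ?_)
      have := rA j hj1
      gcongr
    refine h2.trans ?_
    gcongr
  · intro m hm hmτ
    by_cases hj2 : j ≤ 1
    · omega
    · by_cases hmT : m ∈ T
      · have := hb3 m hmT
        omega
      · have h1 : ¬ hits (Pz Y \ E) b m ≤ j - 2 := by
          intro hcon
          apply hmT
          rw [hT, mem_biUnion]
          refine ⟨j, mem_Icc.2 ⟨by omega, hjk⟩, ?_⟩
          rw [mem_filter, mem_Icc]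
          rw [abs_le] at hm
          exact ⟨hm, hmτ, hcon⟩
        have := hb2 m
        omega

end Pool.Agent.H80.Pc
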