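import Pool.Agent.H80.Pc.Mul
import Pool.Agent.H80.Q.Pro

set_option autoImplicit false

/-! # The profile of the numbers of hits, with classes avoiding a tuple (helper80) -/

namespace Pool.Agent.H80.Pc

open Finset Pool.Agent.H361R2.PA TH415.AP Pool.Agent.H80.Pk
open Pool.Agent.H318R2.Cr hiding MM

open scoped Classical

theorem Sz_mono {K K' : ℝ} {k : ℕ} {d₁ d₂ X u₂ u₃ u₄ y w : ℝ} {v Y : ℕ} (hKK : K' ≤ K)
    (H : Sz K k d₁ d₂ X u₂ u₃ u₄ y w v Y) : Sz K' k d₁ d₂ X u₂ u₃ u₄ y w v Y := by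
  have h41 := H.h41
  have h43 := H.h43
  have h32 := H.h32
  exact
    { hX := H.hX
      hK4 := by have := H.hK4; linarith
      h41 := H.h41
      h43 := H.h43
      h32 := H.h32
      h4k := fun j hj => le_trans (mul_le_mul_of_nonneg_right hKK (by positivity)) (H.h4k j hj)
      h3k := fun j hj => le_trans (mul_le_mul_of_nonneg_right hKK (by
        have : 0 < u₃ := by linarith
        positivity)) (H.h3k j hj)
      h2k := fun j hj => le_trans (mul_le_mul_of_nonneg_right hKK (by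
        have : 0 < u₂ := by linarith
        positivity)) (H.h2k j hj)
      hy := H.hy
      hKy := by have := H.hKy; linarith
      hly1 := H.hly1
      hly2 := H.hly2
      hlly := H.hlly
      hlly0 := H.hlly0
      hw := H.hw
      hw10 := H.hw10
      hwy := H.hwy
      hw1 := H.hw1
      hw2 := H.hw2
      hv := H.hv
      hY := H.hY
      hv2 := H.hv2
      hvY := H.hvY
      hlv1 := H.hlv1
      hlv2 := H.hlv2
      hlY := H.hlY
      hVv := H.hVv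
      hVw := H.hVw
      hVv' := H.hVv'
      hVlog := H.hVlog
      hVd := H.hVd }

theorem card_mult (N p : ℕ) (hp : 0 < p) (hpN : p ≤ N) :
    (((Icc (-(N : ℤ)) (N : ℤ)).filter (fun m => (p : ℤ) ∣ m)).card : ℝ) ≤ 4 * N / p := by
  have h1 : ((Icc (-(N : ℤ)) (N : ℤ)).filter (fun m => (p : ℤ) ∣ m)).card ≤
      ((Icc 1 (2 * N + 1)).filter (fun s : ℕ => (p : ℤ) ∣ ((N : ℤ) + 1) - s)).card := by
    apply card_le_card_of_injOn (fun m : ℤ => ((N : ℤ) + 1 - m).toNat)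
    · intro m hm
      simp only [coe_filter, Set.mem_ofPred_eq, mem_Icc] at hm ⊢
      have e : ((((N : ℤ) + 1 - m).toNat : ℕ) : ℤ) = (N : ℤ) + 1 - m := Int.toNat_of_nonneg (by omega)
      refine ⟨by omega, ?_⟩
      rw [e]
      have : (N : ℤ) + 1 - ((N : ℤ) + 1 - m) = m := by ring
      rw [this]
      exact hm.2
    · intro a ha b hb h
      simp only [coe_filter, Set.mem_ofPred_eq, mem_Icc] at ha hb
      have h' : ((N : ℤ) + 1 - a).toNat = ((N : ℤ) + 1 - b).toNat := h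
      omega
  have h2 := count_dvd (2 * N + 1) p hp ((N : ℤ) + 1)
  have hp0 : (0 : ℝ) < p := by exact_mod_cast hp
  have hp1 : (1 : ℝ) ≤ p := by exact_mod_cast hp
  have hpN' : (p : ℝ) ≤ N := by exact_mod_cast hpN
  have h3 : (((Icc (-(N : ℤ)) (N : ℤ)).filter (fun m => (p : ℤ) ∣ m)).card : ℝ) ≤
      ((2 * N + 1 : ℕ) : ℝ) / p + 1 := le_trans (by exact_mod_cast h1) h2
  refine h3.trans ?_
  push_cast
  rw [div_add_one hp0.ne', div_le_div_iff_of_pos_right hp0]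
  linarith

/-- the count with removed primes -/
theorem cnt_ex (v Y N j : ℕ) (hYN : Y ≤ N) (E : Finset ℕ) :
    (((Icc (-(N : ℤ)) (N : ℤ)).filter
      (fun m => hits (MM v Y \ E) (fun _ => 0) m ≤ j)).card : ℝ) ≤
    (((Icc (-(N : ℤ)) (N : ℤ)).filter
      (fun m => hits (MM v Y) (fun _ => 0) m ≤ j)).card : ℝ) +
      4 * N * ∑ p ∈ MM v Y ∩ E, 1 / (p : ℝ) := by
  have h1 : (Icc (-(N : ℤ)) (N : ℤ)).filter (fun m => hits (MM v Y \ E) (fun _ => 0) m ≤ j) ⊆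
      ((Icc (-(N : ℤ)) (N : ℤ)).filter (fun m => hits (MM v Y) (fun _ => 0) m ≤ j)) ∪
      (MM v Y ∩ E).biUnion (fun p => (Icc (-(N : ℤ)) (N : ℤ)).filter (fun m => (p : ℤ) ∣ m)) := by
    intro m hm
    rw [mem_filter] at hm
    rw [mem_union]
    by_cases h : ∃ p ∈ MM v Y ∩ E, (p : ℤ) ∣ m
    · right
      obtain ⟨p, hp, hd⟩ := h
      rw [mem_biUnion]
      exact ⟨p, hp, mem_filter.2 ⟨hm.1, hd⟩⟩
    · left
      push Not at h
      rw [mem_filter]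
      refine ⟨hm.1, le_trans (le_of_eq ?_) hm.2⟩
      unfold hits
      congr 1
      ext p
      simp only [mem_filter, mem_sdiff, sub_zero]
      constructor
      · rintro ⟨h2, h3⟩
        refine ⟨⟨h2, fun hE => h p (mem_inter.2 ⟨h2, hE⟩) h3⟩, h3⟩
      · rintro ⟨⟨h2, _⟩, h3⟩
        exact ⟨h2, h3⟩
  have h2 : (((MM v Y ∩ E).biUnion (fun p => (Icc (-(N : ℤ)) (N : ℤ)).filter
      (fun m => (p : ℤ) ∣ m))).card : ℝ) ≤ 4 * N * ∑ p ∈ MM v Y ∩ E, 1 / (p : ℝ) := by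
    have h3 : (((MM v Y ∩ E).biUnion (fun p => (Icc (-(N : ℤ)) (N : ℤ)).filter
      (fun m => (p : ℤ) ∣ m))).card : ℝ) ≤ ∑ p ∈ MM v Y ∩ E,
        (((Icc (-(N : ℤ)) (N : ℤ)).filter (fun m => (p : ℤ) ∣ m)).card : ℝ) := by
      exact_mod_cast card_biUnion_le
    refine h3.trans ?_
    rw [mul_sum]
    apply sum_le_sum
    intro p hp
    rw [mem_inter, MM, mem_filter, mem_Ioc] at hp
    have := card_mult N p hp.1.2.pos (hp.1.1.2.trans hYN)
    rw [mul_one_div]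
    exact this
  have h4 := (card_le_card h1).trans (card_union_le _ _)
  have h5 : (((Icc (-(N : ℤ)) (N : ℤ)).filter
      (fun m => hits (MM v Y \ E) (fun _ => 0) m ≤ j)).card : ℝ) ≤
      (((Icc (-(N : ℤ)) (N : ℤ)).filter
      (fun m => hits (MM v Y) (fun _ => 0) m ≤ j)).card : ℝ) +
      (((MM v Y ∩ E).biUnion (fun p => (Icc (-(N : ℤ)) (N : ℤ)).filter
      (fun m => (p : ℤ) ∣ m))).card : ℝ) := by exact_mod_cast h4
  linarith

theorem hits_splitR (v Y s : ℕ) (hvY : v ≤ Y) (E : Finset ℕ) (b : ℕ → ℤ) (z : ℤ) :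
    hits (Pz Y \ E) (fun p => if p ≤ v then b p else -(s : ℤ)) z =
      hits (Pz v \ E) b z + hits (MM v Y \ E) (fun _ => 0) (z + s) := by
  unfold hits MM
  rw [← card_union_of_disjoint]
  · congr 1
    ext p
    simp only [mem_filter, mem_union, mem_Pz, mem_Ioc, mem_sdiff, sub_zero]
    constructor
    · rintro ⟨⟨⟨h1, h2⟩, hE⟩, h3⟩
      by_cases h : p ≤ v
      · left
        rw [if_pos h] at h3
        exact ⟨⟨⟨h1, h⟩, hE⟩, h3⟩
      · right
        rw [if_neg h, sub_neg_eq_add] at h3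
        exact ⟨⟨⟨⟨by omega, h2⟩, h1⟩, hE⟩, h3⟩
    · rintro (⟨⟨⟨h1, h2⟩, hE⟩, h3⟩ | ⟨⟨⟨⟨h1, h2⟩, h3⟩, hE⟩, h4⟩)
      · rw [if_pos h2]
        exact ⟨⟨⟨h1, h2.trans hvY⟩, hE⟩, h3⟩
      · rw [if_neg (by omega), sub_neg_eq_add]
        exact ⟨⟨⟨h3, h2⟩, hE⟩, h4⟩
  · rw [disjoint_left]
    intro p h1 h2
    simp only [mem_filter, mem_Pz, mem_Ioc, mem_sdiff] at h1 h2
    omega

theorem prod_ex (S E : Finset ℕ) (hS : ∀ p ∈ S, p.Prime) (t : ℝ) (ht : 0 ≤ t)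
    (hE : 1 / 4 ≤ ∏ p ∈ S ∩ E, (1 - 1 / (p : ℝ))) :
    ∏ p ∈ S \ E, (1 - (1 - t) / (p : ℝ)) ≤ 4 * ∏ p ∈ S, (1 - (1 - t) / (p : ℝ)) := by
  have h1 : S = (S \ E) ∪ (S ∩ E) := by
    ext p
    simp only [mem_union, mem_sdiff, mem_inter]
    tauto
  have h2 : ∏ p ∈ S, (1 - (1 - t) / (p : ℝ)) =
      (∏ p ∈ S \ E, (1 - (1 - t) / (p : ℝ))) * ∏ p ∈ S ∩ E, (1 - (1 - t) / (p : ℝ)) := by
    conv_lhs => rw [h1]
    rw [prod_union]
    rw [disjoint_left]
    intro p h3 h4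
    rw [mem_sdiff] at h3
    rw [mem_inter] at h4
    exact h3.2 h4.2
  have h3 : ∏ p ∈ S ∩ E, (1 - 1 / (p : ℝ)) ≤ ∏ p ∈ S ∩ E, (1 - (1 - t) / (p : ℝ)) := by
    apply prod_le_prod
    · intro p hp
      exact (one_sub_inv_pos (hS p (mem_inter.1 hp).1)).le
    · intro p _
      have : (1 - t) / (p : ℝ) ≤ 1 / p := by
        gcongr
        linarith
      linarith
  have h4 : 0 ≤ ∏ p ∈ S \ E, (1 - (1 - t) / (p : ℝ)) := prod_nonneg fun p hp => by
    have hpp := hS p (mem_sdiff.1 hp).1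
    have h0 : (0 : ℝ) < p := by exact_mod_cast hpp.pos
    have h1 : (1 : ℝ) ≤ p := by exact_mod_cast hpp.one_le
    rw [sub_nonneg, div_le_one h0]
    linarith
  rw [h2]
  have h5 := hE.trans h3
  nlinarith

/-- parameters of the average over the shifts -/
theorem par_ex (C : ℝ) (hC : 1 ≤ C) (Kt T₀ : ℕ) : ∃ K : ℝ, ∀ (k : ℕ), 2 ≤ k → ∀ (d₁ d₂ X u₂ u₃ u₄ y w : ℝ)
    (v Y : ℕ), u₂ = Real.log (Real.log X) → u₃ = Real.log u₂ → Sz K k d₁ d₂ X u₂ u₃ u₄ y w v Y →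
    ∃ z0 : ℕ, 2 ≤ z0 ∧ C ^ z0 ≤ ((v - T₀ : ℕ) : ℝ) ∧ 1 ≤ v - T₀ ∧
      2 * (Kt : ℝ) * Real.log ((Real.log X) ^ 2) ≤ z0 * Real.log z0 ∧ T₀ ≤ v ∧
      (v : ℝ) + T₀ ≤ Real.log X ∧ u₂ ^ 2 + 2 ≤ Real.log X ∧ 1 / (v : ℝ) ≤ 1 / u₂ := by
  set C' : ℝ := 1 + Real.log C with hC'
  have hlC : 0 ≤ Real.log C := Real.log_nonneg hC
  have hC'1 : 1 ≤ C' := by linarith
  refine ⟨1280 * C' * (Kt + 1) + 400 * (T₀ + 1) + 10000, fun k hk d₁ d₂ X u₂ u₃ u₄ y w v Y hu₂ hu₃ H => ?_⟩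
  set K : ℝ := 1280 * C' * (Kt + 1) + 400 * (T₀ + 1) + 10000 with hK
  have hKt0 : (0 : ℝ) ≤ Kt := Nat.cast_nonneg Kt
  have hT0 : (0 : ℝ) ≤ T₀ := Nat.cast_nonneg T₀
  have hc1 : (0 : ℝ) ≤ C' * Kt := by positivity
  have hKb : 1280 * C' + 1280 * (C' * Kt) + 400 * T₀ + 10400 ≤ K := by rw [hK]; linarith
  have h4 := H.hK4
  have h43 := H.h43
  have h32 := H.h32
  have hu₄0 : 0 < u₄ := by linarith
  have hu₃0 : 0 < u₃ := by linarith
  have hu₂0 : 0 < u₂ := by linarith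
  have hu₂1 : 1 ≤ u₂ := by linarith
  have hu₃1 : 1 ≤ u₃ := by linarith
  have hw1 := H.hw1
  have h3q := H.h3k 2 (by omega)
  have h2k1 := H.h2k 2 (by omega)
  have hL0 : 0 < Real.log X := by
    have : 0 < K * u₂ ^ 2 := by positivity
    linarith
  -- w is large
  have hqq : u₂ ^ (1 / 12 : ℝ) ≤ u₂ := by
    calc u₂ ^ (1 / 12 : ℝ) ≤ u₂ ^ (1 : ℝ) := Real.rpow_le_rpow_of_exponent_le hu₂1 (by norm_num)
      _ = u₂ := Real.rpow_one _
  have hu32 : u₃ ^ 2 ≤ u₂ := by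
    have : 1 * u₃ ^ 2 ≤ K * u₃ ^ 2 := by gcongr; linarith
    linarith
  have hw2 : u₄ * u₃ / 40 ≤ w := by
    refine le_trans ?_ hw1
    rw [div_le_div_iff₀ (by norm_num) (by positivity)]
    calc u₄ * u₃ * (40 * u₃) = 40 * u₄ * u₃ ^ 2 := by ring
      _ ≤ 40 * u₄ * u₂ := by gcongr
      _ = _ := by ring
  have hw3 : K / 40 ≤ w := by
    refine le_trans ?_ hw2
    have : K ≤ u₄ * u₃ := by nlinarith
    linarith
  have hw4 : 8 * C' + 2 * (1 + T₀) ≤ w := by linarith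
  have hw5 : 0 < w := by linarith
  have hexp1 := Real.add_one_le_exp (w / 2)
  have hvlt : Real.exp w < v + 1 := by rw [H.hv]; exact Nat.lt_floor_add_one _
  have hexp2 : Real.exp w = Real.exp (w / 2) * Real.exp (w / 2) := by
    rw [← Real.exp_add]; congr 1; ring
  have hve : Real.exp (w / 2) + T₀ ≤ v := by nlinarith
  have hvT : T₀ ≤ v := by
    have : (T₀ : ℝ) ≤ v := by
      have := Real.exp_pos (w / 2)
      linarith
    exact_mod_cast this
  set x : ℝ := w / (2 * C') with hx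
  have hx4 : 4 ≤ x := by
    rw [hx, le_div_iff₀ (by positivity)]
    linarith
  set z0 : ℕ := ⌊x⌋₊ with hz0
  have hz0le : (z0 : ℝ) ≤ x := Nat.floor_le (by linarith)
  have hz0lt : x < z0 + 1 := Nat.lt_floor_add_one _
  have hz02 : (2 : ℝ) ≤ z0 := by linarith
  have hz02' : 2 ≤ z0 := by exact_mod_cast hz02
  have hz0half : x / 2 ≤ z0 := by linarith
  have hcast : ((v - T₀ : ℕ) : ℝ) = (v : ℝ) - T₀ := by push_cast [Nat.cast_sub hvT]; ring
  refine ⟨z0, hz02', ?_, ?_, ?_, hvT, ?_, ?_, ?_⟩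
  · rw [hcast]
    have h1 : C ^ z0 = Real.exp (z0 * Real.log C) := by
      rw [mul_comm, Real.exp_mul, Real.exp_log (by linarith), Real.rpow_natCast]
    have h2 : z0 * Real.log C ≤ w / 2 := by
      calc z0 * Real.log C ≤ x * C' := by
            have : Real.log C ≤ C' := by linarith
            gcongr
        _ = w / 2 := by rw [hx]; field_simp
    rw [h1]
    have := Real.exp_le_exp.2 h2
    linarith
  · have h1 : (1 : ℝ) ≤ ((v - T₀ : ℕ) : ℝ) := by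
      rw [hcast]
      linarith
    exact_mod_cast h1
  · -- the large primes
    have h1 : Real.log ((Real.log X) ^ 2) = 2 * u₂ := by rw [Real.log_pow, ← hu₂]; norm_num
    rw [h1]
    have h2 : u₂ * u₄ / (160 * C' * u₃) ≤ z0 := by
      refine le_trans ?_ hz0half
      rw [hx]
      calc u₂ * u₄ / (160 * C' * u₃) = (u₂ * u₄ / (40 * u₃)) / (4 * C') := by
            field_simp; norm_num
        _ ≤ w / (4 * C') := by gcongr
        _ = _ := by field_simp; norm_num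
    have h3 : u₂ ^ (1 / 2 : ℝ) ≤ z0 := by
      refine le_trans ?_ h2
      rw [le_div_iff₀ (by positivity)]
      have e1 : u₂ ^ (1 / 2 : ℝ) * u₂ ^ (1 / 12 : ℝ) ≤ u₂ := by
        rw [← Real.rpow_add hu₂0]
        calc u₂ ^ (1 / 2 + 1 / 12 : ℝ) ≤ u₂ ^ (1 : ℝ) :=
              Real.rpow_le_rpow_of_exponent_le hu₂1 (by norm_num)
          _ = u₂ := Real.rpow_one _
      have e2 : u₃ ≤ u₂ ^ (1 / 12 : ℝ) := by
        have : 1 * u₃ ≤ K * u₃ ^ 2 := by
          have : u₃ ≤ u₃ ^ 2 := le_self_pow₀ hu₃1 (by norm_num)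
          gcongr
          linarith
        linarith
      have e3 : 160 * C' ≤ u₄ := by linarith
      have e0 : 0 ≤ u₂ ^ (1 / 2 : ℝ) := Real.rpow_nonneg hu₂0.le _
      calc u₂ ^ (1 / 2 : ℝ) * (160 * C' * u₃) = (u₂ ^ (1 / 2 : ℝ) * u₃) * (160 * C') := by ring
        _ ≤ (u₂ ^ (1 / 2 : ℝ) * u₂ ^ (1 / 12 : ℝ)) * u₄ := by gcongr
        _ ≤ u₂ * u₄ := by gcongr
    have h4 : u₃ / 2 ≤ Real.log z0 := by
      have := Real.log_le_log (Real.rpow_pos_of_pos hu₂0 _) h3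
      rw [Real.log_rpow hu₂0, ← hu₃] at this
      linarith
    have h5 : (u₂ * u₄ / (160 * C' * u₃)) * (u₃ / 2) ≤ z0 * Real.log z0 := by gcongr
    refine le_trans ?_ h5
    have h6 : u₂ * u₄ / (160 * C' * u₃) * (u₃ / 2) = u₂ * u₄ / (320 * C') := by field_simp; norm_num
    rw [h6, le_div_iff₀ (by positivity)]
    have h7 : 1280 * (C' * Kt) ≤ u₄ := by linarith
    calc 2 * (Kt : ℝ) * (2 * u₂) * (320 * C') = u₂ * (1280 * (C' * Kt)) := by ring
      _ ≤ u₂ * u₄ := by gcongr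
  · have h1 : (v : ℝ) ≤ y := by
      have : (v : ℝ) ≤ Y := by exact_mod_cast H.hvY
      have h2 : (Y : ℝ) ≤ y := by
        rw [H.hY]
        apply Nat.floor_le
        rw [H.hy]; positivity
      linarith
    have h2 : y ≤ Real.log X / 2 := by
      rw [H.hy]
      apply div_le_div_of_nonneg_left hL0.le (by norm_num)
      linarith
    have h3 : (T₀ : ℝ) ≤ Real.log X / 2 := by
      have : 1 ≤ u₂ ^ 2 := one_le_pow₀ hu₂1
      have : K ≤ K * u₂ ^ 2 := le_mul_of_one_le_right (by linarith) this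
      linarith
    linarith
  · have h1 : 1 ≤ u₂ ^ 2 := one_le_pow₀ hu₂1
    have h3 : 3 * u₂ ^ 2 ≤ K * u₂ ^ 2 := by gcongr; linarith
    linarith
  · apply one_div_le_one_div_of_le hu₂0
    have h1 : u₂ ≤ Real.exp (w / 2) := by
      have h2 : u₃ ≤ w / 2 := by
        have : u₃ * 80 ≤ u₃ * u₄ := by gcongr; linarith
        linarith
      calc u₂ = Real.exp u₃ := by rw [hu₃, Real.exp_log hu₂0]
        _ ≤ _ := Real.exp_le_exp.2 h2
    linarith

end Pool.Agent.H80.Pc
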