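import Pool.Agent.H80.Pc.Pro

set_option autoImplicit false

/-! # The profile of the numbers of hits, with classes avoiding a tuple: the theorem (helper80) -/

namespace Pool.Agent.H80.Pc

open Finset Pool.Agent.H361R2.PA TH415.AP Pool.Agent.H80.Pk
open Pool.Agent.H318R2.Cr hiding MM

open scoped Classical

theorem profileR (k M Kt T₀ : ℕ) (hk : 2 ≤ k) : ∃ C : ℝ, 0 < C ∧ ∃ X₀ : ℝ, ∀ X : ℝ, X₀ ≤ X →
    ∀ (τ : Fin Kt → ℤ), (∀ j, 0 ≤ τ j ∧ τ j ≤ T₀) →
    (∀ p : ℕ, p.Prime → ∃ v : ℤ, ∀ j, ¬ (p : ℤ) ∣ τ j - v) →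
    ∀ E : Finset ℕ,
    ∑ p ∈ MM ⌊Real.exp (WW (Real.log X / Real.log (Real.log X)))⌋₊
      ⌊Real.log X / Real.log (Real.log X)⌋₊ ∩ E, 1 / (p : ℝ) ≤ 8 / Real.log (Real.log X) →
    1 / 4 ≤ ∏ p ∈ Pz ⌊Real.exp (WW (Real.log X / Real.log (Real.log X)))⌋₊ ∩ E, (1 - 1 / (p : ℝ)) →
    ∀ 𝒩 : Finset ℕ, 𝒩.card ≤ M →
    (∀ N ∈ 𝒩, Real.log X / Real.log (Real.log X) ≤ N ∧
      (N : ℝ) ≤ Real.log X * (Real.log (Real.log X)) ^ 2 / 2) →
    ∃ b : ℕ → ℤ, (∀ p ∈ Pz ⌊Real.log X / Real.log (Real.log X)⌋₊ \ E, ∀ j, ¬ (p : ℤ) ∣ τ j - b p) ∧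
      ∀ N ∈ 𝒩,
      (((Icc (-(N : ℤ)) (N : ℤ)).filter (fun m => (∀ j, m ≠ τ j) ∧
        hits (Pz ⌊Real.log X / Real.log (Real.log X)⌋₊ \ E) b m ≤ 0)).card : ℝ) ≤
        C * N * (Real.log (Real.log (Real.log X)) ^ 2 / ((Real.log (Real.log X)) ^ 2 *
          Real.log (Real.log (Real.log (Real.log X))))) ∧
      ∀ h : ℕ, 1 ≤ h → h ≤ k →
        (((Icc (-(N : ℤ)) (N : ℤ)).filter (fun m => (∀ j, m ≠ τ j) ∧
          hits (Pz ⌊Real.log X / Real.log (Real.log X)⌋₊ \ E) b m ≤ h)).card : ℝ) ≤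
          C * N * (Real.log (Real.log (Real.log X)) ^ (h - 1) / Real.log (Real.log X)) := by
  obtain ⟨d₁, d₂, hd₁, hd₁₂, hVV⟩ := cz_bounds
  have hd₂ : 0 < d₂ := hd₁.trans_le hd₁₂
  obtain ⟨C₀, hC₀, K₁, hcnt⟩ := cnt k hk d₁ d₂ hd₁ hd₁₂ hVV
  obtain ⟨Cm, hCm, hmul⟩ := multiR Kt
  obtain ⟨K₂, hpar⟩ := par_ex Cm hCm Kt T₀
  obtain ⟨X₀, hsz⟩ := sizes (|K₁| + |K₂| + 100) (2 * k) (by omega) d₁ d₂ hd₁ hd₁₂ hVV
  set C : ℝ := 2 * C₀ + 64 with hC
  have hC0 : 0 < C := by positivity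
  set G : ℝ := Cm * ((M : ℝ) * (k + 1)) ^ 2 * (4 * Real.exp 4) with hG
  have hG0 : 0 ≤ G := by positivity
  refine ⟨(k + 1) * (G * (80 * d₂ * C)) + 1, by positivity, X₀,
    fun X hX τ hτ hadm E hEa hEb 𝒩 hM hN => ?_⟩
  have H := hsz X hX
  set L1 := Real.log X with hL1
  set u₂ := Real.log L1 with hu₂
  set u₃ := Real.log u₂ with hu₃
  set u₄ := Real.log u₃ with hu₄
  set y := L1 / u₂ with hy
  set w := WW y with hw
  set v := ⌊Real.exp w⌋₊ with hv
  set Y := ⌊y⌋₊ with hY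
  have ha1 := abs_nonneg K₁
  have ha2 := abs_nonneg K₂
  have hb1 := le_abs_self K₁
  have hb2 := le_abs_self K₂
  have H' : Sz K₁ (2 * k) d₁ d₂ X u₂ u₃ u₄ y w v Y := Sz_mono (by linarith) H
  have H2 : Sz K₂ (2 * k) d₁ d₂ X u₂ u₃ u₄ y w v Y := Sz_mono (by linarith) H
  obtain ⟨z0, hz0, hz0C, hvT1, hz0l, hTv, hvL, hLu2, hvu⟩ :=
    hpar (2 * k) (by omega) d₁ d₂ X u₂ u₃ u₄ y w v Y rfl rfl H2
  have h4 := H.h41
  have h4b := H.hK4
  have h43 := H.h43
  have h32 := H.h32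
  have hu₄0 : 0 < u₄ := by linarith
  have hu₃0 : 0 < u₃ := by linarith
  have hu₂0 : 0 < u₂ := by linarith
  have hu₃1 : 1 ≤ u₃ := by linarith
  have hu₂1 : 1 ≤ u₂ := by linarith
  have hw0 : 0 < w := by linarith [H.hw10]
  have hw1 : 1 ≤ w := by linarith [H.hw10]
  have hL0 : 0 < L1 := by
    have : 0 < u₂ ^ 2 := by positivity
    linarith
  have hy0 : 0 < y := by rw [hy]; positivity
  -- the parameters of the sieve
  set t : ℝ := 1 / u₃ with ht
  have ht0 : 0 < t := by positivity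
  have ht1 : t ≤ 1 := by rw [ht, div_le_one hu₃0]; exact hu₃1
  have hPzpr : ∀ p ∈ Pz v, p.Prime := fun p hp => (mem_Pz.1 hp).1
  set Sm := Pz v \ E with hSm
  have hSpr : ∀ p ∈ Sm, p.Prime := fun p hp => hPzpr p (mem_sdiff.1 hp).1
  set Vt := ∏ p ∈ Sm, (1 - (1 - t) / (p : ℝ)) with hVt
  have hVtle : Vt ≤ 4 * (V v * Real.exp 4) := by
    refine (prod_ex (Pz v) E hPzpr t ht0.le hEb).trans ?_
    have h1 := prod_t (Pz v) hPzpr t ht0.le
    have h2 : ∏ p ∈ Pz v, (1 - 1 / (p : ℝ)) = V v := rfl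
    rw [h2] at h1
    refine mul_le_mul_of_nonneg_left (h1.trans ?_) (by norm_num)
    have h3 : 2 * t * (-Real.log (V v)) ≤ 4 := by
      calc 2 * t * (-Real.log (V v)) ≤ 2 * t * (2 * u₃) := by
            have := H.hVlog
            gcongr
        _ = 4 := by rw [ht]; field_simp; norm_num
    have h5 := V_pos v
    gcongr
  set Bs : ℕ × ℕ → Finset ℤ := fun i => (Icc (-((2 * i.1 : ℕ) : ℤ)) ((2 * i.1 : ℕ) : ℤ)).filter
    (fun m => hits (MM v Y \ E) (fun _ => 0) m ≤ i.2) with hBs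
  set I : Finset (ℕ × ℕ) := 𝒩 ×ˢ range (k + 1) with hI
  have hIc : (I.card : ℝ) ≤ (M : ℝ) * (k + 1) := by
    rw [hI, card_product, card_range]
    push_cast
    have : (𝒩.card : ℝ) ≤ M := by exact_mod_cast hM
    gcongr
  have hLo : ((Sm.filter (fun p => p ≤ z0)).card) ≤ z0 := by
    have h1 : Sm.filter (fun p => p ≤ z0) ⊆ Icc 1 z0 := by
      intro p hp
      rw [mem_filter] at hp
      exact mem_Icc.2 ⟨(hSpr p hp.1).one_le, hp.2⟩
    have := card_le_card h1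
    simpa using this
  obtain ⟨s, b, hs1, hsM, hb1', hb⟩ := hmul I Bs Sm hSpr τ (fun p hp => hadm p (hSpr p hp)) t ht0 ht1
    z0 (v - T₀) (L1 ^ 2) hz0 hvT1 ((pow_le_pow_right₀ hCm hLo).trans hz0C) hz0l (by
      intro i hi m hm s hs j
      rw [hI, mem_product] at hi
      rw [hBs, mem_filter, mem_Icc] at hm
      obtain ⟨-, hN2⟩ := hN i.1 hi.1
      obtain ⟨t1, t2⟩ := hτ j
      have e1 : |(m : ℝ)| ≤ 2 * (i.1 : ℝ) := by
        rw [abs_le]
        have g1 : ((-((2 * i.1 : ℕ) : ℤ) : ℤ) : ℝ) ≤ (m : ℝ) := by exact_mod_cast hm.1.1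
        have g2 : (m : ℝ) ≤ (((2 * i.1 : ℕ) : ℤ) : ℝ) := by exact_mod_cast hm.1.2
        push_cast at g1 g2
        constructor <;> linarith
      have e2 : (s : ℝ) ≤ v := by
        have : s ≤ v := hs.trans (Nat.sub_le _ _)
        exact_mod_cast this
      have e3 : (0 : ℝ) ≤ (τ j : ℝ) := by exact_mod_cast t1
      have e4 : (τ j : ℝ) ≤ T₀ := by exact_mod_cast t2
      have e5 : (0 : ℝ) ≤ s := Nat.cast_nonneg s
      push_cast
      have e6 : |(m : ℝ) - s - τ j| ≤ |(m : ℝ)| + (s + τ j) := by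
        have : (m : ℝ) - s - τ j = m - (s + τ j) := by ring
        rw [this]
        refine (abs_sub _ _).trans ?_
        rw [abs_of_nonneg (by linarith : (0 : ℝ) ≤ s + τ j)]
      have e7 : L1 * u₂ ^ 2 + L1 ≤ L1 ^ 2 := by
        have : L1 * (u₂ ^ 2 + 2) ≤ L1 * L1 := by gcongr
        nlinarith
      linarith)
  refine ⟨fun p => if p ≤ v then b p else -(s : ℤ), ?_, fun N hNN => ?_⟩
  · intro p hp j
    rw [mem_sdiff, mem_Pz] at hp
    by_cases hpv : p ≤ v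
    · simp only [if_pos hpv]
      exact hb1' p (by rw [hSm, mem_sdiff, mem_Pz]; exact ⟨⟨hp.1.1, hpv⟩, hp.2⟩) j
    · simp only [if_neg hpv]
      intro hd
      obtain ⟨t1, t2⟩ := hτ j
      have h1 := Int.le_of_dvd (by omega) hd
      have h2 : s + T₀ ≤ v := by omega
      omega
  obtain ⟨hN1, hN2⟩ := hN N hNN
  have hN0 : (0 : ℝ) ≤ N := Nat.cast_nonneg _
  have h2N : ((2 * N : ℕ) : ℝ) = 2 * N := by push_cast; ring
  obtain ⟨c0, c1⟩ := hcnt X u₂ u₃ u₄ y w v Y H' (2 * N) (by rw [h2N]; linarith)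
    (by rw [h2N]; linarith)
  rw [h2N] at c0 c1
  have hYN : Y ≤ 2 * N := by
    have h1 : Y ≤ N := Nat.floor_le_of_le hN1
    omega
  -- the counts with the removed primes
  have hBc : ∀ j : ℕ, ((Bs (N, j)).card : ℝ) ≤
      (((Icc (-((2 * N : ℕ) : ℤ)) ((2 * N : ℕ) : ℤ)).filter
        (fun k => hits (MM v Y) (fun _ => 0) k ≤ j)).card : ℝ) + 64 * N / u₂ := by
    intro j
    have h1 := cnt_ex v Y (2 * N) j hYN E
    rw [h2N] at h1
    refine h1.trans ?_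
    have h2 : 4 * (2 * (N : ℝ)) * ∑ p ∈ MM v Y ∩ E, 1 / (p : ℝ) ≤ 4 * (2 * N) * (8 / u₂) := by
      gcongr
    have h3 : 4 * (2 * (N : ℝ)) * (8 / u₂) = 64 * N / u₂ := by ring
    rw [h3] at h2
    gcongr
  have c0' : ((Bs (N, 0)).card : ℝ) ≤ C * N * (u₃ / u₂) := by
    refine (hBc 0).trans ?_
    have h1 : 64 * (N : ℝ) / u₂ ≤ 64 * N * (u₃ / u₂) := by
      rw [← mul_div_assoc]
      apply div_le_div_of_nonneg_right _ hu₂0.le
      exact le_mul_of_one_le_right (by positivity) hu₃1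
    calc _ ≤ C₀ * (2 * N) * (u₃ / u₂) + 64 * N * (u₃ / u₂) := by gcongr
      _ = _ := by rw [hC]; ring
  have c1' : ∀ j : ℕ, 1 ≤ j → j ≤ k → ((Bs (N, j)).card : ℝ) ≤
      C * N * (w * u₃ ^ (j - 1) / u₂) := by
    intro j hj1 hjk
    refine (hBc j).trans ?_
    have h1 : 64 * (N : ℝ) / u₂ ≤ 64 * N * (w * u₃ ^ (j - 1) / u₂) := by
      rw [← mul_div_assoc]
      have h2 : 1 ≤ u₃ ^ (j - 1) := one_le_pow₀ hu₃1
      have h3 : 1 ≤ w * u₃ ^ (j - 1) := by nlinarith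
      apply div_le_div_of_nonneg_right _ hu₂0.le
      exact le_mul_of_one_le_right (by positivity) h3
    calc _ ≤ C₀ * (2 * N) * (w * u₃ ^ (j - 1) / u₂) + 64 * N * (w * u₃ ^ (j - 1) / u₂) := by
          have := c1 j hj1 hjk
          gcongr
      _ = _ := by rw [hC]; ring
  -- one piece
  set A : ℕ → Finset ℤ := fun j => (Bs (N, j)).filter (fun m => ∀ i, m - (s : ℤ) ≠ τ i) with hA
  have hpiece : ∀ j : ℕ, j ≤ k → ∀ h : ℕ,
      (((A j).filter (fun m => hits Sm b (m - (s : ℤ)) ≤ h)).card : ℝ) ≤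
        u₃ ^ h * (G * (V v * ((Bs (N, j)).card : ℝ))) := by
    intro j hj h
    have h1 : t ^ h * (((A j).filter (fun m => hits Sm b (m - (s : ℤ)) ≤ h)).card : ℝ) ≤
        ∑ m ∈ A j, t ^ (hits Sm b (m - (s : ℤ))) := by
      calc t ^ h * (((A j).filter (fun m => hits Sm b (m - (s : ℤ)) ≤ h)).card : ℝ) =
          ∑ m ∈ (A j).filter (fun m => hits Sm b (m - (s : ℤ)) ≤ h), t ^ h := by
            rw [sum_const, nsmul_eq_mul]; ring
        _ ≤ ∑ m ∈ (A j).filter (fun m => hits Sm b (m - (s : ℤ)) ≤ h),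
            t ^ (hits Sm b (m - (s : ℤ))) := by
            apply sum_le_sum
            intro m hm
            rw [mem_filter] at hm
            exact pow_le_pow_of_le_one ht0.le ht1 hm.2
        _ ≤ _ := sum_le_sum_of_subset_of_nonneg (filter_subset _ _) (fun m _ _ => by positivity)
    have h1' := h1.trans (hb (N, j) (mem_product.2 ⟨hNN, mem_range.2 (by omega)⟩))
    have h2 : t ^ h = 1 / u₃ ^ h := by rw [ht, one_div, one_div, inv_pow]
    rw [h2, one_div_mul_eq_div, div_le_iff₀ (by positivity)] at h1'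
    refine h1'.trans ?_
    have hVt0 : 0 ≤ Vt := prod_nonneg fun p hp => by
      have h0 : (0 : ℝ) < p := by exact_mod_cast (hSpr p hp).pos
      have h1 : (1 : ℝ) ≤ p := by exact_mod_cast (hSpr p hp).one_le
      rw [sub_nonneg, div_le_one h0]
      linarith
    have h3 : Cm * (I.card : ℝ) ^ 2 * Vt * ((Bs (N, j)).card : ℝ) ≤
        Cm * ((M : ℝ) * (k + 1)) ^ 2 * (4 * (V v * Real.exp 4)) * ((Bs (N, j)).card : ℝ) := by
      gcongr
    calc Cm * (I.card : ℝ) ^ 2 * Vt * ((Bs (N, j)).card : ℝ) * u₃ ^ h ≤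
        Cm * ((M : ℝ) * (k + 1)) ^ 2 * (4 * (V v * Real.exp 4)) * ((Bs (N, j)).card : ℝ) *
          u₃ ^ h := by gcongr
      _ = _ := by rw [hG]; ring
  -- the splitting
  have hsplit : ∀ h : ℕ, h ≤ k → (((Icc (-(N : ℤ)) (N : ℤ)).filter (fun m => (∀ j, m ≠ τ j) ∧
      hits (Pz Y \ E) (fun p => if p ≤ v then b p else -(s : ℤ)) m ≤ h)).card : ℝ) ≤
      ∑ j ∈ range (h + 1), u₃ ^ (h - j) * (G * (V v * ((Bs (N, j)).card : ℝ))) := by
    intro h hh
    have h1 : ((Icc (-(N : ℤ)) (N : ℤ)).filter (fun m => (∀ j, m ≠ τ j) ∧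
        hits (Pz Y \ E) (fun p => if p ≤ v then b p else -(s : ℤ)) m ≤ h)).card ≤
        ((range (h + 1)).biUnion (fun j => (A j).filter
          (fun m => hits Sm b (m - (s : ℤ)) ≤ h - j))).card := by
      apply card_le_card_of_injOn (fun m : ℤ => m + (s : ℤ))
      · intro m hm
        simp only [coe_filter, Set.mem_ofPred_eq, mem_Icc] at hm
        rw [hits_splitR v Y s H.hvY E b m, ← hSm] at hm
        rw [mem_coe, mem_biUnion]
        refine ⟨hits (MM v Y \ E) (fun _ => 0) (m + s), mem_range.2 (by omega), ?_⟩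
        have e0 : m + (s : ℤ) - s = m := by ring
        rw [mem_filter, hA, mem_filter, hBs, mem_filter, mem_Icc, e0]
        have hsN : s ≤ N := by
          have g1 : s ≤ v := hsM.trans (Nat.sub_le _ _)
          have g2 : Y ≤ N := Nat.floor_le_of_le hN1
          exact g1.trans (H.hvY.trans g2)
        refine ⟨⟨⟨⟨by push_cast; omega, by push_cast; omega⟩, le_rfl⟩, hm.2.1⟩, by omega⟩
      · intro a _ c _ hac
        have hac' : a + (s : ℤ) = c + s := hac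
        omega
    have h2 := h1.trans card_biUnion_le
    have h3 : (((Icc (-(N : ℤ)) (N : ℤ)).filter (fun m => (∀ j, m ≠ τ j) ∧
        hits (Pz Y \ E) (fun p => if p ≤ v then b p else -(s : ℤ)) m ≤ h)).card : ℝ) ≤
        ∑ j ∈ range (h + 1), (((A j).filter
          (fun m => hits Sm b (m - (s : ℤ)) ≤ h - j)).card : ℝ) := by exact_mod_cast h2
    refine h3.trans (sum_le_sum fun j hj => ?_)
    rw [mem_range] at hj
    exact hpiece j (by omega) (h - j)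
  have hVp := V_pos v
  refine ⟨?_, fun h h1 hhk => ?_⟩
  · refine (hsplit 0 (by omega)).trans ?_
    rw [zero_add, sum_range_one, Nat.sub_zero, pow_zero, one_mul]
    have e1 : V v * ((Bs (N, 0)).card : ℝ) ≤
        (80 * d₂ * u₃ / (u₂ * u₄)) * (C * N * (u₃ / u₂)) :=
      mul_le_mul H.hVv c0' (Nat.cast_nonneg _) (by positivity)
    have e2 : (80 * d₂ * u₃ / (u₂ * u₄)) * (C * N * (u₃ / u₂)) =
        80 * d₂ * C * (N * (u₃ ^ 2 / (u₂ ^ 2 * u₄))) := by
      field_simp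
    rw [e2] at e1
    set Q := (N : ℝ) * (u₃ ^ 2 / (u₂ ^ 2 * u₄)) with hQ
    have hQ0 : 0 ≤ Q := by positivity
    calc G * (V v * ((Bs (N, 0)).card : ℝ)) ≤ G * (80 * d₂ * C * Q) := by gcongr
      _ = 1 * (G * (80 * d₂ * C)) * Q := by ring
      _ ≤ ((k : ℝ) + 1) * (G * (80 * d₂ * C)) * Q := by
        have : (0 : ℝ) ≤ k := Nat.cast_nonneg k
        gcongr
        linarith
      _ ≤ ((k : ℝ) + 1) * (G * (80 * d₂ * C)) * Q + 1 * Q := by linarith
      _ = _ := by rw [hQ]; ring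
  · refine (hsplit h hhk).trans ?_
    set Q := (N : ℝ) * (u₃ ^ (h - 1) / u₂) with hQ
    have hQ0 : 0 ≤ Q := by positivity
    have hterm : ∀ j ∈ range (h + 1), u₃ ^ (h - j) * (G * (V v * ((Bs (N, j)).card : ℝ))) ≤
        G * (80 * d₂ * C) * Q := by
      intro j hj
      rw [mem_range] at hj
      rcases Nat.eq_zero_or_pos j with rfl | hj0
      · have e1 : V v * ((Bs (N, 0)).card : ℝ) ≤
            (80 * d₂ * u₃ / (u₂ * u₄)) * (C * N * (u₃ / u₂)) :=
          mul_le_mul H.hVv c0' (Nat.cast_nonneg _) (by positivity)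
        have e3 : u₃ ^ 3 ≤ u₂ * u₄ := by
          have q1 := H.h3k 3 (by omega)
          have q2 : u₂ ^ (1 / 12 : ℝ) ≤ u₂ := by
            calc u₂ ^ (1 / 12 : ℝ) ≤ u₂ ^ (1 : ℝ) :=
                  Real.rpow_le_rpow_of_exponent_le (by linarith) (by norm_num)
              _ = u₂ := Real.rpow_one _
          have q3 : 1 * u₃ ^ 3 ≤ (|K₁| + |K₂| + 100) * u₃ ^ 3 := by gcongr; linarith
          calc u₃ ^ 3 ≤ u₂ := by linarith
            _ = u₂ * 1 := (mul_one _).symm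
            _ ≤ u₂ * u₄ := by gcongr
        have e4 : u₃ ^ h = u₃ ^ (h - 1) * u₃ := by
          rw [← pow_succ]; congr 1; omega
        rw [Nat.sub_zero]
        calc u₃ ^ h * (G * (V v * ((Bs (N, 0)).card : ℝ))) ≤
            u₃ ^ h * (G * ((80 * d₂ * u₃ / (u₂ * u₄)) * (C * N * (u₃ / u₂)))) := by gcongr
          _ = G * (80 * d₂ * C) * Q * (u₃ ^ 3 / (u₂ * u₄)) := by
            rw [e4, hQ]
            field_simp
          _ ≤ G * (80 * d₂ * C) * Q * 1 := by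
            gcongr
            rw [div_le_one (by positivity)]
            exact e3
          _ = _ := mul_one _
      · have e1 := c1' j hj0 (by omega)
        have e2 : V v * ((Bs (N, j)).card : ℝ) ≤ V v * (C * N * (w * u₃ ^ (j - 1) / u₂)) := by
          gcongr
        have e3 : V v * (C * N * (w * u₃ ^ (j - 1) / u₂)) =
            (V v * w) * (C * N * (u₃ ^ (j - 1) / u₂)) := by ring
        rw [e3] at e2
        have e4 : (V v * w) * (C * N * (u₃ ^ (j - 1) / u₂)) ≤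
            (2 * d₂) * (C * N * (u₃ ^ (j - 1) / u₂)) := by
          have := H.hVw
          gcongr
        have e5 : u₃ ^ (h - 1) = u₃ ^ (h - j) * u₃ ^ (j - 1) := by
          rw [← pow_add]; congr 1; omega
        calc u₃ ^ (h - j) * (G * (V v * ((Bs (N, j)).card : ℝ))) ≤
            u₃ ^ (h - j) * (G * (2 * d₂ * (C * N * (u₃ ^ (j - 1) / u₂)))) := by
              have := e2.trans e4
              gcongr
          _ = G * (2 * d₂ * C) * Q := by rw [hQ, e5]; ring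
          _ ≤ G * (80 * d₂ * C) * Q := by gcongr; norm_num
    refine (sum_le_sum hterm).trans ?_
    rw [sum_const, card_range, nsmul_eq_mul]
    have e6 : ((h + 1 : ℕ) : ℝ) ≤ (k : ℝ) + 1 := by
      push_cast
      have : (h : ℝ) ≤ k := by exact_mod_cast hhk
      linarith
    calc ((h + 1 : ℕ) : ℝ) * (G * (80 * d₂ * C) * Q) ≤
        ((k : ℝ) + 1) * (G * (80 * d₂ * C) * Q) := by gcongr
      _ ≤ ((k : ℝ) + 1) * (G * (80 * d₂ * C) * Q) + 1 * Q := by linarith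
      _ = _ := by rw [hQ]; ring

end Pool.Agent.H80.Pc
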